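import Pool.Agent.Lib.MP_f6c41f_nt.RT.Defs

/-!
# MP_f6c41f_nt RT, row Mec: a finite balanced word is mechanical

Proof.  `N(i,j) = Σ_{i ≤ r < j} c r` for `i < j ≤ L`.  For `1 ≤ k ≤ L` let `Mx k`, `mn k` be the maximum and minimum of
`N(b, b+k)`, `b + k ≤ L`; balanced: `Mx k ≤ mn k + 1`.  Key: for all `1 ≤ k, l ≤ L`: `l (Mx k - 1) < k (mn l + 1)`
(integers).  Strong induction on `k + l`.  `k = l`: `Mx k - 1 ≤ mn k`.  `k > l`: `Mx k ≤ Mx (k-l) + Mx l` and
`Mx l ≤ mn l + 1`, so `l (Mx k - 1) ≤ l (Mx (k-l) - 1) + l (mn l + 1) < (k - l)(mn l + 1) + l (mn l + 1)`.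
`k < l`: `mn l ≥ mn (l-k) + mn k ≥ mn (l-k) + Mx k - 1`, so
`k (mn l + 1) ≥ k (mn (l-k) + 1) + k (Mx k - 1) > (l-k)(Mx k - 1) + k (Mx k - 1)`.
So there is a real `v` with `(Mx k - 1)/k < v < (mn l + 1)/l` for all `k, l` (finite sets: `max < min`; if `L = 0` take
`u = 1/2`, `v = 0`).  Hence for `i < j ≤ L`: `N(i,j) - 1 < (j - i) v < N(i,j) + 1`.  With `n_j = N(0,j)`: for all
`i, j ≤ L`: `n_i - i v < n_j + 1 - j v` (for `i = j` trivial, for `i < j` the left inequality reversed..., i.e.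
`(j - i) v < n_j - n_i + 1`; for `i > j`: `n_i - n_j - 1 < (i - j) v`).  Choose `u` with
`max_i (n_i - i v) < u < min_j (n_j + 1 - j v)`.  Then `n_j < u + j v < n_j + 1`.
-/

set_option autoImplicit false

namespace Pool.Agent.Lib.MP_f6c41f_nt.RT

open Finset Pool.Agent.Lib.MP_f6c41f_nt
open scoped Classical

theorem mec_split (c : ℕ → ℕ) (b k l : ℕ) :
    ∑ i ∈ range (k + l), c (b + i) = ∑ i ∈ range k, c (b + i) + ∑ i ∈ range l, c (b + k + i) := by
  rw [sum_range_add]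
  simp only [add_assoc]

theorem mec_key (c : ℕ → ℕ) (L : ℕ)
    (hbal : ∀ k b b' : ℕ, b + k ≤ L → b' + k ≤ L →
      ∑ i ∈ range k, c (b + i) ≤ ∑ i ∈ range k, c (b' + i) + 1) (n : ℕ) :
    ∀ k l b b' : ℕ, k + l ≤ n → 1 ≤ k → 1 ≤ l → b + k ≤ L → b' + l ≤ L →
      l * ∑ i ∈ range k, c (b + i) < k * (∑ i ∈ range l, c (b' + i) + 1) + l := by
  induction n with
  | zero =>
    intro k l b b' h h1
    omega
  | succ n ih =>
    intro k l b b' h hk hl hb hb'
    rcases lt_trichotomy k l with hkl | hkl | hkl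
    · obtain ⟨m, rfl⟩ : ∃ m, l = m + k := ⟨l - k, by omega⟩
      have h1 := ih k m b b' (by omega) hk (by omega) hb (by omega)
      have h2 := hbal k b (b' + m) hb (by omega)
      have h3 := mec_split c b' m k
      rw [h3]
      have h4 : k * ∑ i ∈ range k, c (b + i) ≤ k * (∑ i ∈ range k, c (b' + m + i) + 1) :=
        Nat.mul_le_mul_left _ h2
      have e1 : (m + k) * ∑ i ∈ range k, c (b + i) =
        m * ∑ i ∈ range k, c (b + i) + k * ∑ i ∈ range k, c (b + i) := by ring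
      have e2 : k * (∑ i ∈ range m, c (b' + i) + ∑ i ∈ range k, c (b' + m + i) + 1) + (m + k) =
        k * (∑ i ∈ range m, c (b' + i) + 1) + m + k * (∑ i ∈ range k, c (b' + m + i) + 1) := by
        ring
      rw [e1, e2]
      omega
    · subst hkl
      have h2 := Nat.mul_le_mul_left k (hbal k b b' hb hb')
      omega
    · obtain ⟨m, rfl⟩ : ∃ m, k = m + l := ⟨k - l, by omega⟩
      have h1 := ih m l b b' (by omega) (by omega) hl (by omega) hb'
      have h2 := hbal l (b + m) b' (by omega) hb'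
      have h3 := mec_split c b m l
      rw [h3]
      have h4 := Nat.mul_le_mul_left l h2
      have e1 : l * (∑ i ∈ range m, c (b + i) + ∑ i ∈ range l, c (b + m + i)) =
        l * ∑ i ∈ range m, c (b + i) + l * ∑ i ∈ range l, c (b + m + i) := by ring
      have e2 : (m + l) * (∑ i ∈ range l, c (b' + i) + 1) + l =
        m * (∑ i ∈ range l, c (b' + i) + 1) + l + l * (∑ i ∈ range l, c (b' + i) + 1) := by
        ring
      rw [e1, e2]
      omega

theorem mec (c : ℕ → ℕ) (L : ℕ)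
    (hbal : ∀ k b b' : ℕ, b + k ≤ L → b' + k ≤ L →
      ∑ i ∈ range k, c (b + i) ≤ ∑ i ∈ range k, c (b' + i) + 1) :
    ∃ u v : ℝ, ∀ j : ℕ, j ≤ L → ((∑ i ∈ range j, c i : ℕ) : ℝ) < u + j * v ∧
      u + j * v < ((∑ i ∈ range j, c i : ℕ) : ℝ) + 1 := by
  let X : Finset (ℕ × ℕ) := (range (L + 1) ×ˢ range (L + 1)).filter
    (fun x => x.1 + x.2 ≤ L ∧ 1 ≤ x.2)
  have hX : ∀ b k : ℕ, b + k ≤ L → 1 ≤ k → (b, k) ∈ X := by
    intro b k h1 h2
    refine mem_filter.2 ⟨mem_product.2 ⟨mem_range.2 ?_, mem_range.2 ?_⟩, h1, h2⟩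
    · show b < L + 1
      omega
    · show k < L + 1
      omega
  obtain ⟨v, hv1, hv2⟩ := Order.exists_between_finsets
    (X.image (fun x => (((∑ i ∈ range x.2, c (x.1 + i) : ℕ) : ℝ) - 1) / (x.2 : ℝ)))
    (X.image (fun x => (((∑ i ∈ range x.2, c (x.1 + i) : ℕ) : ℝ) + 1) / (x.2 : ℝ))) (by
      intro x hx y hy
      obtain ⟨⟨b, k⟩, hbk, rfl⟩ := mem_image.1 hx
      obtain ⟨⟨b', l⟩, hbl, rfl⟩ := mem_image.1 hy
      obtain ⟨_, h1, h2⟩ := mem_filter.1 hbk
      obtain ⟨_, h3, h4⟩ := mem_filter.1 hbl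
      simp only at h1 h2 h3 h4 ⊢
      have h5 := mec_key c L hbal (k + l) k l b b' le_rfl h2 h4 h1 h3
      have hk : (0 : ℝ) < k := by exact_mod_cast h2
      have hl : (0 : ℝ) < l := by exact_mod_cast h4
      rw [div_lt_div_iff₀ hk hl]
      have h6 : ((l * ∑ i ∈ range k, c (b + i) : ℕ) : ℝ) <
        ((k * (∑ i ∈ range l, c (b' + i) + 1) + l : ℕ) : ℝ) := by exact_mod_cast h5
      push_cast at h6 ⊢
      nlinarith)
  have hv : ∀ i j : ℕ, i < j → j ≤ L →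
      ((∑ r ∈ range j, c r : ℕ) : ℝ) - ((∑ r ∈ range i, c r : ℕ) : ℝ) - 1 < ((j : ℝ) - i) * v ∧
      ((j : ℝ) - i) * v < ((∑ r ∈ range j, c r : ℕ) : ℝ) - ((∑ r ∈ range i, c r : ℕ) : ℝ) + 1 := by
    intro i j hij hj
    obtain ⟨k, rfl⟩ : ∃ k, j = i + k := ⟨j - i, by omega⟩
    have hk : (0 : ℝ) < k := by
      have : 0 < k := by omega
      exact_mod_cast this
    have hm := hX i k hj (by omega)
    have h1 := hv1 _ (mem_image.2 ⟨(i, k), hm, rfl⟩)
    have h2 := hv2 _ (mem_image.2 ⟨(i, k), hm, rfl⟩)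
    simp only at h1 h2
    rw [div_lt_iff₀ hk] at h1
    rw [lt_div_iff₀ hk] at h2
    have e : ∑ r ∈ range (i + k), c r = ∑ r ∈ range i, c r + ∑ r ∈ range k, c (i + r) :=
      sum_range_add _ _ _
    rw [e]
    push_cast at h1 h2 ⊢
    constructor
    · nlinarith
    · nlinarith
  obtain ⟨u, hu1, hu2⟩ := Order.exists_between_finsets
    ((range (L + 1)).image (fun j => ((∑ i ∈ range j, c i : ℕ) : ℝ) - (j : ℝ) * v))
    ((range (L + 1)).image (fun j => ((∑ i ∈ range j, c i : ℕ) : ℝ) + 1 - (j : ℝ) * v)) (by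
      intro x hx y hy
      obtain ⟨i, hi, rfl⟩ := mem_image.1 hx
      obtain ⟨j, hj, rfl⟩ := mem_image.1 hy
      have hi' : i ≤ L := Nat.lt_succ_iff.1 (mem_range.1 hi)
      have hj' : j ≤ L := Nat.lt_succ_iff.1 (mem_range.1 hj)
      rcases lt_trichotomy i j with h | h | h
      · have h1 := (hv i j h hj').2
        nlinarith
      · subst h
        linarith
      · have h1 := (hv j i h hi').1
        nlinarith)
  refine ⟨u, v, fun j hj => ?_⟩
  have hj' : j ∈ range (L + 1) := mem_range.2 (Nat.lt_succ_iff.2 hj)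
  have h1 := hu1 _ (mem_image.2 ⟨j, hj', rfl⟩)
  have h2 := hu2 _ (mem_image.2 ⟨j, hj', rfl⟩)
  constructor
  · linarith
  · linarith

end Pool.Agent.Lib.MP_f6c41f_nt.RT
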