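import Pool.Agent.Lib.MP_f6c41f_nt.RT.Dir

/-!
# MP_f6c41f_nt RT, row Den2: a nondegenerate orbit is rarely close to an integer

Proof.  `dir` gives `q > Q`, `q ≤ M`, `p` coprime to `q`, `|v - p/q| ≤ 1/(q (M+1))`.  Cut `[0, M)` into at
most `M/q + 1 ≤ 2 M/q` blocks of `q` consecutive `j` (the last one incomplete).  In the block
`j = j0 + i`, `0 ≤ i < q`: `u + j v = u0 + i p/q + i (v - p/q)` with `u0 = u + j0 v` and
`|i (v - p/q)| < 1/q`, so `nrm (u + j v) ≤ w` gives `nrm (u0 + i p / q) < w + 1/q`.  The residues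
`i p mod q` are distinct, and the number of residues `k` modulo `q` with `nrm (u0 + k/q) < w + 1/q` is at
most `2 (w + 1/q) q + 1 = 2 w q + 3` (the `k` with `|u0 + k/q - z| < w + 1/q` for some integer `z`, i.e.
`|k - q z + q u0| < w q + 1`: their residues are residues of the integers in an open interval of
length `2 w q + 2`).  Total: `(2 M/q) (2 w q + 3) = 4 w M + 6 M/q ≤ 4 w M + 8 M/Q`.
-/

set_option autoImplicit false

namespace Pool.Agent.Lib.MP_f6c41f_nt.RT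

open Finset Pool.Agent.Lib.MP_f6c41f_nt
open scoped Classical

private theorem den2_icc (A B : ℝ) (h : A ≤ B) : ((Icc ⌈A⌉ ⌊B⌋).card : ℝ) ≤ B - A + 1 := by
  rw [Int.card_Icc]
  have h1 : ((⌊B⌋ + 1 - ⌈A⌉ : ℤ) : ℝ) ≤ B - A + 1 := by
    push_cast
    have := Int.floor_le B
    have := Int.le_ceil A
    linarith
  rcases le_total 0 (⌊B⌋ + 1 - ⌈A⌉) with h2 | h2
  · have h3 : (((⌊B⌋ + 1 - ⌈A⌉).toNat : ℕ) : ℝ) = ((⌊B⌋ + 1 - ⌈A⌉ : ℤ) : ℝ) := by
      exact_mod_cast Int.toNat_of_nonneg h2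
    rw [h3]
    exact h1
  · rw [Int.toNat_of_nonpos h2]
    push_cast
    linarith

private theorem den2_block (q M : ℕ) (p : ℤ) (v u w : ℝ) (hq : 1 ≤ q) (hqM : q ≤ M)
    (hp : IsCoprime p (q : ℤ)) (hv : |v - p / q| ≤ 1 / (q * (M + 1))) (hw : 0 ≤ w) (a : ℕ)
    (S : Finset ℕ) (hS : ∀ j ∈ S, nrm (u + j * v) ≤ w) (ha : ∀ j ∈ S, j / q = a) :
    (S.card : ℝ) ≤ 2 * w * q + 3 := by
  have hqr : (0 : ℝ) < q := by exact_mod_cast hq
  have hMr : (0 : ℝ) < (M : ℝ) + 1 := by positivity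
  choose z hz1 hz2 using fun j : ℕ => nrm_rep (u + j * v)
  let k : ℕ → ℤ := fun j => ((j % q : ℕ) : ℤ) * p - q * z j
  let c : ℝ := -(q * (u + (q * a : ℕ) * v))
  have hk : ∀ j ∈ S, |(k j : ℝ) - c| ≤ w * q + 1 := by
    intro j hj
    have h1 := hS j hj
    rw [hz1 j] at h1
    have hjd : q * a + j % q = j := by
      rw [← ha j hj]
      exact Nat.div_add_mod j q
    have hjr : (j : ℝ) = ((q * a : ℕ) : ℝ) + ((j % q : ℕ) : ℝ) := by
      rw [← Nat.cast_add, hjd]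
    have hi : ((j % q : ℕ) : ℝ) ≤ q := by
      exact_mod_cast (Nat.mod_lt j hq).le
    have hi0 : (0 : ℝ) ≤ ((j % q : ℕ) : ℝ) := Nat.cast_nonneg _
    have e : (k j : ℝ) - c = q * (u + j * v - z j) - ((j % q : ℕ) : ℝ) * (q * (v - p / q)) := by
      have hkc : (k j : ℝ) = ((j % q : ℕ) : ℝ) * p - q * z j := by
        simp only [k]
        rw [Int.cast_sub, Int.cast_mul, Int.cast_mul, Int.cast_natCast, Int.cast_natCast]
      rw [hkc, show (q : ℝ) * (v - p / q) = q * v - p by field_simp, hjr]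
      simp only [c]
      ring
    rw [e]
    have h2 : |((j % q : ℕ) : ℝ) * (q * (v - p / q))| ≤ 1 := by
      rw [abs_mul, abs_mul, abs_of_nonneg hi0, abs_of_pos hqr]
      calc ((j % q : ℕ) : ℝ) * (q * |v - p / q|)
          ≤ q * (q * (1 / (q * (M + 1)))) := by gcongr
        _ = q / (M + 1) := by field_simp
        _ ≤ 1 := by
            rw [div_le_one hMr]
            have : (q : ℝ) ≤ M := by exact_mod_cast hqM
            linarith
    have h3 : |(q : ℝ) * (u + j * v - z j)| ≤ w * q := by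
      rw [abs_mul, abs_of_pos hqr, mul_comm]
      exact mul_le_mul_of_nonneg_right h1 hqr.le
    exact (abs_sub _ _).trans (add_le_add h3 h2)
  have hinj : Set.InjOn k (S : Set ℕ) := by
    intro j hj j' hj' h
    simp only [k] at h
    have h1 : (q : ℤ) ∣ (((j % q : ℕ) : ℤ) - ((j' % q : ℕ) : ℤ)) * p := by
      refine ⟨z j - z j', ?_⟩
      linear_combination h
    have h2 : (q : ℤ) ∣ ((j % q : ℕ) : ℤ) - ((j' % q : ℕ) : ℤ) :=
      hp.symm.dvd_of_dvd_mul_right h1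
    have h3 : j % q = j' % q := by
      have h4 := Nat.mod_lt j hq
      have h5 := Nat.mod_lt j' hq
      obtain ⟨t, ht⟩ := h2
      have h6 : t = 0 := by
        by_contra h0
        have h7 : (q : ℤ) ≤ |(q : ℤ) * t| := by
          rw [abs_mul, abs_of_nonneg (by positivity : (0 : ℤ) ≤ q)]
          have := Int.one_le_abs h0
          nlinarith
        rw [← ht] at h7
        have h8 : |((j % q : ℕ) : ℤ) - ((j' % q : ℕ) : ℤ)| < q := by
          rw [abs_lt]
          constructor <;> omega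
        omega
      rw [h6, mul_zero] at ht
      omega
    rw [← Nat.div_add_mod j q, ← Nat.div_add_mod j' q, ha j hj, ha j' hj', h3]
  have hmem : ∀ j ∈ S, k j ∈ Icc ⌈c - (w * q + 1)⌉ ⌊c + (w * q + 1)⌋ := by
    intro j hj
    obtain ⟨h1, h2⟩ := abs_le.1 (hk j hj)
    rw [mem_Icc]
    exact ⟨Int.ceil_le.2 (by linarith), Int.le_floor.2 (by linarith)⟩
  have h1 : (S.card : ℝ) ≤ ((Icc ⌈c - (w * q + 1)⌉ ⌊c + (w * q + 1)⌋).card : ℝ) := by
    exact_mod_cast card_le_card_of_injOn k hmem hinj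
  have h2 := den2_icc (c - (w * q + 1)) (c + (w * q + 1)) (by nlinarith)
  linarith

theorem den2 (Q M : ℕ) (θ v : ℝ) (hnd : ND Q θ v) (hQ : 1 ≤ Q) (hM1 : 1 ≤ M)
    (hM : 1 ≤ θ * (M + 1)) (w : ℝ) (hw : 0 ≤ w) (u : ℝ) :
    (((range M).filter (fun j : ℕ => nrm (u + j * v) ≤ w)).card : ℝ) ≤ 4 * w * M + 8 * M / Q := by
  obtain ⟨q, p, hQq, hq, hqM, hp, hv⟩ := dir Q M θ v hnd hM1 hM
  have hqr : (0 : ℝ) < q := by exact_mod_cast hq
  have hQr : (0 : ℝ) < Q := by exact_mod_cast hQ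
  have hMr : (0 : ℝ) < M := by exact_mod_cast hM1
  have hqMr : (q : ℝ) ≤ M := by exact_mod_cast hqM
  have hQqr : (Q : ℝ) ≤ q := by exact_mod_cast hQq.le
  obtain ⟨S, hS⟩ : ∃ S, S = (range M).filter (fun j : ℕ => nrm (u + j * v) ≤ w) := ⟨_, rfl⟩
  rw [← hS]
  have hmap : ∀ j ∈ S, j / q ∈ range (M / q + 1) := by
    intro j hj
    rw [hS, mem_filter, mem_range] at hj
    rw [mem_range]
    exact Nat.lt_succ_of_le (Nat.div_le_div_right hj.1.le)
  have hsum : (S.card : ℝ) = ∑ a ∈ range (M / q + 1), ((S.filter (fun j => j / q = a)).card : ℝ) := by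
    exact_mod_cast card_eq_sum_card_fiberwise hmap
  have hblk : ∀ a ∈ range (M / q + 1), ((S.filter (fun j => j / q = a)).card : ℝ) ≤
      2 * w * q + 3 := by
    intro a _
    refine den2_block q M p v u w hq hqM hp hv hw a _ (fun j hj => ?_) (fun j hj => ?_)
    · have h1 := (mem_filter.1 hj).1
      rw [hS] at h1
      exact (mem_filter.1 h1).2
    · exact (mem_filter.1 hj).2
  have h1 := sum_le_card_nsmul _ _ _ hblk
  rw [← hsum, card_range, nsmul_eq_mul] at h1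
  have h2 : (((M / q + 1 : ℕ)) : ℝ) ≤ 2 * (M / q) := by
    push_cast
    have h3 : ((M / q : ℕ) : ℝ) ≤ (M : ℝ) / q := Nat.cast_div_le
    have h4 : 1 ≤ (M : ℝ) / q := by
      rw [le_div_iff₀ hqr]
      linarith
    linarith
  have h3 : (0 : ℝ) ≤ 2 * w * q + 3 := by positivity
  calc (S.card : ℝ) ≤ ((M / q + 1 : ℕ) : ℝ) * (2 * w * q + 3) := h1
    _ ≤ 2 * (M / q) * (2 * w * q + 3) := mul_le_mul_of_nonneg_right h2 h3
    _ = 4 * w * M + 6 * (M / q) := by
        field_simp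
        ring
    _ ≤ 4 * w * M + 8 * M / Q := by
        have h4 : (M : ℝ) / q ≤ M / Q := div_le_div_of_nonneg_left hMr.le hQr hQqr
        have h5 : (0 : ℝ) ≤ M / Q := by positivity
        have h6 : 8 * (M : ℝ) / Q = 8 * (M / Q) := by ring
        rw [h6]
        linarith

end Pool.Agent.Lib.MP_f6c41f_nt.RT
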