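import Pool.Agent.Lib.MP_f6c41f_nt.RT.Ovl
import Pool.Agent.Lib.MP_f6c41f_nt.RT.Den2

/-!
# MP_f6c41f_nt RT, row Bdy: the phase is rarely close to a jump

Proof.  Let `bt(n)`: `n ∈ G` and `nrm (2 t(n)) ≤ 2 w`.  For `n ∈ G` the number of `j < M` with `bt(n + j)` is at most
`21 w M`: `ovl` with `G0 = M` (`2 M ≤ L`, as `4 M c ≤ ρ ≤ 1/100`, `c L = 5`) gives a sign `e` with
`nrm (t(n+j) - flp e (t(n) + j s(n))) ≤ ρ + M c ≤ 5ρ/4`, so `nrm (2 (t(n) + j s(n))) ≤ 2 w + 5ρ/2 ≤ 9 w/2`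
(`nrm_sgn_two`, `ρ ≤ w`); `2 s(n)` satisfies `ND (Q/2) θ` (`q (2 s) = (2 q) s`), so `den2` with `v = 2 s(n)`, `u = 2 t(n)`
bounds the number by `4 (9w/2) M + 8 M/(Q/2)`, and `Q/2 ≥ Q/2 - 1/2`, `6 ≤ ρ Q`, `100 ρ ≤ 1`: `8/(Q/2) ≤ 3 ρ ≤ 3 w`.
Double counting: `M #{n ∈ [1,N] : bt(n)} ≤ Σ_{j<M} (#{n ∈ [1,N] : bt(n + j)} + j) ≤
Σ_{n ≤ N} #{j < M : bt(n + j)} + M^2 ≤ 21 w M N + M ε N + M^2` (for `n ∉ G` the inner number is at most `M`; their
number is at most `ε N` by `hbad`).  Divide by `M`.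
-/

set_option autoImplicit false

namespace Pool.Agent.Lib.MP_f6c41f_nt.RT

open Finset Pool.Agent.Lib.MP_f6c41f_nt
open scoped Classical

theorem bdy {f : ℕ → ℝ} {L Q M : ℕ} {θ ρ c : ℝ} (P : Par L Q M θ ρ c) {G : Set ℕ} {s t : ℕ → ℝ}
    (D : Dat f L Q θ G s t) (w ε : ℝ) (hw : ρ ≤ w) (N : ℕ)
    (hbad : (((Icc 1 N).filter (fun n => n ∉ G)).card : ℝ) ≤ ε * N) :
    (((Icc 1 N).filter (fun n => n ∈ G ∧ nrm (2 * t n) ≤ 2 * w)).card : ℝ)
      ≤ (25 * w + ε) * N + M := by
  have hc0 := par_c_pos P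
  have hρ0 := par_rho_pos P
  have hw0 : 0 < w := lt_of_lt_of_le hρ0 hw
  have hM1 : (1 : ℝ) ≤ M := by exact_mod_cast P.hM1
  have hM0 : (0 : ℝ) < M := by linarith
  have hcL := P.hc
  have hMc := P.hMc
  have hρ1 := P.hρ
  have hLM : 2 * M ≤ L := by
    have h1 : c * (2 * M) ≤ c * (L : ℝ) := by
      rw [hcL]
      nlinarith
    have h2 : (2 * M : ℝ) ≤ L := le_of_mul_le_mul_left h1 hc0
    exact_mod_cast h2
  -- the denominators
  have hQ := P.hQ
  have hQ600 : (600 : ℝ) ≤ Q := by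
    by_contra hcon
    push Not at hcon
    have h1 : (0 : ℝ) ≤ Q := Nat.cast_nonneg Q
    nlinarith
  have hQ600' : 600 ≤ Q := by exact_mod_cast hQ600
  have hQ2 : 1 ≤ Q / 2 := by omega
  have hQ2' : (Q : ℝ) - 1 ≤ 2 * ((Q / 2 : ℕ) : ℝ) := by
    have h1 : Q ≤ 2 * (Q / 2) + 1 := by omega
    have h2 : (Q : ℝ) ≤ 2 * ((Q / 2 : ℕ) : ℝ) + 1 := by exact_mod_cast h1
    linarith
  have hQ20 : (0 : ℝ) < ((Q / 2 : ℕ) : ℝ) := by exact_mod_cast (by omega : 0 < Q / 2)
  have h8 : 8 * (M : ℝ) / ((Q / 2 : ℕ) : ℝ) ≤ 3 * w * M := by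
    rw [div_le_iff₀ hQ20]
    have h1 : 8 ≤ 3 * ρ * ((Q / 2 : ℕ) : ℝ) := by nlinarith
    have h2 : 3 * ρ * ((Q / 2 : ℕ) : ℝ) ≤ 3 * w * ((Q / 2 : ℕ) : ℝ) :=
      mul_le_mul_of_nonneg_right (by linarith) hQ20.le
    have h3 : 8 * (M : ℝ) ≤ 3 * w * ((Q / 2 : ℕ) : ℝ) * M :=
      mul_le_mul_of_nonneg_right (h1.trans h2) hM0.le
    linarith
  set bt : ℕ → Prop := fun n => n ∈ G ∧ nrm (2 * t n) ≤ 2 * w with hbt
  -- the windows
  have h1 : ∀ n ∈ G, (((range M).filter (fun j => bt (n + j))).card : ℝ) ≤ 21 * w * M := by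
    intro n hn
    have hnd : ND (Q / 2) θ (2 * s n) := by
      intro q hq1 hq2
      have h := D.nd n hn (2 * q) (by omega) (by omega)
      have e : ((2 * q : ℕ) : ℝ) * s n = (q : ℝ) * (2 * s n) := by push_cast; ring
      rw [e] at h
      exact h
    have h := den2 (Q / 2) M θ (2 * s n) hnd hQ2 P.hM1 P.hM (9 / 2 * w) (by positivity) (2 * t n)
    have h' : (((range M).filter (fun j => bt (n + j))).card : ℝ) ≤
        4 * (9 / 2 * w) * M + 8 * M / ((Q / 2 : ℕ) : ℝ) := by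
      refine le_trans (Nat.cast_le.2 (card_le_card ?_)) h
      intro j hj
      obtain ⟨hj1, hjG, hj2⟩ := mem_filter.1 hj
      have hjM : j < M := mem_range.1 hj1
      refine mem_filter.2 ⟨hj1, ?_⟩
      obtain ⟨e, he, _, he2⟩ := ovl P n (n + j) (s n) (t n) (s (n + j)) (t (n + j))
        (D.cod n hn) (D.cod _ hjG) (D.nd n hn) (D.nd _ hjG) M hLM
        (by push_cast; omega) (by push_cast; omega)
      have e1 : (((n + j : ℕ) : ℝ) - (n : ℝ)) = j := by push_cast; ring
      rw [e1] at he2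
      set y := t n + (j : ℝ) * s n with hy
      have e2 : 2 * t n + (j : ℝ) * (2 * s n) = 2 * y := by rw [hy]; ring
      rw [e2, ← nrm_sgn_two e he y]
      have h3 : nrm (2 * flp e y) ≤ nrm (2 * t (n + j)) + nrm (2 * (t (n + j) - flp e y)) := by
        have e3 : 2 * flp e y = 2 * t (n + j) - 2 * (t (n + j) - flp e y) := by ring
        rw [e3]
        exact nrm_sub _ _
      have h4 : nrm (2 * (t (n + j) - flp e y)) ≤ 2 * nrm (t (n + j) - flp e y) := by
        have := nrm_nat_mul_le 2 (t (n + j) - flp e y)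
        push_cast at this
        exact this
      have h5 : nrm (t (n + j) - flp e y) ≤ ρ + ρ / 4 := by
        refine he2.trans ?_
        linarith
      linarith
    linarith
  have h2 : ∀ j : ℕ, ((Icc 1 N).filter bt).card ≤
      ((Icc 1 N).filter (fun n => bt (n + j))).card + j := by
    intro j
    have hsub : (Icc 1 N).filter bt ⊆
        ((Icc 1 N).filter (fun n => bt (n + j))).image (fun n => n + j) ∪ Icc 1 j := by
      intro n hn
      obtain ⟨hn1, hn2⟩ := mem_filter.1 hn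
      rw [mem_Icc] at hn1
      rw [mem_union]
      by_cases hnj : n ≤ j
      · exact Or.inr (mem_Icc.2 ⟨hn1.1, hnj⟩)
      · left
        have e : n - j + j = n := by omega
        refine mem_image.2 ⟨n - j, mem_filter.2 ⟨mem_Icc.2 ⟨by omega, by omega⟩, ?_⟩, e⟩
        rw [e]
        exact hn2
    calc ((Icc 1 N).filter bt).card ≤ _ := card_le_card hsub
      _ ≤ (((Icc 1 N).filter (fun n => bt (n + j))).image (fun n => n + j)).card +
          (Icc 1 j).card := card_union_le _ _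
      _ ≤ ((Icc 1 N).filter (fun n => bt (n + j))).card + j := by
          have h3 := card_image_le (s := (Icc 1 N).filter (fun n => bt (n + j)))
            (f := fun n => n + j)
          rw [Nat.card_Icc]
          omega
  have h3 : M * ((Icc 1 N).filter bt).card ≤
      (∑ j ∈ range M, ((Icc 1 N).filter (fun n => bt (n + j))).card) + M * M := by
    calc M * ((Icc 1 N).filter bt).card = ∑ j ∈ range M, ((Icc 1 N).filter bt).card := by
          rw [sum_const, card_range, smul_eq_mul]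
      _ ≤ ∑ j ∈ range M, (((Icc 1 N).filter (fun n => bt (n + j))).card + M) := by
          refine sum_le_sum fun j hj => ?_
          have := h2 j
          have hj' := mem_range.1 hj
          omega
      _ = _ := by rw [sum_add_distrib, sum_const, card_range, smul_eq_mul]
  have h4 : (∑ j ∈ range M, ((Icc 1 N).filter (fun n => bt (n + j))).card) =
      ∑ n ∈ Icc 1 N, ((range M).filter (fun j => bt (n + j))).card := by
    simp only [card_filter]
    rw [sum_comm]
  have h5 : ((∑ n ∈ Icc 1 N, ((range M).filter (fun j => bt (n + j))).card : ℕ) : ℝ) ≤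
      21 * w * M * N + M * (ε * N) := by
    push_cast
    have h6 : ∀ n ∈ Icc 1 N, (((range M).filter (fun j => bt (n + j))).card : ℝ) ≤
        21 * w * M + (if n ∉ G then (M : ℝ) else 0) := by
      intro n _
      by_cases hn : n ∈ G
      · rw [if_neg (not_not.2 hn), add_zero]
        exact h1 n hn
      · rw [if_pos hn]
        have h7 : (((range M).filter (fun j => bt (n + j))).card : ℝ) ≤ M := by
          have h8 := card_filter_le (range M) (fun j => bt (n + j))
          rw [card_range] at h8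
          exact_mod_cast h8
        have h9 : 0 ≤ 21 * w * M := by positivity
        linarith
    refine (sum_le_sum h6).trans ?_
    rw [sum_add_distrib, sum_const, Nat.card_Icc, nsmul_eq_mul, ← sum_filter, sum_const,
      nsmul_eq_mul, Nat.add_sub_cancel]
    have h7 : (((Icc 1 N).filter (fun n => n ∉ G)).card : ℝ) * M ≤ ε * N * M :=
      mul_le_mul_of_nonneg_right hbad hM0.le
    linarith
  rw [h4] at h3
  have h6 : (M : ℝ) * (((Icc 1 N).filter bt).card : ℝ) ≤
      ((∑ n ∈ Icc 1 N, ((range M).filter (fun j => bt (n + j))).card : ℕ) : ℝ) + M * M := by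
    exact_mod_cast h3
  have hN0 : (0 : ℝ) ≤ N := Nat.cast_nonneg N
  have h7 : (M : ℝ) * (((Icc 1 N).filter bt).card : ℝ) ≤ M * ((25 * w + ε) * N + M) := by
    have h9 : 0 ≤ 4 * w * M * N := by positivity
    calc (M : ℝ) * (((Icc 1 N).filter bt).card : ℝ) ≤ 21 * w * M * N + M * (ε * N) + M * M := by
          linarith
      _ ≤ M * ((25 * w + ε) * N + M) := by nlinarith
  exact le_of_mul_le_mul_left h7 hM0

end Pool.Agent.Lib.MP_f6c41f_nt.RT
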