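import Pool.Agent.Lib.MP_f6c41f_nt.RT.Defs

/-!
# MP_f6c41f_nt RT, row CntG: most numbers have only good nodes

Proof.  If `¬ SG G Y x` there are `i, j` with `y = 2^i 3^j ≤ Y` and `x / y ∉ G`; `i, j ≤ Nat.log 2 Y`, so at most
`(log2 Y + 1)^2` values of `y`.  For fixed `y`: the `x ∈ Icc 1 Z` with `x / y ∉ G`: at most `y - 1 ≤ Y` of them have
`x / y = 0`; the others have `z = x / y ∈ Icc 1 (Z / y)`, `z ∉ G`, each `z` comes from at most `y` values of `x`, and
`hG` with `N = Z / y` (`N0 ≤ Z / Y ≤ Z / y ≤ Z`) bounds the number of `z` by `ε (Z / y)`: at most `ε Z` of them.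
-/

set_option autoImplicit false

namespace Pool.Agent.Lib.MP_f6c41f_nt.RT

open Finset Pool.Agent.Lib.MP_f6c41f_nt
open scoped Classical

theorem cntG_one (G : Set ℕ) (N0 Z Y y : ℕ) (ε : ℝ) (hε : 0 ≤ ε) (hy : 1 ≤ y) (hyY : y ≤ Y)
    (hZ : N0 * Y ≤ Z)
    (hG : ∀ N : ℕ, N0 ≤ N → N ≤ Z → (((Icc 1 N).filter (fun n => n ∉ G)).card : ℝ) ≤ ε * N) :
    (((Icc 1 Z).filter (fun x => x / y ∉ G)).card : ℝ) ≤ ε * Z + Y := by
  have h1 : ((Icc 1 Z).filter (fun x => x / y ∉ G)).card ≤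
      y + y * ((Icc 1 (Z / y)).filter (fun z => z ∉ G)).card := by
    have h2 : (Icc 1 Z).filter (fun x => x / y ∉ G) ⊆ range y ∪
        ((Icc 1 (Z / y)).filter (fun z => z ∉ G)).biUnion (fun z => Ico (z * y) (z * y + y)) := by
      intro x hx
      rw [mem_filter, mem_Icc] at hx
      rw [mem_union, mem_range, mem_biUnion]
      by_cases hxy : x < y
      · exact Or.inl hxy
      · right
        refine ⟨x / y, ?_, ?_⟩
        · rw [mem_filter, mem_Icc]
          exact ⟨⟨Nat.div_pos (by omega) hy, Nat.div_le_div_right hx.1.2⟩, hx.2⟩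
        · rw [mem_Ico]
          have h3 := Nat.div_add_mod x y
          have h4 := Nat.mod_lt x hy
          rw [mul_comm y] at h3
          omega
    refine (card_le_card h2).trans ((card_union_le _ _).trans ?_)
    rw [card_range]
    refine Nat.add_le_add_left ?_ y
    refine card_biUnion_le.trans ?_
    have h3 : ∀ z ∈ (Icc 1 (Z / y)).filter (fun z => z ∉ G), (Ico (z * y) (z * y + y)).card = y := by
      intro z _
      rw [Nat.card_Ico, Nat.add_sub_cancel_left]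
    rw [sum_congr rfl h3, sum_const, smul_eq_mul, mul_comm]
  have h2 : N0 ≤ Z / y := by
    rw [Nat.le_div_iff_mul_le hy]
    exact (Nat.mul_le_mul_left N0 hyY).trans hZ
  have h3 := hG (Z / y) h2 (Nat.div_le_self Z y)
  have h1' : (((Icc 1 Z).filter (fun x => x / y ∉ G)).card : ℝ) ≤
      y + y * (((Icc 1 (Z / y)).filter (fun z => z ∉ G)).card : ℝ) := by exact_mod_cast h1
  have h4 : (y : ℝ) * (((Icc 1 (Z / y)).filter (fun z => z ∉ G)).card : ℝ) ≤
      y * (ε * ((Z / y : ℕ) : ℝ)) := mul_le_mul_of_nonneg_left h3 (Nat.cast_nonneg _)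
  have h5 : (y : ℝ) * ((Z / y : ℕ) : ℝ) ≤ Z := by
    have := Nat.mul_div_le Z y
    exact_mod_cast this
  have h6 : (y : ℝ) * (ε * ((Z / y : ℕ) : ℝ)) ≤ ε * Z := by
    calc (y : ℝ) * (ε * ((Z / y : ℕ) : ℝ)) = ε * (y * ((Z / y : ℕ) : ℝ)) := by ring
      _ ≤ ε * Z := mul_le_mul_of_nonneg_left h5 hε
  have h7 : (y : ℝ) ≤ Y := by exact_mod_cast hyY
  linarith

theorem cntG (G : Set ℕ) (N0 Z Y : ℕ) (ε : ℝ) (hε : 0 ≤ ε) (hY : 1 ≤ Y) (hZ : N0 * Y ≤ Z)
    (hG : ∀ N : ℕ, N0 ≤ N → N ≤ Z → (((Icc 1 N).filter (fun n => n ∉ G)).card : ℝ) ≤ ε * N) :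
    (((Icc 1 Z).filter (fun x => ¬ SG G Y x)).card : ℝ) ≤
      ((Nat.log 2 Y : ℝ) + 1) ^ 2 * (ε * Z + Y) := by
  set l := Nat.log 2 Y with hl
  have h1 : (Icc 1 Z).filter (fun x => ¬ SG G Y x) ⊆
      ((range (l + 1) ×ˢ range (l + 1)).filter (fun p => 2 ^ p.1 * 3 ^ p.2 ≤ Y)).biUnion
        (fun p => (Icc 1 Z).filter (fun x => x / (2 ^ p.1 * 3 ^ p.2) ∉ G)) := by
    intro x hx
    rw [mem_filter] at hx
    obtain ⟨hx1, hx2⟩ := hx
    unfold SG at hx2
    push Not at hx2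
    obtain ⟨i, j, hij, hn⟩ := hx2
    rw [mem_biUnion]
    have p2 : 0 < 2 ^ i := by positivity
    have p3 : 0 < 3 ^ j := by positivity
    have hi : i ≤ l := by
      rw [hl]
      apply Nat.le_log_of_pow_le (by norm_num)
      exact (Nat.le_mul_of_pos_right _ p3).trans hij
    have hj : j ≤ l := by
      rw [hl]
      apply Nat.le_log_of_pow_le (by norm_num)
      exact ((Nat.pow_le_pow_left (by norm_num : 2 ≤ 3) j).trans
        (Nat.le_mul_of_pos_left _ p2)).trans hij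
    refine ⟨(i, j), ?_, ?_⟩
    · rw [mem_filter, mem_product, mem_range, mem_range]
      exact ⟨⟨by simp only; omega, by simp only; omega⟩, hij⟩
    · rw [mem_filter]
      exact ⟨hx1, hn⟩
  have h2 : (((Icc 1 Z).filter (fun x => ¬ SG G Y x)).card : ℝ) ≤
      ∑ p ∈ (range (l + 1) ×ˢ range (l + 1)).filter (fun p => 2 ^ p.1 * 3 ^ p.2 ≤ Y),
        (((Icc 1 Z).filter (fun x => x / (2 ^ p.1 * 3 ^ p.2) ∉ G)).card : ℝ) := by
    have h3 := (card_le_card h1).trans card_biUnion_le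
    exact_mod_cast h3
  have h0 : (0 : ℝ) ≤ ε * Z + Y := by positivity
  have h3 : ∀ p ∈ (range (l + 1) ×ˢ range (l + 1)).filter (fun p => 2 ^ p.1 * 3 ^ p.2 ≤ Y),
      (((Icc 1 Z).filter (fun x => x / (2 ^ p.1 * 3 ^ p.2) ∉ G)).card : ℝ) ≤ ε * Z + Y := by
    intro p hp
    rw [mem_filter] at hp
    exact cntG_one G N0 Z Y _ ε hε (Nat.mul_pos (by positivity) (by positivity)) hp.2 hZ hG
  refine h2.trans ((sum_le_sum h3).trans ?_)
  rw [sum_const, nsmul_eq_mul]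
  refine mul_le_mul_of_nonneg_right ?_ h0
  have h4 : ((range (l + 1) ×ˢ range (l + 1)).filter (fun p => 2 ^ p.1 * 3 ^ p.2 ≤ Y)).card ≤
      (l + 1) ^ 2 := by
    refine (card_filter_le _ _).trans ?_
    rw [card_product, card_range, sq]
  exact_mod_cast h4

end Pool.Agent.Lib.MP_f6c41f_nt.RT
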