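import Pool.Agent.Lib.MP_f6c41f_nt.RT.Defs

/-!
# MP_f6c41f_nt RT, row CntM: pairs `(n, d)` whose quotient `n/(d+i) + 1` is bad

Proof.  For fixed `d`, `d' = d + i ≤ 3D`: `m = n/d' + 1 ∈ Icc 1 (2X/D + 1)` and each `m` comes from at most `d' ≤ 3D`
values of `n`.  There are `D` values of `d`.
-/

set_option autoImplicit false

namespace Pool.Agent.Lib.MP_f6c41f_nt.RT

open Finset Pool.Agent.Lib.MP_f6c41f_nt
open scoped Classical

theorem cntM (X D i : ℕ) (hi : i < 3) (hD : 2 ≤ D) (E : ℕ → Prop) :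
    ((((Ico X (2 * X)) ×ˢ (Ico D (2 * D))).filter
      (fun p => E (p.1 / (p.2 + i) + 1))).card : ℝ) ≤
      3 * D * D * (((Icc 1 (2 * X / D + 1)).filter E).card : ℝ) := by
  have h : (((Ico X (2 * X)) ×ˢ (Ico D (2 * D))).filter
      (fun p => E (p.1 / (p.2 + i) + 1))).card ≤
      ((Ico D (2 * D)) ×ˢ (((Icc 1 (2 * X / D + 1)).filter E) ×ˢ (range (3 * D)))).card := by
    refine card_le_card_of_injOn
      (fun p => (p.2, (p.1 / (p.2 + i) + 1, p.1 % (p.2 + i)))) ?_ ?_
    · rintro ⟨n, d⟩ hp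
      have hp' := mem_filter.1 hp
      have hp1 := mem_product.1 hp'.1
      have hn := mem_Ico.1 hp1.1
      have hd := mem_Ico.1 hp1.2
      simp only at hn hd
      have hpos : 0 < d + i := by omega
      refine mem_product.2 ⟨hp1.2, mem_product.2 ⟨mem_filter.2 ⟨mem_Icc.2 ⟨?_, ?_⟩, hp'.2⟩, ?_⟩⟩
      · exact Nat.le_add_left _ _
      · show n / (d + i) + 1 ≤ 2 * X / D + 1
        have h1 : n / (d + i) ≤ n / D := Nat.div_le_div_left (by omega) (by omega)
        have h2 : n / D ≤ 2 * X / D := Nat.div_le_div_right hn.2.le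
        omega
      · refine mem_range.2 ?_
        have := Nat.mod_lt n hpos
        show n % (d + i) < 3 * D
        omega
    · rintro ⟨n, d⟩ _ ⟨n', d'⟩ _ h
      simp only [Prod.mk.injEq] at h
      obtain ⟨rfl, h2, h3⟩ := h
      have h4 := Nat.div_add_mod n (d + i)
      have h5 := Nat.div_add_mod n' (d + i)
      have h6 : n / (d + i) = n' / (d + i) := by omega
      rw [h6, h3, h5] at h4
      rw [h4]
  rw [card_product, card_product, Nat.card_Ico, card_range] at h
  have h1 : 2 * D - D = D := by omega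
  rw [h1] at h
  have h2 : ((((Ico X (2 * X)) ×ˢ (Ico D (2 * D))).filter
      (fun p => E (p.1 / (p.2 + i) + 1))).card : ℝ) ≤
      ((D * (((Icc 1 (2 * X / D + 1)).filter E).card * (3 * D)) : ℕ) : ℝ) := by
    exact_mod_cast h
  refine h2.trans (le_of_eq ?_)
  push_cast
  ring

end Pool.Agent.Lib.MP_f6c41f_nt.RT
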