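import Pool.Agent.Lib.MP_f6c41f_nt.RT.Div

/-!
# MP_f6c41f_nt RT, row DivE: multiples of `d` in a thin set, on average over `d`

Proof.  Exchange the sums: the left side is `Σ_{x ∈ E} tau(x)`; Cauchy-Schwarz
(`Finset.sum_mul_sq_le_sq_mul_sq` or `inner_mul_le_norm_mul_norm`): `≤ sqrt(|E|) sqrt(Σ_{x ∈ E} tau(x)^2)`, `E ⊆ Icc 1 Z`,
`div2`.
-/

set_option autoImplicit false

namespace Pool.Agent.Lib.MP_f6c41f_nt.RT

open Finset Pool.Agent.Lib.MP_f6c41f_nt
open scoped Classical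

theorem divE (D Z : ℕ) (hD : 1 ≤ D) (E : Finset ℕ) (hE : E ⊆ Icc 1 Z) :
    ∑ d ∈ Ico D (3 * D), ((E.filter (fun x => d ∣ x)).card : ℝ) ≤
      Real.sqrt (E.card * (9 * Z * (1 + Real.log (3 * D)))) := by
  have h1 : ∑ d ∈ Ico D (3 * D), ((E.filter (fun x => d ∣ x)).card : ℝ) =
      ∑ x ∈ E, ((tau D x : ℕ) : ℝ) := by
    have h2 : ∀ d ∈ Ico D (3 * D), ((E.filter (fun x => d ∣ x)).card : ℝ) =
        ∑ x ∈ E, if d ∣ x then (1 : ℝ) else 0 := by
      intro d _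
      rw [card_filter]
      push_cast
      rfl
    rw [sum_congr rfl h2, sum_comm]
    refine sum_congr rfl fun x _ => ?_
    unfold tau
    rw [card_filter]
    push_cast
    rfl
  rw [h1]
  apply Real.le_sqrt_of_sq_le
  have h3 := sum_mul_sq_le_sq_mul_sq E (fun _ => (1 : ℝ)) (fun x => ((tau D x : ℕ) : ℝ))
  simp only [one_mul, one_pow, sum_const, nsmul_eq_mul, mul_one] at h3
  refine h3.trans (mul_le_mul_of_nonneg_left ?_ (by positivity))
  refine le_trans ?_ (div2 D Z hD)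
  exact sum_le_sum_of_subset_of_nonneg hE fun _ _ _ => by positivity

end Pool.Agent.Lib.MP_f6c41f_nt.RT
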