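import Pool.Agent.Lib.MP_f6c41f_nt.RT.CntA
import Pool.Agent.Lib.MP_f6c41f_nt.RT.CntM
import Pool.Agent.Lib.MP_f6c41f_nt.RT.DivE

/-!
# MP_f6c41f_nt RT, row Sel: choice of `(n, d)`

Proof.  There are `X D` pairs `(n, d) ∈ [X, 2X) × [D, 2D)`.  Pairs with `E1 n`: at most
`D #{n ∈ Icc 1 (2X) : E1 n} ≤ X D/8` (`h1`; `X ≥ 1`).  Pairs with `E2 (...)` for some `i < 3`, `h ≤ K`: at most
`3 (K+1) (3D) sqrt(...) ≤ X D/4` (`cntA` for each `(i, h)`, `divE` with `Z = 4X`, `h2`).  Pairs with `E3 (...)` for some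
`i < 3`: at most `3 (3 D D) #{...} ≤ X D/4` (`cntM`, `h3`).  The sum is `< X D`, so a pair remains.
-/

set_option autoImplicit false

namespace Pool.Agent.Lib.MP_f6c41f_nt.RT

open Finset Pool.Agent.Lib.MP_f6c41f_nt
open scoped Classical

private theorem sel_union {α β : Type} [DecidableEq α] (S : Finset α) (I : Finset β) (P : β → α → Prop) (c : ℝ)
    (h : ∀ i ∈ I, ((S.filter (P i)).card : ℝ) ≤ c) :
    ((S.filter (fun p => ∃ i ∈ I, P i p)).card : ℝ) ≤ I.card * c := by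
  have h1 : S.filter (fun p => ∃ i ∈ I, P i p) = I.biUnion (fun i => S.filter (P i)) := by
    ext p
    simp only [mem_filter, mem_biUnion]
    constructor
    · rintro ⟨h1, i, h2, h3⟩
      exact ⟨i, h2, h1, h3⟩
    · rintro ⟨i, h2, h1, h3⟩
      exact ⟨h1, i, h2, h3⟩
  rw [h1]
  calc ((I.biUnion (fun i => S.filter (P i))).card : ℝ) ≤ ((∑ i ∈ I, (S.filter (P i)).card : ℕ) : ℝ) := by
        exact_mod_cast card_biUnion_le
    _ = ∑ i ∈ I, ((S.filter (P i)).card : ℝ) := by push_cast; rfl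
    _ ≤ ∑ _i ∈ I, c := sum_le_sum h
    _ = I.card * c := by rw [sum_const, nsmul_eq_mul]

theorem sel (X D K : ℕ) (hX1 : 1 ≤ X) (hD : 2 ≤ D) (hX : (K + 1) * (2 * D + 2) ≤ 2 * X)
    (E1 E2 E3 : ℕ → Prop)
    (h1 : (((Icc 1 (2 * X)).filter E1).card : ℝ) ≤ X / 8)
    (h2 : 3 * ((K : ℝ) + 1) * (3 * D * Real.sqrt ((((Icc 1 (4 * X)).filter E2).card : ℝ) *
      (9 * (4 * X) * (1 + Real.log (3 * D))))) ≤ X * D / 4)
    (h3 : 3 * (3 * D * D * (((Icc 1 (2 * X / D + 1)).filter E3).card : ℝ)) ≤ X * D / 4) :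
    ∃ n ∈ Ico X (2 * X), ∃ d ∈ Ico D (2 * D), ¬ E1 n ∧
      (∀ i < 3, ∀ h ≤ K, ¬ E2 ((d + i) * (n / (d + i) + 1 + h))) ∧
      ∀ i < 3, ¬ E3 (n / (d + i) + 1) := by
  obtain ⟨S, hS⟩ : ∃ S : Finset (ℕ × ℕ), S = (Ico X (2 * X)) ×ˢ (Ico D (2 * D)) := ⟨_, rfl⟩
  have hcard : (S.card : ℝ) = X * D := by
    rw [hS, card_product, Nat.card_Ico, Nat.card_Ico, Nat.cast_mul]
    rw [show 2 * X - X = X by omega, show 2 * D - D = D by omega]
  have hX0 : (1 : ℝ) ≤ X := by exact_mod_cast hX1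
  have hD0 : (2 : ℝ) ≤ D := by exact_mod_cast hD
  have hXD : (0 : ℝ) < X * D := by positivity
  -- the first kind
  have b1 : ((S.filter (fun p => E1 p.1)).card : ℝ) ≤ X * D / 8 := by
    have c1 : (S.filter (fun p => E1 p.1)).card ≤ ((Icc 1 (2 * X)).filter E1).card * D := by
      have c2 : S.filter (fun p => E1 p.1) ⊆ ((Icc 1 (2 * X)).filter E1) ×ˢ (Ico D (2 * D)) := by
        intro p hp
        rw [mem_filter, hS, mem_product, mem_Ico] at hp
        rw [mem_product, mem_filter, mem_Icc]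
        exact ⟨⟨⟨by omega, by omega⟩, hp.2⟩, hp.1.2⟩
      have c3 := card_le_card c2
      rw [card_product, Nat.card_Ico, show 2 * D - D = D by omega] at c3
      exact c3
    have c4 : ((S.filter (fun p => E1 p.1)).card : ℝ) ≤ (((Icc 1 (2 * X)).filter E1).card : ℝ) * D := by
      exact_mod_cast c1
    nlinarith
  -- the second kind
  have b2 : ((S.filter (fun p => ∃ j ∈ (range 3) ×ˢ (range (K + 1)),
      E2 ((p.2 + j.1) * (p.1 / (p.2 + j.1) + 1 + j.2)))).card : ℝ) ≤ X * D / 4 := by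
    have c1 := sel_union S ((range 3) ×ˢ (range (K + 1)))
      (fun j p => E2 ((p.2 + j.1) * (p.1 / (p.2 + j.1) + 1 + j.2)))
      (3 * D * Real.sqrt ((((Icc 1 (4 * X)).filter E2).card : ℝ) * (9 * (4 * X) * (1 + Real.log (3 * D))))) (by
        intro j hj
        rw [mem_product, mem_range, mem_range] at hj
        have c2 := cntA X D K j.1 j.2 hj.1 (by omega) hD hX E2
        have c3 := divE D (4 * X) (by omega) ((Icc 1 (4 * X)).filter E2) (filter_subset _ _)
        rw [hS]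
        refine c2.trans (mul_le_mul_of_nonneg_left ?_ (by positivity))
        push_cast at c3
        exact c3)
    rw [card_product, card_range, card_range] at c1
    refine c1.trans (le_trans (le_of_eq ?_) h2)
    push_cast
    ring
  -- the third kind
  have b3 : ((S.filter (fun p => ∃ i ∈ range 3, E3 (p.1 / (p.2 + i) + 1))).card : ℝ) ≤ X * D / 4 := by
    have c1 := sel_union S (range 3) (fun i p => E3 (p.1 / (p.2 + i) + 1))
      (3 * D * D * (((Icc 1 (2 * X / D + 1)).filter E3).card : ℝ)) (by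
        intro i hi
        rw [mem_range] at hi
        rw [hS]
        exact cntM X D i hi hD E3)
    rw [card_range] at c1
    refine c1.trans (le_trans (le_of_eq ?_) h3)
    push_cast
    ring
  by_contra hcon
  have hsub : S ⊆ (S.filter (fun p => E1 p.1)) ∪ ((S.filter (fun p => ∃ j ∈ (range 3) ×ˢ (range (K + 1)),
      E2 ((p.2 + j.1) * (p.1 / (p.2 + j.1) + 1 + j.2)))) ∪
        (S.filter (fun p => ∃ i ∈ range 3, E3 (p.1 / (p.2 + i) + 1)))) := by
    intro p hp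
    rw [mem_union, mem_union, mem_filter, mem_filter, mem_filter]
    by_contra hno
    rw [not_or, not_or] at hno
    obtain ⟨n1, n2, n3⟩ := hno
    apply hcon
    have hp' := hp
    rw [hS, mem_product] at hp'
    refine ⟨p.1, hp'.1, p.2, hp'.2, fun h => n1 ⟨hp, h⟩, ?_, ?_⟩
    · intro i hi h hh hE
      exact n2 ⟨hp, (i, h), mem_product.2 ⟨mem_range.2 hi, mem_range.2 (by omega)⟩, hE⟩
    · intro i hi hE
      exact n3 ⟨hp, i, mem_range.2 hi, hE⟩
  have hle := card_le_card hsub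
  have hle2 : (S.card : ℝ) ≤ ((S.filter (fun p => E1 p.1)).card : ℝ) +
      (((S.filter (fun p => ∃ j ∈ (range 3) ×ˢ (range (K + 1)),
      E2 ((p.2 + j.1) * (p.1 / (p.2 + j.1) + 1 + j.2)))).card : ℝ) +
      ((S.filter (fun p => ∃ i ∈ range 3, E3 (p.1 / (p.2 + i) + 1))).card : ℝ)) := by
    have g1 := card_union_le (S.filter (fun p => E1 p.1))
      ((S.filter (fun p => ∃ j ∈ (range 3) ×ˢ (range (K + 1)),
      E2 ((p.2 + j.1) * (p.1 / (p.2 + j.1) + 1 + j.2)))) ∪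
        (S.filter (fun p => ∃ i ∈ range 3, E3 (p.1 / (p.2 + i) + 1))))
    have g2 := card_union_le (S.filter (fun p => ∃ j ∈ (range 3) ×ˢ (range (K + 1)),
      E2 ((p.2 + j.1) * (p.1 / (p.2 + j.1) + 1 + j.2))))
        (S.filter (fun p => ∃ i ∈ range 3, E3 (p.1 / (p.2 + i) + 1)))
    exact_mod_cast hle.trans (g1.trans (Nat.add_le_add_left g2 _))
  rw [hcard] at hle2
  linarith

end Pool.Agent.Lib.MP_f6c41f_nt.RT
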