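import Pool.Agent.Lib.MP_f6c41f_nt.RT.Defs
import Pool.Agent.Lib.MP_f6c41f_nt.C7

/-!
# MP_f6c41f_nt RT, row Pat: a sign pattern that never occurs in the model is rare

Proof.  For `x_i = ±1` the indicator of `∀ i ∈ F0, x_i = σ_i` (`σ_i = -1` on `S`, `1` off `S`) is
`∏_{i ∈ F0} (1 + σ_i x_i)/2 = 2^(-|F0|) Σ_{F ⊆ F0} (∏_{i ∈ F} σ_i) ∏_{i ∈ F} x_i` (`Finset.prod_one_add` or
`Finset.prod_add`).  Averaging over `1 ≤ n ≤ N` with `x_i = f (n + i)`: the frequency of the pattern is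
`2^(-|F0|) Σ_F (∏_F σ) avg f F N`.  In the model (`x_i = phi (t + i s)`) the indicator vanishes for all `(s, t)` by
`hmod`, so integrating over `[0,1]^2` (`torus`; the integrands are bounded and measurable, see
`C6_int`, `C7_int`, `C7_meas_prod`, `rot_int`; or use `torus F = ∫ rot s F`) gives
`2^(-|F0|) Σ_F (∏_F σ) torus F = 0`.  Subtract: the frequency is at most `2^(-|F0|) 2^(|F0|) δ = δ`.
-/

set_option autoImplicit false

namespace Pool.Agent.Lib.MP_f6c41f_nt.RT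

open Finset Pool.Agent.Lib.MP_f6c41f_nt
open scoped Classical

private theorem pat_expand (F0 : Finset ℕ) (σ x : ℕ → ℝ) :
    ∏ i ∈ F0, (1 + σ i * x i) = ∑ F ∈ F0.powerset, (∏ i ∈ F, σ i) * ∏ i ∈ F, x i := by
  rw [prod_one_add]
  exact sum_congr rfl fun F _ => prod_mul_distrib

private theorem pat_ind (F0 : Finset ℕ) (σ x : ℕ → ℝ) (hσ : ∀ i, σ i = 1 ∨ σ i = -1)
    (hx : ∀ i, x i = 1 ∨ x i = -1) :
    ∏ i ∈ F0, (1 + σ i * x i) = if ∀ i ∈ F0, x i = σ i then (2 : ℝ) ^ F0.card else 0 := by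
  split_ifs with h
  · rw [← prod_const]
    refine prod_congr rfl fun i hi => ?_
    rw [h i hi]
    rcases hσ i with h1 | h1 <;> rw [h1] <;> norm_num
  · push Not at h
    obtain ⟨i, hi, hne⟩ := h
    refine prod_eq_zero hi ?_
    rcases hσ i with h1 | h1 <;> rcases hx i with h2 | h2 <;> rw [h1, h2] at hne ⊢ <;>
      first
        | exact absurd rfl hne
        | norm_num

private theorem pat_model (F0 : Finset ℕ) (σ : ℕ → ℝ)
    (h : ∀ s t : ℝ, ∑ F ∈ F0.powerset, (∏ i ∈ F, σ i) * ∏ i ∈ F, phi (t + (i : ℝ) * s) = 0) :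
    ∑ F ∈ F0.powerset, (∏ i ∈ F, σ i) * torus F = 0 := by
  have h1 : ∀ s : ℝ, ∑ F ∈ F0.powerset, (∏ i ∈ F, σ i) * rot s F = 0 := by
    intro s
    have h2 : ∫ t in (0:ℝ)..1, ∑ F ∈ F0.powerset, (∏ i ∈ F, σ i) *
        ∏ i ∈ F, phi (t + (i : ℝ) * s) = 0 := by
      simp only [h s]
      simp
    rw [intervalIntegral.integral_finsetSum
      (fun F _ => (C6_int F s 0 1).const_mul _)] at h2
    rw [← h2]
    refine sum_congr rfl fun F _ => ?_
    rw [intervalIntegral.integral_const_mul]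
    rfl
  have h2 : ∫ s in (0:ℝ)..1, ∑ F ∈ F0.powerset, (∏ i ∈ F, σ i) * rot s F = 0 := by
    simp only [h1]
    simp
  rw [intervalIntegral.integral_finsetSum
    (fun F _ => ((rot_continuous F).intervalIntegrable 0 1).const_mul _)] at h2
  rw [← h2]
  refine sum_congr rfl fun F _ => ?_
  rw [intervalIntegral.integral_const_mul, rot_int]

theorem pat {f : ℕ → ℝ} (hf : Sg f) (B : ℕ) (δ : ℝ) (N : ℕ) (hN : 1 ≤ N) (hH : Hyp f B δ N)
    (F0 : Finset ℕ) (hF : F0.card ≤ 8) (hB : ∀ i ∈ F0, i ≤ B) (S : Finset ℕ)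
    (hmod : ∀ s t : ℝ, ¬ ∀ i ∈ F0, phi (t + (i : ℝ) * s) = if i ∈ S then -1 else 1) :
    (((Icc 1 N).filter (fun n => ∀ i ∈ F0, f (n + i) = if i ∈ S then -1 else 1)).card : ℝ)
      ≤ δ * N := by
  obtain ⟨σ, hσd⟩ : ∃ σ : ℕ → ℝ, σ = fun i => if i ∈ S then -1 else 1 := ⟨_, rfl⟩
  have hσe : ∀ i, (if i ∈ S then (-1 : ℝ) else 1) = σ i := fun i => by rw [hσd]
  have hσ : ∀ i, σ i = 1 ∨ σ i = -1 := by
    intro i
    rw [← hσe]
    split_ifs
    · exact Or.inr rfl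
    · exact Or.inl rfl
  have hNr : (0 : ℝ) < N := by exact_mod_cast hN
  simp only [hσe] at hmod ⊢
  have hphi : ∀ x, phi x = 1 ∨ phi x = -1 := C7_phi_cases
  have hm := pat_model F0 σ (fun s t => by
    rw [← pat_expand F0 σ (fun i => phi (t + (i : ℝ) * s)), pat_ind F0 σ _ hσ (fun i => hphi _),
      if_neg (hmod s t)])
  have hsum : (2 : ℝ) ^ F0.card *
      (((Icc 1 N).filter (fun n => ∀ i ∈ F0, f (n + i) = σ i)).card : ℝ) =
      ∑ F ∈ F0.powerset, (∏ i ∈ F, σ i) * (N * avg f F N) := by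
    have h1 : ∀ F, (N : ℝ) * avg f F N = ∑ n ∈ Icc 1 N, ∏ i ∈ F, f (n + i) := by
      intro F
      unfold avg
      rw [← mul_assoc, mul_one_div_cancel hNr.ne', one_mul]
    calc (2 : ℝ) ^ F0.card * (((Icc 1 N).filter (fun n => ∀ i ∈ F0, f (n + i) = σ i)).card : ℝ)
        = ∑ n ∈ Icc 1 N, if ∀ i ∈ F0, f (n + i) = σ i then (2 : ℝ) ^ F0.card else 0 := by
          rw [← sum_filter, sum_const, nsmul_eq_mul, mul_comm]
      _ = ∑ n ∈ Icc 1 N, ∑ F ∈ F0.powerset, (∏ i ∈ F, σ i) * ∏ i ∈ F, f (n + i) := by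
          refine sum_congr rfl fun n _ => ?_
          rw [← pat_expand F0 σ (fun i => f (n + i)), pat_ind F0 σ _ hσ (fun i => hf _)]
      _ = ∑ F ∈ F0.powerset, (∏ i ∈ F, σ i) * (N * avg f F N) := by
          rw [sum_comm]
          refine sum_congr rfl fun F _ => ?_
          rw [h1, mul_sum]
  have hdiff : (2 : ℝ) ^ F0.card *
      (((Icc 1 N).filter (fun n => ∀ i ∈ F0, f (n + i) = σ i)).card : ℝ) =
      ∑ F ∈ F0.powerset, (∏ i ∈ F, σ i) * (N * (avg f F N - torus F)) := by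
    have e : ∑ F ∈ F0.powerset, (∏ i ∈ F, σ i) * (N * (avg f F N - torus F)) =
        ∑ F ∈ F0.powerset, (∏ i ∈ F, σ i) * (N * avg f F N) -
          N * ∑ F ∈ F0.powerset, (∏ i ∈ F, σ i) * torus F := by
      rw [mul_sum, ← sum_sub_distrib]
      exact sum_congr rfl fun F _ => by ring
    rw [e, hm, mul_zero, sub_zero, hsum]
  have hle : ∑ F ∈ F0.powerset, (∏ i ∈ F, σ i) * (N * (avg f F N - torus F)) ≤
      ∑ F ∈ F0.powerset, N * δ := by
    refine sum_le_sum fun F hF' => ?_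
    have hsub := mem_powerset.1 hF'
    have h1 := hH F ((card_le_card hsub).trans hF) (fun i hi => hB i (hsub hi))
    have h2 : |∏ i ∈ F, σ i| = 1 := by
      rw [abs_prod]
      refine prod_eq_one fun i _ => ?_
      rcases hσ i with h3 | h3 <;> rw [h3] <;> norm_num
    refine (le_abs_self _).trans ?_
    rw [abs_mul, h2, one_mul, abs_mul, abs_of_pos hNr]
    exact mul_le_mul_of_nonneg_left h1 hNr.le
  rw [← hdiff, sum_const, card_powerset, nsmul_eq_mul] at hle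
  push_cast at hle
  have h2 : (0 : ℝ) < (2 : ℝ) ^ F0.card := by positivity
  have h3 := le_of_mul_le_mul_left hle h2
  rw [mul_comm δ]
  exact h3

end Pool.Agent.Lib.MP_f6c41f_nt.RT
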