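import Pool.Agent.Lib.MP_f6c41f_nt.RT.Tool

/-!
# MP_f6c41f_nt RT, row Bal: the model has no violation

Proof.  `phi` has period one, so `s` may be replaced by `s + z`, `z` an integer; assume `|v| ≤ 1` for `v = 2 s`
(`s ∈ [-1/2, 1/2]`).  Let `A j = ⌊2 (t + j s)⌋`; by `phi_floor`, `phi (t + j s) = 1` iff `A j` is even.  Say `v ≥ 0`
(for `v < 0` the floors decrease; same argument, or use `-A`): `A (j+1) - A j ∈ {0, 1}`, `A i - A j` differs from
`(i - j) v` by less than `1`.  If `Vio`: `A (b+1) = A b`, `A (b+k) = A (b+k-1)`, `A (b'+1) = A b' + 1`,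
`A (b'+k) = A (b'+k-1) + 1`, and `A (b+k-1) - A (b+1) ≡ A (b'+k-1) - A (b'+1)` modulo 2.  Put
`p = A (b+k) - A b = A (b+k-1) - A (b+1)`, `p' = A (b'+k) - A b' = (A (b'+k-1) - A (b'+1)) + 2`.  `p, p'` are both
within `< 1` of `k v`, so `|p - p'| ≤ 1`, and `p ≡ p'` modulo 2: `p = p'`.  But `p` and `p' - 2` are both within
`< 1` of `(k - 2) v`: `|p - (p' - 2)| < 2`, contradiction.
-/

set_option autoImplicit false

namespace Pool.Agent.Lib.MP_f6c41f_nt.RT

open Finset Pool.Agent.Lib.MP_f6c41f_nt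
open scoped Classical

theorem bal (s t : ℝ) (k b b' : ℕ) (hk : 2 ≤ k) :
    ¬ Vio (fun i => phi (t + (i : ℝ) * s)) k b b' := by
  obtain ⟨m, rfl⟩ : ∃ m, k = m + 2 := ⟨k - 2, by omega⟩
  obtain ⟨z, hz⟩ : ∃ z : ℤ, |s - z| ≤ 1 / 2 := ⟨round s, abs_sub_round s⟩
  obtain ⟨v, hv⟩ : ∃ v : ℝ, v = 2 * (s - z) := ⟨_, rfl⟩
  have hv1 : -1 ≤ v ∧ v ≤ 1 := by
    rw [abs_le] at hz
    constructor <;> linarith [hz.1, hz.2]
  obtain ⟨A, hA'⟩ : ∃ A : ℕ → ℤ, ∀ j : ℕ, A j = ⌊2 * t + j * v⌋ := ⟨fun j => ⌊2 * t + j * v⌋, fun _ => rfl⟩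
  have hw : ∀ i : ℕ, phi (t + (i : ℝ) * s) = if A i % 2 = 0 then 1 else -1 := by
    intro i
    have e : t + (i : ℝ) * s = (t + i * (s - z)) + (((i : ℤ) * z : ℤ) : ℝ) := by
      push_cast
      ring
    have e2 : 2 * (t + (i : ℝ) * (s - z)) = 2 * t + i * v := by
      rw [hv]
      ring
    rw [e, phi_int, phi_floor, e2, ← hA' i]
    simp only [Int.even_iff]
  have hA : ∀ j : ℕ, (A j : ℝ) ≤ 2 * t + j * v ∧ 2 * t + j * v < A j + 1 := fun j => by
    rw [hA' j]
    exact ⟨Int.floor_le _, Int.lt_floor_add_one _⟩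
  rintro ⟨h1, h2, h3, h4, h5⟩
  have e1 : b + (m + 2) - 1 = b + m + 1 := by omega
  have e2 : b' + (m + 2) - 1 = b' + m + 1 := by omega
  have e3 : b + (m + 2) = b + m + 2 := by omega
  have e4 : b' + (m + 2) = b' + m + 2 := by omega
  rw [e1, e3] at h2
  rw [e2, e4] at h4
  rw [e1, e2] at h5
  simp only at h1 h2 h3 h4 h5
  rw [hw, hw] at h1 h2 h3 h4
  rw [hw, hw, hw, hw] at h5
  have p1 : A b % 2 = A (b + 1) % 2 := by
    split_ifs at h1 with u1 u2 u2 <;> first | omega | (exfalso; norm_num at h1)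
  have p2 : A (b + m + 1) % 2 = A (b + m + 2) % 2 := by
    split_ifs at h2 with u1 u2 u2 <;> first | omega | (exfalso; norm_num at h2)
  have p3 : A b' % 2 ≠ A (b' + 1) % 2 := by
    split_ifs at h3 with u1 u2 u2 <;> first | omega | (exfalso; norm_num at h3)
  have p4 : A (b' + m + 1) % 2 ≠ A (b' + m + 2) % 2 := by
    split_ifs at h4 with u1 u2 u2 <;> first | omega | (exfalso; norm_num at h4)
  have p5 : (A (b + 1) + A (b + m + 1)) % 2 = (A (b' + 1) + A (b' + m + 1)) % 2 := by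
    split_ifs at h5 with u1 u2 u3 u4 u3 u4 u2 u3 u4 u3 u4 <;> first | omega | (exfalso; norm_num at h5)
  -- the bounds
  have bd : ∀ i d : ℕ, (d : ℝ) * v - 1 < (A (i + d) - A i : ℤ) ∧ ((A (i + d) - A i : ℤ) : ℝ) < d * v + 1 := by
    intro i d
    have q1 := hA i
    have q2 := hA (i + d)
    push_cast at q2 ⊢
    constructor <;> linarith [q1.1, q1.2, q2.1, q2.2]
  have step : (∀ i : ℕ, A (i + 1) - A i = 0 ∨ A (i + 1) - A i = 1) ∨
      (∀ i : ℕ, A (i + 1) - A i = 0 ∨ A (i + 1) - A i = -1) := by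
    rcases le_total 0 v with hv0 | hv0
    · left
      intro i
      have q := bd i 1
      have q1 : (-1 : ℝ) < (A (i + 1) - A i : ℤ) := by
        have := q.1
        push_cast at this ⊢
        linarith
      have q2 : ((A (i + 1) - A i : ℤ) : ℝ) < 2 := by
        have := q.2
        push_cast at this ⊢
        linarith [hv1.2]
      have q3 : (-1 : ℤ) < A (i + 1) - A i := by exact_mod_cast q1
      have q4 : A (i + 1) - A i < (2 : ℤ) := by exact_mod_cast q2
      omega
    · right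
      intro i
      have q := bd i 1
      have q1 : (-2 : ℝ) < (A (i + 1) - A i : ℤ) := by
        have := q.1
        push_cast at this ⊢
        linarith [hv1.1]
      have q2 : ((A (i + 1) - A i : ℤ) : ℝ) < 1 := by
        have := q.2
        push_cast at this ⊢
        linarith
      have q3 : (-2 : ℤ) < A (i + 1) - A i := by exact_mod_cast q1
      have q4 : A (i + 1) - A i < (1 : ℤ) := by exact_mod_cast q2
      omega
  have diff : ∀ i i' d : ℕ, (A (i + d) - A i) - (A (i' + d) - A i') < 2 ∧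
      (A (i' + d) - A i') - (A (i + d) - A i) < 2 := by
    intro i i' d
    have q1 := bd i d
    have q2 := bd i' d
    constructor
    · have : (((A (i + d) - A i) - (A (i' + d) - A i') : ℤ) : ℝ) < (2 : ℤ) := by
        rw [Int.cast_sub]
        push_cast at q1 q2 ⊢
        linarith [q1.1, q1.2, q2.1, q2.2]
      exact_mod_cast this
    · have : (((A (i' + d) - A i') - (A (i + d) - A i) : ℤ) : ℝ) < (2 : ℤ) := by
        rw [Int.cast_sub]
        push_cast at q1 q2 ⊢
        linarith [q1.1, q1.2, q2.1, q2.2]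
      exact_mod_cast this
  have d1 := diff b b' (m + 2)
  have d2 := diff (b + 1) (b' + 1) m
  rw [e3, e4] at d1
  have e5 : b + 1 + m = b + m + 1 := by omega
  have e6 : b' + 1 + m = b' + m + 1 := by omega
  rw [e5, e6] at d2
  have f1 : A (b + m + 1 + 1) = A (b + m + 2) := rfl
  have f2 : A (b' + m + 1 + 1) = A (b' + m + 2) := rfl
  rcases step with st | st
  · have s1 := st b
    have s2 := st (b + m + 1)
    have s3 := st b'
    have s4 := st (b' + m + 1)
    rw [f1] at s2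
    rw [f2] at s4
    omega
  · have s1 := st b
    have s2 := st (b + m + 1)
    have s3 := st b'
    have s4 := st (b' + m + 1)
    rw [f1] at s2
    rw [f2] at s4
    omega

end Pool.Agent.Lib.MP_f6c41f_nt.RT
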