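import Pool.Agent.Lib.MP_f6c41f_nt.RT.Defs

/-!
# MP_f6c41f_nt RT, row Bld: no violation implies balanced

Proof.  Write `N_b(k) = Σ_{i < k} chg w (b + i)`.  Suppose the conclusion fails and take `k` minimal such that
`N_b(k) ≥ N_b'(k) + 2` for some `b, b'` (in range).  `k ≥ 2`, as `chg ≤ 1`.  Removing the first letter:
`N_(b+1)(k-1) ≤ N_(b'+1)(k-1) + 1` by minimality, so `chg w b = 1` and `chg w b' = 0`, and
`N_b(k) = N_b'(k) + 2` exactly; removing the last letter: `chg w (b+k-1) = 1`, `chg w (b'+k-1) = 0`.  The inner counts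
`N_(b+1)(k-2)` and `N_(b'+1)(k-2)` are equal.  As `w` is a word of signs,
`w (i+1) = w i` if `chg w i = 0` and `w (i+1) = - w i` if `chg w i = 1`, so
`w (b+1) w (b+k-1) = (-1)^(N_(b+1)(k-2)) = w (b'+1) w (b'+k-1)`.  This is `Vio w k b' b`.
-/

set_option autoImplicit false

namespace Pool.Agent.Lib.MP_f6c41f_nt.RT

open Finset Pool.Agent.Lib.MP_f6c41f_nt
open scoped Classical

private lemma bld_chg_le (w : ℕ → ℝ) (i : ℕ) : chg w i ≤ 1 := by
  unfold chg
  split_ifs <;> omega

private lemma bld_chg_zero {w : ℕ → ℝ} {i : ℕ} (h : chg w i = 0) : w i = w (i + 1) := by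
  unfold chg at h
  split_ifs at h with h1
  · exact h1

private lemma bld_chg_one {w : ℕ → ℝ} (hw : ∀ i, w i = 1 ∨ w i = -1) {i : ℕ} (h : chg w i = 1) :
    w i = -w (i + 1) := by
  unfold chg at h
  split_ifs at h with h1
  rcases hw i with h2 | h2 <;> rcases hw (i + 1) with h3 | h3 <;> rw [h2, h3] at h1 ⊢ <;>
    first | exact absurd rfl h1 | norm_num

private lemma bld_prod {w : ℕ → ℝ} (hw : ∀ i, w i = 1 ∨ w i = -1) (b j : ℕ) :
    w b * w (b + j) = (-1) ^ (∑ i ∈ range j, chg w (b + i)) := by
  induction j with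
  | zero =>
    rcases hw b with h | h <;> simp [h]
  | succ j ih =>
    rw [Finset.sum_range_succ, pow_add, ← ih]
    have h1 : chg w (b + j) = 0 ∨ chg w (b + j) = 1 := by
      have := bld_chg_le w (b + j)
      omega
    rcases h1 with h1 | h1
    · have h2 := bld_chg_zero h1
      rw [h1, pow_zero, mul_one, h2]
      rfl
    · have h2 := bld_chg_one hw h1
      rw [h1, pow_one, h2]
      have e : b + (j + 1) = b + j + 1 := by ring
      rw [e]
      ring

private lemma bld_first (w : ℕ → ℝ) (b k : ℕ) :
    ∑ i ∈ range (k + 1), chg w (b + i) = chg w b + ∑ i ∈ range k, chg w (b + 1 + i) := by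
  rw [Finset.sum_range_succ', add_comm]
  congr 1
  refine Finset.sum_congr rfl fun i _ => ?_
  congr 1
  ring

theorem bld (w : ℕ → ℝ) (hw : ∀ i, w i = 1 ∨ w i = -1) (L : ℕ)
    (hv : ∀ k b b' : ℕ, 2 ≤ k → b + k ≤ L → b' + k ≤ L → ¬ Vio w k b b') :
    ∀ k b b' : ℕ, b + k ≤ L → b' + k ≤ L →
      ∑ i ∈ range k, chg w (b + i) ≤ ∑ i ∈ range k, chg w (b' + i) + 1 := by
  intro k
  induction k using Nat.strong_induction_on with
  | _ k ih =>
    intro b b' hb hb'
    rcases k with _ | _ | k
    · simp
    · have := bld_chg_le w b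
      simp only [zero_add, Finset.sum_range_one, add_zero]
      omega
    · by_contra hcon
      push Not at hcon
      -- the first letter
      have f1 := bld_first w b (k + 1)
      have f2 := bld_first w b' (k + 1)
      have g1 := ih (k + 1) (by omega) (b + 1) (b' + 1) (by omega) (by omega)
      have c1 := bld_chg_le w b
      have c2 := bld_chg_le w b'
      -- the last letter
      have l1 := Finset.sum_range_succ (fun i => chg w (b + i)) (k + 1)
      have l2 := Finset.sum_range_succ (fun i => chg w (b' + i)) (k + 1)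
      have g2 := ih (k + 1) (by omega) b b' (by omega) (by omega)
      have c3 := bld_chg_le w (b + (k + 1))
      have c4 := bld_chg_le w (b' + (k + 1))
      -- the last letter of the tail
      have m1 := Finset.sum_range_succ (fun i => chg w (b + 1 + i)) k
      have m2 := Finset.sum_range_succ (fun i => chg w (b' + 1 + i)) k
      have e1 : b + 1 + k = b + (k + 1) := by ring
      have e2 : b' + 1 + k = b' + (k + 1) := by ring
      simp only [e1, e2] at m1 m2
      have h1 : chg w b = 1 := by omega
      have h2 : chg w b' = 0 := by omega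
      have h3 : chg w (b + (k + 1)) = 1 := by omega
      have h4 : chg w (b' + (k + 1)) = 0 := by omega
      have h5 : ∑ i ∈ range k, chg w (b + 1 + i) = ∑ i ∈ range k, chg w (b' + 1 + i) := by omega
      refine hv (k + 1 + 1) b' b (by omega) hb' hb ⟨bld_chg_zero h2, ?_, bld_chg_one hw h1, ?_, ?_⟩
      · have e : b' + (k + 1 + 1) - 1 = b' + (k + 1) := by omega
        rw [e]
        exact bld_chg_zero h4
      · have e : b + (k + 1 + 1) - 1 = b + (k + 1) := by omega
        rw [e]
        exact bld_chg_one hw h3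
      · have e : b + (k + 1 + 1) - 1 = b + 1 + k := by omega
        have e' : b' + (k + 1 + 1) - 1 = b' + 1 + k := by omega
        rw [e, e', bld_prod hw, bld_prod hw, h5]

end Pool.Agent.Lib.MP_f6c41f_nt.RT
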