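import Pool.Agent.Lib.MP_f6c41f_nt.RT.RigS

/-!
# MP_f6c41f_nt RT, row Rel34: the frequency at `x / p`, `p = 3, 4`

Proof.  Put `m = x / p > 0`, `b = x % p`, `x = p m + b`, `κ = (1 - f p)/4 ∈ {0, 1/2}`, `H = L / p`.  For
`1 ≤ h ≤ H`: `p (m + h) = x + (p h - b)` with `0 ≤ p h - b ≤ L`, so
`f p * f (m + h) = f (x + (p h - b)) = phi (t + (p h - b) s)`; as `f p = ±1`,
`f (m + h) = phi (t - b s + κ + h (p s))` (`phi_half` if `f p = -1`, `str_half` for strictness), and
`f (m + h) = phi (t' + h s')`.  `rigS` (base `(p s, t - b s + κ)`) gives a sign `e` with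
`nrm (s' - e (p s)) ≤ 1/(H - 1) ≤ c`, because `L ≤ 5 (H - 1)` for `L ≥ 100` and `c L = 5`.
-/

set_option autoImplicit false

namespace Pool.Agent.Lib.MP_f6c41f_nt.RT

open Finset Pool.Agent.Lib.MP_f6c41f_nt
open scoped Classical

theorem rel34 {f : ℕ → ℝ} {L Q M : ℕ} {θ ρ c : ℝ} (P : Par L Q M θ ρ c) (hf : Sg f) (hm : Mul f)
    (p : ℕ) (hp : p = 3 ∨ p = 4) (x : ℕ) (hx0 : 0 < x / p) (s t s' t' : ℝ)
    (hx : Cod f L x s t) (hx' : Cod f L (x / p) s' t') : Near c s' (p * s) := by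
  have hp0 : 0 < p := by rcases hp with h | h <;> omega
  have hp4 : p ≤ 4 := by rcases hp with h | h <;> omega
  have hL := P.hL
  have hc0 := par_c_pos P
  have hfp := hf p
  -- the base phase
  set κ : ℝ := (1 - f p) / 4 with hκ
  have hH : 2 ≤ L / p := by
    rcases hp with h | h <;> rw [h] <;> omega
  obtain ⟨e, he, hle⟩ := rigS (L / p) hH (p * s) (t - ((x % p : ℕ) : ℝ) * s + κ) s' t' (by
    intro h h1 h2
    have hmul : p * h ≤ L := le_trans (Nat.mul_le_mul_left p h2) (Nat.mul_div_le L p)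
    have hb : x % p < p := Nat.mod_lt _ hp0
    have hbp : x % p ≤ p * h := by nlinarith
    have hx0' := Nat.div_add_mod x p
    set b := x % p with hbdef
    set m := x / p with hmdef
    have heq : p * (m + h) = x + (p * h - b) := by
      have : p * (m + h) = p * m + p * h := by ring
      omega
    have hle2 : p * h - b ≤ L := by omega
    obtain ⟨c1, c2⟩ := hx (p * h - b) hle2
    have hhL : h ≤ L := by nlinarith
    obtain ⟨d1, d2⟩ := hx' h hhL
    have hmul2 := hm p (m + h) hp0 (by omega)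
    rw [heq] at hmul2
    have hcast : ((p * h - b : ℕ) : ℝ) = p * h - b := by
      rw [Nat.cast_sub hbp]; push_cast; ring
    rw [hcast] at c1 c2
    have htt : t + (p * h - b) * s = t - b * s + h * (p * s) := by ring
    rw [htt] at c1 c2
    rcases hfp with h3 | h3
    · have hk : κ = 0 := by rw [hκ, h3]; ring
      rw [hk]
      have e1 : t - b * s + 0 + h * (p * s) = t - b * s + h * (p * s) := by ring
      rw [e1]
      refine ⟨c1, d1, ?_⟩
      rw [← c2, ← d2, hmul2, h3, one_mul]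
    · have hk : κ = 1 / 2 := by rw [hκ, h3]; norm_num
      rw [hk]
      have e1 : t - b * s + 1 / 2 + h * (p * s) = (t - b * s + h * (p * s)) + 1 / 2 := by ring
      rw [e1]
      refine ⟨str_half c1, d1, ?_⟩
      rw [phi_half, ← c2, ← d2, hmul2, h3]
      ring)
  refine ⟨e, he, hle.trans ?_⟩
  have hHr : (L : ℝ) ≤ 5 * (((L / p : ℕ) : ℝ) - 1) := by
    have h1 : L + 5 ≤ 5 * (L / p) := by
      rcases hp with h | h <;> rw [h] <;> omega
    have h2 : ((L + 5 : ℕ) : ℝ) ≤ ((5 * (L / p) : ℕ) : ℝ) := by exact_mod_cast h1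
    push_cast at h2 ⊢
    linarith
  have hHp : (0 : ℝ) < ((L / p : ℕ) : ℝ) - 1 := by
    have : (2 : ℝ) ≤ ((L / p : ℕ) : ℝ) := by exact_mod_cast hH
    linarith
  rw [div_le_iff₀ hHp]
  have := P.hc
  nlinarith

end Pool.Agent.Lib.MP_f6c41f_nt.RT
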