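import Pool.Agent.Lib.MP_f6c41f_nt.RT.Tool

/-!
# MP_f6c41f_nt RT, row S34: `1 = 4 - 3`

Proof.  Combine: there are signs with `nrm (3 a' - e (3 a)) ≤ 3 c` (from `a3' ≈ ± 3 a'`, `a3 ≈ ± 3 a`, `a3' ≈ ± a3`,
three errors `c`; use `nrm_sgn_mul`, `sgn_mul`) and `nrm (4 a' - e' (4 a)) ≤ 3 c`.
If `e = e'`: `x := a' - e a` has `nrm (3 x) ≤ 3 c`, `nrm (4 x) ≤ 3 c`, so `nrm x ≤ 6 c ≤ 1/6` (`x = 4x - 3x`), hence
`nrm (3 x) = 3 nrm x` (`nrm_nat_mul_eq`) and `nrm x ≤ c`.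
If `e' = -e`: `nrm (12 a' - 12 e a) ≤ 12 c`, `nrm (12 a' + 12 e a) ≤ 9 c` (`nrm_nat_mul_le`), so
`nrm (24 a) = nrm (24 e a) ≤ 21 c < θ`, contradiction to `ND` with `q = 24`.
-/

set_option autoImplicit false

namespace Pool.Agent.Lib.MP_f6c41f_nt.RT

open Finset Pool.Agent.Lib.MP_f6c41f_nt
open scoped Classical

private theorem s34_comb {c x x' y y' : ℝ} (h : Near c y x) (h' : Near c y' x')
    (e : Near c y' y) : ∃ s, Sgn s ∧ nrm (x' - s * x) ≤ 3 * c := by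
  obtain ⟨e1, he1, h1⟩ := h
  obtain ⟨e2, he2, h2⟩ := h'
  obtain ⟨e3, he3, h3⟩ := e
  refine ⟨e2 * e3 * e1, sgn_mul (sgn_mul he2 he3) he1, ?_⟩
  have q2 := sgn_sq he2
  have a1 : nrm (x' - e2 * y') ≤ c := by
    have e4 : e2 * (y' - e2 * x') = e2 * y' - x' := by
      rw [mul_sub, ← mul_assoc, q2, one_mul]
    rw [nrm_comm, ← e4, nrm_sgn_mul he2]
    exact h2
  have a2 : nrm (e2 * y' - e2 * e3 * y) ≤ c := by
    have e6 : e2 * y' - e2 * e3 * y = e2 * (y' - e3 * y) := by ring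
    rw [e6, nrm_sgn_mul he2]
    exact h3
  have a3 : nrm (e2 * e3 * y - e2 * e3 * e1 * x) ≤ c := by
    have e7 : e2 * e3 * y - e2 * e3 * e1 * x = (e2 * e3) * (y - e1 * x) := by ring
    rw [e7, nrm_sgn_mul (sgn_mul he2 he3)]
    exact h1
  have b1 := nrm_tri x' (e2 * y') (e2 * e3 * e1 * x)
  have b2 := nrm_tri (e2 * y') (e2 * e3 * y) (e2 * e3 * e1 * x)
  linarith

theorem s34 {Q : ℕ} {θ c : ℝ} (a a' a3 a3' a4 a4' : ℝ) (hnd : ND Q θ a) (hQ : 24 ≤ Q)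
    (hc0 : 0 < c) (hc : 30 * c ≤ θ) (hc1 : 100 * c ≤ 1)
    (h3 : Near c a3 (3 * a)) (h3' : Near c a3' (3 * a')) (h4 : Near c a4 (4 * a))
    (h4' : Near c a4' (4 * a')) (e3 : Near c a3' a3) (e4 : Near c a4' a4) : Near c a' a := by
  obtain ⟨e, he, g3⟩ := s34_comb h3 h3' e3
  obtain ⟨e', he', g4⟩ := s34_comb h4 h4' e4
  by_cases hee : e' = e
  · subst hee
    refine ⟨e', he', ?_⟩
    have k3 : nrm (((3 : ℕ) : ℝ) * (a' - e' * a)) ≤ 3 * c := by
      have e5 : ((3 : ℕ) : ℝ) * (a' - e' * a) = 3 * a' - e' * (3 * a) := by push_cast; ring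
      rw [e5]
      exact g3
    have k4 : nrm (4 * (a' - e' * a)) ≤ 3 * c := by
      have e5 : 4 * (a' - e' * a) = 4 * a' - e' * (4 * a) := by ring
      rw [e5]
      exact g4
    have k1 : nrm (a' - e' * a) ≤ 6 * c := by
      have e5 : a' - e' * a = 4 * (a' - e' * a) - ((3 : ℕ) : ℝ) * (a' - e' * a) := by
        push_cast; ring
      rw [e5]
      have := nrm_sub (4 * (a' - e' * a)) (((3 : ℕ) : ℝ) * (a' - e' * a))
      linarith
    have k5 := nrm_nat_mul_eq 3 (a' - e' * a) (by push_cast; linarith)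
    rw [k5] at k3
    push_cast at k3
    linarith
  · exfalso
    have hneg : e' = -e := by
      rcases he with h | h <;> rcases he' with h' | h'
      · exact absurd (h'.trans h.symm) hee
      · rw [h', h]
      · rw [h', h, neg_neg]
      · exact absurd (h'.trans h.symm) hee
    subst hneg
    have k1 := nrm_nat_mul_le 4 (3 * a' - e * (3 * a))
    have k2 := nrm_nat_mul_le 3 (4 * a' - -e * (4 * a))
    have e5 : ((3 : ℕ) : ℝ) * (4 * a' - -e * (4 * a)) -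
        ((4 : ℕ) : ℝ) * (3 * a' - e * (3 * a)) = e * (((24 : ℕ) : ℝ) * a) := by push_cast; ring
    have k3 := nrm_sub (((3 : ℕ) : ℝ) * (4 * a' - -e * (4 * a)))
      (((4 : ℕ) : ℝ) * (3 * a' - e * (3 * a)))
    rw [e5, nrm_sgn_mul he] at k3
    have k4 := hnd 24 (by norm_num) hQ
    push_cast at k1 k2 k3 k4
    linarith

end Pool.Agent.Lib.MP_f6c41f_nt.RT
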