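import Pool.Agent.Lib.MP_f6c41f_nt.RT.Ovl
import Pool.Agent.Lib.MP_f6c41f_nt.RT.Rel34
import Pool.Agent.Lib.MP_f6c41f_nt.RT.S34

/-!
# MP_f6c41f_nt RT, row Cls: close numbers have close frequencies

Proof.  Strong downward induction on `y = 2^i 3^j ≤ Y` (e.g. induction on `Y - 2^i 3^j`, or on `n` in
`Y < 4^n * 2^i 3^j`-like bounds, for all `i j`).  Base `Y < 4 y`: by `hd` the nodes `x / y`, `x' / y` are within
`G0`, both in `G`, and `ovl` gives `nrm (s' - e s) ≤ c`, i.e. `Near`.  Step `4 y ≤ Y`: then `3 y = 2^i 3^(j+1) ≤ Y`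
and `4 y = 2^(i+2) 3^j ≤ Y`, by induction `Near` holds at `3 y` and `4 y`; `x / (3 y) = (x / y) / 3`,
`x / (4 y) = (x / y) / 4` (`Nat.div_div_eq_div_mul`), all nodes are in `G` (so positive), `rel34` with `p = 3, 4`
for `x` and `x'`, then `s34` (`Q ≥ 24` because `6 ≤ ρ Q`, `100 ρ ≤ 1`; `100 c ≤ ρ ≤ 1/100`).
-/

set_option autoImplicit false

namespace Pool.Agent.Lib.MP_f6c41f_nt.RT

open Finset Pool.Agent.Lib.MP_f6c41f_nt
open scoped Classical

theorem cls {f : ℕ → ℝ} {L Q M : ℕ} {θ ρ c : ℝ} (P : Par L Q M θ ρ c) {G : Set ℕ} {s t : ℕ → ℝ}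
    (D : Dat f L Q θ G s t) (Y G0 : ℕ) (hG0 : 2 * G0 ≤ L) (x x' : ℕ) (hx : SG G Y x)
    (hx' : SG G Y x')
    (hd : ∀ y : ℕ, y ≤ Y → Y < 4 * y → ((x / y : ℕ) : ℤ) - ((x' / y : ℕ) : ℤ) ≤ G0 ∧
      ((x' / y : ℕ) : ℤ) - ((x / y : ℕ) : ℤ) ≤ G0)
    (i j : ℕ) (hij : 2 ^ i * 3 ^ j ≤ Y) :
    Near c (s (x' / (2 ^ i * 3 ^ j))) (s (x / (2 ^ i * 3 ^ j))) := by
  have hL0 : (100 : ℝ) ≤ L := by exact_mod_cast P.hL
  have hc0 : 0 < c := by
    by_contra h
    have h1 : c * L ≤ 0 := mul_nonpos_of_nonpos_of_nonneg (not_lt.1 h) (by linarith)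
    have h2 := P.hc
    linarith
  have hρ0 : 0 < ρ := by
    have := P.hcρ
    linarith
  have hc1 : 100 * c ≤ 1 := by
    have h1 := P.hcρ
    have h2 := P.hρ
    linarith
  have hQ : 24 ≤ Q := by
    by_contra h
    have h1 : (Q : ℝ) ≤ 24 := by exact_mod_cast (by omega : Q ≤ 24)
    have h2 := P.hQ
    have h3 := P.hρ
    have h4 : ρ * Q ≤ ρ * 24 := mul_le_mul_of_nonneg_left h1 hρ0.le
    linarith
  have key : ∀ n i j : ℕ, 2 ^ i * 3 ^ j ≤ Y → Y - 2 ^ i * 3 ^ j ≤ n →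
      Near c (s (x' / (2 ^ i * 3 ^ j))) (s (x / (2 ^ i * 3 ^ j))) := by
    intro n
    induction n with
    | zero =>
      intro i j h1 h2
      have hy : 0 < 2 ^ i * 3 ^ j := by positivity
      obtain ⟨h3, h4⟩ := hd _ h1 (by omega)
      have g := hx i j h1
      have g' := hx' i j h1
      obtain ⟨e, he, h5, _⟩ := ovl P _ _ _ _ _ _ (D.cod _ g) (D.cod _ g') (D.nd _ g) (D.nd _ g')
        G0 hG0 h3 h4
      exact ⟨e, he, h5⟩
    | succ n ih =>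
      intro i j h1 h2
      have hy : 0 < 2 ^ i * 3 ^ j := by positivity
      have g := hx i j h1
      have g' := hx' i j h1
      by_cases h : Y < 4 * (2 ^ i * 3 ^ j)
      · obtain ⟨h3, h4⟩ := hd _ h1 h
        obtain ⟨e, he, h5, _⟩ := ovl P _ _ _ _ _ _ (D.cod _ g) (D.cod _ g') (D.nd _ g)
          (D.nd _ g') G0 hG0 h3 h4
        exact ⟨e, he, h5⟩
      · have e3 : 2 ^ i * 3 ^ (j + 1) = 2 ^ i * 3 ^ j * 3 := by ring
        have e4 : 2 ^ (i + 2) * 3 ^ j = 2 ^ i * 3 ^ j * 4 := by ring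
        have a3 : 2 ^ i * 3 ^ (j + 1) ≤ Y := by
          rw [e3]
          omega
        have a4 : 2 ^ (i + 2) * 3 ^ j ≤ Y := by
          rw [e4]
          omega
        have n3 := ih i (j + 1) a3 (by rw [e3]; omega)
        have n4 := ih (i + 2) j a4 (by rw [e4]; omega)
        have g3 := hx i (j + 1) a3
        have g3' := hx' i (j + 1) a3
        have g4 := hx (i + 2) j a4
        have g4' := hx' (i + 2) j a4
        have d3 : ∀ z : ℕ, z / (2 ^ i * 3 ^ j * 3) = z / (2 ^ i * 3 ^ j) / 3 :=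
          fun z => (Nat.div_div_eq_div_mul _ _ _).symm
        have d4 : ∀ z : ℕ, z / (2 ^ i * 3 ^ j * 4) = z / (2 ^ i * 3 ^ j) / 4 :=
          fun z => (Nat.div_div_eq_div_mul _ _ _).symm
        rw [e3, d3] at g3 g3'
        rw [e4, d4] at g4 g4'
        rw [e3, d3, d3] at n3
        rw [e4, d4, d4] at n4
        have r3 := rel34 P D.sg D.mul 3 (Or.inl rfl) _ (D.pos _ g3) _ _ _ _ (D.cod _ g)
          (D.cod _ g3)
        have r3' := rel34 P D.sg D.mul 3 (Or.inl rfl) _ (D.pos _ g3') _ _ _ _ (D.cod _ g')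
          (D.cod _ g3')
        have r4 := rel34 P D.sg D.mul 4 (Or.inr rfl) _ (D.pos _ g4) _ _ _ _ (D.cod _ g)
          (D.cod _ g4)
        have r4' := rel34 P D.sg D.mul 4 (Or.inr rfl) _ (D.pos _ g4') _ _ _ _ (D.cod _ g')
          (D.cod _ g4')
        push_cast at r3 r3' r4 r4'
        exact s34 _ _ _ _ _ _ (D.nd _ g) hQ hc0 P.hθ hc1 r3 r3' r4 r4' n3 n4
  exact key _ i j hij le_rfl

end Pool.Agent.Lib.MP_f6c41f_nt.RT
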