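import Pool.Agent.Lib.MP_f6c41f_nt.RT.Defs

/-!
# MP_f6c41f_nt RT, row CntA: pairs `(n, d)` whose point `(d + i)(n/(d+i) + 1 + h)` is bad

Proof.  Put `d' = d + i ∈ [D, 2D + 2) ⊆ [D, 3D)` (`D ≥ 2`), `a = d' (n/d' + 1 + h)`, a multiple of `d'` with
`n < a ≤ n + (h+1) d' ≤ 2X + (K+1)(2D+2) ≤ 4X`.  For fixed `d'` each `a` comes from at most `d' ≤ 3D` values of `n`
(`n / d'` is determined by `a`).  So the number of pairs is at most
`Σ_{d' ∈ [D,3D)} 3D * #{x ∈ Icc 1 (4X) : E x, d' ∣ x}`.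
-/

set_option autoImplicit false

namespace Pool.Agent.Lib.MP_f6c41f_nt.RT

open Finset Pool.Agent.Lib.MP_f6c41f_nt
open scoped Classical

theorem cntA_one (X D K e h : ℕ) (he1 : D ≤ e) (he2 : e ≤ 2 * D + 1) (hh : h ≤ K) (hD : 2 ≤ D)
    (hX : (K + 1) * (2 * D + 2) ≤ 2 * X) (E : ℕ → Prop) :
    ((Ico X (2 * X)).filter (fun n => E (e * (n / e + 1 + h)))).card ≤
      3 * D * ((((Icc 1 (4 * X)).filter E)).filter (fun x => e ∣ x)).card := by
  have he : 0 < e := by omega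
  refine card_le_mul_card_image_of_maps_to (f := fun n => e * (n / e + 1 + h)) ?_ _ ?_
  · intro n hn
    obtain ⟨h1, h2⟩ := mem_filter.1 hn
    obtain ⟨h3, h4⟩ := mem_Ico.1 h1
    refine mem_filter.2 ⟨mem_filter.2 ⟨mem_Icc.2 ⟨?_, ?_⟩, h2⟩, Dvd.intro _ rfl⟩
    · exact Nat.mul_pos he (Nat.add_pos_left (Nat.succ_pos _) _)
    · have h5 : e * (n / e) ≤ n := Nat.mul_div_le n e
      have h6 : e * (1 + h) ≤ (2 * D + 2) * (K + 1) := Nat.mul_le_mul (by omega) (by omega)
      have h7 : e * (n / e + 1 + h) = e * (n / e) + e * (1 + h) := by ring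
      rw [h7]
      have h8 : (2 * D + 2) * (K + 1) = (K + 1) * (2 * D + 2) := Nat.mul_comm _ _
      omega
  · intro a _
    by_cases hne : (((Ico X (2 * X)).filter (fun n => E (e * (n / e + 1 + h)))).filter
        fun n => e * (n / e + 1 + h) = a).Nonempty
    swap
    · rw [not_nonempty_iff_eq_empty] at hne
      rw [hne, card_empty]
      exact Nat.zero_le _
    obtain ⟨n0, hn0⟩ := hne
    have h0 := (mem_filter.1 hn0).2
    have hsub : (((Ico X (2 * X)).filter (fun n => E (e * (n / e + 1 + h)))).filter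
        fun n => e * (n / e + 1 + h) = a) ⊆ Ico (e * (n0 / e)) (e * (n0 / e) + e) := by
      intro n hn
      have h1 := (mem_filter.1 hn).2
      have h2 : n / e + 1 + h = n0 / e + 1 + h := Nat.eq_of_mul_eq_mul_left he (h1.trans h0.symm)
      have h3 : n / e = n0 / e := by omega
      rw [mem_Ico, ← h3]
      have h4 := Nat.div_add_mod n e
      have h5 := Nat.mod_lt n he
      constructor <;> omega
    refine (card_le_card hsub).trans ?_
    rw [Nat.card_Ico]
    omega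

theorem cntA (X D K i h : ℕ) (hi : i < 3) (hh : h ≤ K) (hD : 2 ≤ D)
    (hX : (K + 1) * (2 * D + 2) ≤ 2 * X) (E : ℕ → Prop) :
    ((((Ico X (2 * X)) ×ˢ (Ico D (2 * D))).filter
      (fun p => E ((p.2 + i) * (p.1 / (p.2 + i) + 1 + h)))).card : ℝ) ≤
      3 * D * ∑ d ∈ Ico D (3 * D), (((((Icc 1 (4 * X)).filter E)).filter (fun x => d ∣ x)).card : ℝ) := by
  have h1 : (((Ico X (2 * X)) ×ˢ (Ico D (2 * D))).filter
      (fun p => E ((p.2 + i) * (p.1 / (p.2 + i) + 1 + h)))).card =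
      ∑ d ∈ Ico D (2 * D), ((Ico X (2 * X)).filter (fun n => E ((d + i) * (n / (d + i) + 1 + h)))).card := by
    rw [card_filter, sum_product_right]
    refine sum_congr rfl fun d _ => ?_
    rw [card_filter]
  have h2 : ∑ d ∈ Ico D (2 * D), ((Ico X (2 * X)).filter (fun n => E ((d + i) * (n / (d + i) + 1 + h)))).card ≤
      ∑ d ∈ Ico D (2 * D), 3 * D * ((((Icc 1 (4 * X)).filter E)).filter (fun x => (d + i) ∣ x)).card := by
    refine sum_le_sum fun d hd => ?_
    obtain ⟨h3, h4⟩ := mem_Ico.1 hd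
    exact cntA_one X D K (d + i) h (by omega) (by omega) hh hD hX E
  have h3 : ∑ d ∈ Ico D (2 * D), 3 * D * ((((Icc 1 (4 * X)).filter E)).filter (fun x => (d + i) ∣ x)).card =
      ∑ d ∈ Ico (D + i) (2 * D + i), 3 * D * ((((Icc 1 (4 * X)).filter E)).filter (fun x => d ∣ x)).card :=
    sum_Ico_add' (fun d => 3 * D * ((((Icc 1 (4 * X)).filter E)).filter (fun x => d ∣ x)).card) D (2 * D) i
  have h4 : ∑ d ∈ Ico (D + i) (2 * D + i), 3 * D * ((((Icc 1 (4 * X)).filter E)).filter (fun x => d ∣ x)).card ≤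
      ∑ d ∈ Ico D (3 * D), 3 * D * ((((Icc 1 (4 * X)).filter E)).filter (fun x => d ∣ x)).card := by
    refine sum_le_sum_of_subset ?_
    intro d hd
    obtain ⟨h5, h6⟩ := mem_Ico.1 hd
    exact mem_Ico.2 ⟨by omega, by omega⟩
  have h5 := (h1.le.trans h2).trans (h3.le.trans h4)
  rw [← mul_sum] at h5
  exact_mod_cast h5

end Pool.Agent.Lib.MP_f6c41f_nt.RT
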