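import Pool.Agent.Lib.MP_f6c41f_nt.RT.Defs
import Pool.Agent.Lib.MP_f6c41f_nt.C7

/-!
# MP_f6c41f_nt RT: basic facts on `nrm`, `phi`, `flp`
-/

set_option autoImplicit false

namespace Pool.Agent.Lib.MP_f6c41f_nt.RT

open Finset Pool.Agent.Lib.MP_f6c41f_nt

theorem nrm_nonneg (x : ℝ) : 0 ≤ nrm x := norm_nonneg _

theorem nrm_neg (x : ℝ) : nrm (-x) = nrm x := C6_nrm_neg x

theorem nrm_int (x : ℝ) (n : ℤ) : nrm (x + n) = nrm x := C6_nrm_int x n

theorem nrm_sub_int (x : ℝ) (n : ℤ) : nrm (x - n) = nrm x := by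
  have := nrm_int x (-n)
  push_cast at this
  rw [← this]; congr 1

theorem nrm_add (x y : ℝ) : nrm (x + y) ≤ nrm x + nrm y := by
  unfold nrm; rw [AddCircle.coe_add]; exact norm_add_le _ _

theorem nrm_sub (x y : ℝ) : nrm (x - y) ≤ nrm x + nrm y := by
  rw [sub_eq_add_neg, ← nrm_neg y]; exact nrm_add _ _

theorem nrm_comm (x y : ℝ) : nrm (x - y) = nrm (y - x) := by
  rw [← nrm_neg, neg_sub]

theorem nrm_tri (x y z : ℝ) : nrm (x - z) ≤ nrm (x - y) + nrm (y - z) := by
  have := nrm_add (x - y) (y - z)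
  rwa [sub_add_sub_cancel] at this

theorem nrm_le_abs (x : ℝ) : nrm x ≤ |x| := C7_nrm_le x

theorem nrm_zero : nrm 0 = 0 := by simp [nrm]

/-- `nrm x` is attained by an integer. -/
theorem nrm_rep (x : ℝ) : ∃ z : ℤ, nrm x = |x - z| ∧ |x - z| ≤ 1 / 2 := by
  refine ⟨round x, ?_, abs_sub_round x⟩
  unfold nrm
  have := UnitAddCircle.norm_eq (x := x)
  rw [this]

theorem nrm_le_half (x : ℝ) : nrm x ≤ 1 / 2 := by
  obtain ⟨z, h1, h2⟩ := nrm_rep x
  rw [h1]; exact h2

theorem nrm_le_sub_int (x : ℝ) (z : ℤ) : nrm x ≤ |x - z| := by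
  rw [← nrm_sub_int x z]; exact nrm_le_abs _

theorem nrm_of_abs_le (x : ℝ) (h : |x| ≤ 1 / 2) : nrm x = |x| := by
  rcases abs_le.1 h with ⟨h1, h2⟩
  rcases le_total 0 x with h0 | h0
  · rw [C6_nrm_small x h0 h2, abs_of_nonneg h0]
  · rw [← nrm_neg, C6_nrm_small (-x) (by linarith) (by linarith), abs_of_nonpos h0]

theorem nrm_nat_mul_le (k : ℕ) (x : ℝ) : nrm (k * x) ≤ k * nrm x := by
  induction k with
  | zero => simp [nrm_zero]
  | succ k ih =>
    have := nrm_add (k * x) x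
    have e : ((k + 1 : ℕ) : ℝ) * x = k * x + x := by push_cast; ring
    rw [e]; push_cast; linarith

theorem nrm_nat_mul_eq (k : ℕ) (x : ℝ) (h : k * nrm x ≤ 1 / 2) : nrm (k * x) = k * nrm x := by
  obtain ⟨z, h1, _⟩ := nrm_rep x
  have e : (k : ℝ) * x = k * (x - z) + ((k * z : ℤ) : ℝ) := by push_cast; ring
  have hk : |(k : ℝ) * (x - z)| = k * nrm x := by rw [abs_mul, h1, Nat.abs_cast]
  rw [e, nrm_int, nrm_of_abs_le _ (by rw [hk]; exact h), hk]

theorem sgn_sq {e : ℝ} (he : Sgn e) : e * e = 1 := by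
  rcases he with h | h <;> rw [h] <;> norm_num

theorem sgn_mul {e e' : ℝ} (he : Sgn e) (he' : Sgn e') : Sgn (e * e') := by
  rcases he with h | h <;> rcases he' with h' | h' <;> rw [h, h'] <;> simp [Sgn]

theorem sgn_neg {e : ℝ} (he : Sgn e) : Sgn (-e) := by
  rcases he with h | h <;> rw [h] <;> simp [Sgn]

theorem sgn_one : Sgn 1 := Or.inl rfl

theorem nrm_sgn_mul {e : ℝ} (he : Sgn e) (x : ℝ) : nrm (e * x) = nrm x := by
  rcases he with h | h <;> rw [h]
  · rw [one_mul]
  · rw [neg_one_mul, nrm_neg]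

theorem nrm_sgn_two (e : ℝ) (he : Sgn e) (x : ℝ) : nrm (2 * flp e x) = nrm (2 * x) := by
  unfold flp
  rcases he with h | h <;> rw [h]
  · congr 1; ring
  · have : 2 * (-1 * x + (1 - -1) / 4) = -(2 * x) + ((1 : ℤ) : ℝ) := by push_cast; ring
    rw [this, nrm_int, nrm_neg]

theorem flp_one (x : ℝ) : flp 1 x = x := by unfold flp; ring

theorem flp_add (e t x : ℝ) : flp e (t + x) = flp e t + e * x := by unfold flp; ring

theorem flp_flp {e e' : ℝ} (x : ℝ) : flp e (flp e' x) = flp (e * e') x - (e - 1) * (e' - 1) / 4 + (1 - e) * (1 - e') / 4 := by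
  unfold flp; ring

theorem flp_mul {e e' : ℝ} (he : Sgn e) (he' : Sgn e') (x : ℝ) :
    nrm (flp e (flp e' x) - flp (e * e') x) = 0 := by
  rcases he with h | h <;> rcases he' with h' | h' <;> rw [h, h'] <;> unfold flp
  · have : 1 * (1 * x + (1 - 1) / 4) + (1 - 1) / 4 - (1 * 1 * x + (1 - 1 * 1) / 4) = 0 := by ring
    rw [this, nrm_zero]
  · have : 1 * (-1 * x + (1 - -1) / 4) + (1 - 1) / 4 - (1 * -1 * x + (1 - 1 * -1) / 4) = 0 := by ring
    rw [this, nrm_zero]
  · have : -1 * (1 * x + (1 - 1) / 4) + (1 - -1) / 4 - (-1 * 1 * x + (1 - -1 * 1) / 4) = 0 := by ring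
    rw [this, nrm_zero]
  · have : -1 * (-1 * x + (1 - -1) / 4) + (1 - -1) / 4 - (-1 * -1 * x + (1 - -1 * -1) / 4) = 0 := by ring
    rw [this, nrm_zero]

theorem flp_self {e : ℝ} (he : Sgn e) (x : ℝ) : flp e (flp e x) = x := by
  rcases he with h | h <;> rw [h] <;> unfold flp <;> ring

theorem nrm_flp_sub {e : ℝ} (he : Sgn e) (x y : ℝ) : nrm (flp e x - flp e y) = nrm (x - y) := by
  have : flp e x - flp e y = e * (x - y) := by unfold flp; ring
  rw [this, nrm_sgn_mul he]

theorem phi_int (x : ℝ) (n : ℤ) : phi (x + n) = phi x := C6_phi_int x n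

theorem phi_half (x : ℝ) : phi (x + 1 / 2) = - phi x := C7_phi_half x

theorem phi_cases' (x : ℝ) : phi x = 1 ∨ phi x = -1 := C7_phi_cases x

theorem str_int {x : ℝ} (h : Str x) (n : ℤ) : Str (x + n) := by
  intro m hm
  apply h (m - 2 * n)
  push_cast; linarith

theorem str_half {x : ℝ} (h : Str x) : Str (x + 1 / 2) := by
  intro m hm
  apply h (m - 1)
  push_cast; linarith

theorem str_neg {x : ℝ} (h : Str x) : Str (-x) := by
  intro m hm
  apply h (-m)
  push_cast; linarith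

theorem str_flp {e x : ℝ} (he : Sgn e) (h : Str x) : Str (flp e x) := by
  rcases he with h1 | h1 <;> rw [h1] <;> unfold flp
  · have : 1 * x + (1 - 1) / 4 = x := by ring
    rw [this]; exact h
  · have : -1 * x + (1 - -1) / 4 = -x + 1 / 2 := by ring
    rw [this]; exact str_half (str_neg h)

theorem phi_flp {e x : ℝ} (he : Sgn e) (h : Str x) : phi (flp e x) = phi x := by
  rcases he with h1 | h1 <;> rw [h1] <;> unfold flp
  · congr 1; ring
  · have : -1 * x + (1 - -1) / 4 = -x + 1 / 2 := by ring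
    rw [this, phi_half, C7_phi_neg x h, neg_neg]

/-- if `y` is within `w` of `t` modulo one and `t` is farther than `w` from the jumps -/
theorem phic (y t w : ℝ) (h : nrm (y - t) ≤ w) (hw : 2 * w < nrm (2 * t)) :
    phi y = phi t ∧ Str y := by
  obtain ⟨z, hz, _⟩ := nrm_rep (y - t)
  rw [hz] at h
  set d := y - t - z with hd
  have hy : y = t + d + z := by rw [hd]; ring
  have hdw := abs_le.1 h
  -- 2 t is farther than 2 w from every integer
  have h2 : ∀ m : ℤ, 2 * w < |2 * t - m| := fun m => lt_of_lt_of_le hw (nrm_le_sub_int _ m)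
  have hfl := Int.floor_le (2 * t)
  have hfl2 := Int.lt_floor_add_one (2 * t)
  set k := ⌊2 * t⌋ with hk
  have a1 := h2 k
  have a2 := h2 (k + 1)
  rw [abs_of_nonneg (by linarith)] at a1
  rw [abs_of_nonpos (by push_cast; linarith)] at a2
  push_cast at a2
  have b1 : (k : ℝ) < 2 * (t + d) := by linarith
  have b2 : 2 * (t + d) < k + 1 := by linarith
  have key : ∀ x : ℝ, (k : ℝ) ≤ 2 * x → 2 * x < k + 1 → phi x = if Even k then 1 else -1 := by
    intro x hx1 hx2
    rcases Int.even_or_odd' k with ⟨m, hm | hm⟩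
    · have hx : x = (x - m) + (m : ℤ) := by ring
      rw [hx, phi_int, C6_phi_one]
      · rw [if_pos ⟨m, by rw [hm]; ring⟩]
      · rw [hm] at hx1; push_cast at hx1; linarith
      · rw [hm] at hx2; push_cast at hx2; linarith
    · have hx : x = (x - m) + (m : ℤ) := by ring
      rw [hx, phi_int, C6_phi_neg]
      · rw [if_neg]; rw [Int.not_even_iff_odd]; exact ⟨m, hm⟩
      · rw [hm] at hx1; push_cast at hx1; linarith
      · rw [hm] at hx2; push_cast at hx2; linarith
  constructor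
  · rw [hy, phi_int, key (t + d) b1.le b2, key t hfl hfl2]
  · rw [hy]
    apply str_int
    intro m hm
    rw [hm] at b1 b2
    have c1 : k < m := by exact_mod_cast b1
    have c2 : m < k + 1 := by exact_mod_cast b2
    omega

/-- `phi` in terms of the parity of the floor of `2 x` -/
theorem phi_floor (x : ℝ) : phi x = if Even ⌊2 * x⌋ then 1 else -1 := by
  have hx1 := Int.floor_le (2 * x)
  have hx2 := Int.lt_floor_add_one (2 * x)
  set k := ⌊2 * x⌋ with hk
  rcases Int.even_or_odd' k with ⟨m, hm | hm⟩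
  · have hx : x = (x - m) + (m : ℤ) := by ring
    rw [hx, phi_int, C6_phi_one]
    · rw [if_pos ⟨m, by rw [hm]; ring⟩]
    · rw [hm] at hx1; push_cast at hx1; linarith
    · rw [hm] at hx2; push_cast at hx2; linarith
  · have hx : x = (x - m) + (m : ℤ) := by ring
    rw [hx, phi_int, C6_phi_neg]
    · rw [if_neg]; rw [Int.not_even_iff_odd]; exact ⟨m, hm⟩
    · rw [hm] at hx1; push_cast at hx1; linarith
    · rw [hm] at hx2; push_cast at hx2; linarith

theorem nd_sgn {Q : ℕ} {θ s e : ℝ} (he : Sgn e) (h : ND Q θ s) : ND Q θ (e * s) := by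
  intro q h1 h2
  have := h q h1 h2
  rw [show (q : ℝ) * (e * s) = e * (q * s) by ring, nrm_sgn_mul he]; exact this

theorem par_c_pos {L Q M : ℕ} {θ ρ c : ℝ} (P : Par L Q M θ ρ c) : 0 < c := by
  have h1 := P.hc
  have h2 : (0 : ℝ) < L := by have := P.hL; exact_mod_cast (by omega : 0 < L)
  by_contra h
  push Not at h
  nlinarith

theorem par_rho_pos {L Q M : ℕ} {θ ρ c : ℝ} (P : Par L Q M θ ρ c) : 0 < ρ := by
  have h1 := par_c_pos P
  have h2 := P.hcρ
  linarith

end Pool.Agent.Lib.MP_f6c41f_nt.RT
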