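import Pool.Agent.Lib.MP_f6c41f_nt.RT.Bld
import Pool.Agent.Lib.MP_f6c41f_nt.RT.Mec
import Pool.Agent.Lib.MP_f6c41f_nt.RT.Tool

/-!
# MP_f6c41f_nt RT, row Cow: a word without violations is coded

Proof.  `bld` and `mec` with `c = chg w` (`Σ_{i<k} chg w (b+i)`; `mec` needs `c (b + i)`) give `u, v` with
`n_j < u + j v < n_j + 1`, `n_j = Σ_{i<j} chg w i`, `j ≤ L`.  `w j = w 0 * (-1)^(n_j)` by induction (`chg w i = 0`:
`w (i+1) = w i`, otherwise `w (i+1) = - w i`).  Put `s = v/2`, `t = u/2` if `w 0 = 1`, `t = u/2 + 1/2` if `w 0 = -1`.  Then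
`2 (t + j s) = u + j v` (`+ 1`) has floor `n_j` (`+ 1`) and is not an integer; `phi_floor`.
-/

set_option autoImplicit false

namespace Pool.Agent.Lib.MP_f6c41f_nt.RT

open Finset Pool.Agent.Lib.MP_f6c41f_nt
open scoped Classical

private lemma cow_word {w : ℕ → ℝ} (hw : ∀ i, w i = 1 ∨ w i = -1) (j : ℕ) :
    w j = w 0 * (-1) ^ (∑ i ∈ range j, chg w i) := by
  induction j with
  | zero => simp
  | succ j ih =>
    rw [Finset.sum_range_succ, pow_add, ← mul_assoc, ← ih]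
    unfold chg
    split_ifs with h1
    · rw [pow_zero, mul_one, ← h1]
    · rcases hw j with h2 | h2 <;> rcases hw (j + 1) with h3 | h3 <;> rw [h2, h3] at h1 ⊢ <;>
        first | exact absurd rfl h1 | norm_num

/-- a number strictly between two consecutive integers -/
private lemma cow_between {x : ℝ} {n : ℕ} (h1 : (n : ℝ) < 2 * x) (h2 : 2 * x < (n : ℝ) + 1) :
    Str x ∧ phi x = (-1) ^ n := by
  have hfl : ⌊2 * x⌋ = (n : ℤ) := by
    rw [Int.floor_eq_iff]
    push_cast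
    exact ⟨h1.le, h2⟩
  constructor
  · intro m hm
    rw [hm] at h1 h2
    have h3 : (n : ℤ) < m := by exact_mod_cast h1
    have h4 : m < (n : ℤ) + 1 := by exact_mod_cast h2
    omega
  · rw [phi_floor, hfl]
    rcases Nat.even_or_odd n with h | h
    · rw [if_pos ((Int.even_coe_nat n).mpr h), h.neg_one_pow]
    · rw [if_neg, h.neg_one_pow]
      rw [Int.even_coe_nat, Nat.not_even_iff_odd]
      exact h

theorem cow (w : ℕ → ℝ) (hw : ∀ i, w i = 1 ∨ w i = -1) (L : ℕ)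
    (hv : ∀ k b b' : ℕ, 2 ≤ k → b + k ≤ L → b' + k ≤ L → ¬ Vio w k b b') :
    ∃ s t : ℝ, ∀ h : ℕ, h ≤ L → Str (t + h * s) ∧ w h = phi (t + h * s) := by
  obtain ⟨u, v, huv⟩ := mec (chg w) L (bld w hw L hv)
  rcases hw 0 with h0 | h0
  · refine ⟨v / 2, u / 2, fun h hh => ?_⟩
    obtain ⟨h1, h2⟩ := huv h hh
    have e : 2 * (u / 2 + h * (v / 2)) = u + h * v := by ring
    obtain ⟨h3, h4⟩ := cow_between (x := u / 2 + h * (v / 2)) (n := ∑ i ∈ range h, chg w i)
      (by rw [e]; exact h1) (by rw [e]; exact h2)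
    refine ⟨h3, ?_⟩
    rw [h4, cow_word hw h, h0, one_mul]
  · refine ⟨v / 2, u / 2 + 1 / 2, fun h hh => ?_⟩
    obtain ⟨h1, h2⟩ := huv h hh
    have e : 2 * (u / 2 + 1 / 2 + h * (v / 2)) = u + h * v + 1 := by ring
    obtain ⟨h3, h4⟩ := cow_between (x := u / 2 + 1 / 2 + h * (v / 2))
      (n := ∑ i ∈ range h, chg w i + 1)
      (by rw [e]; push_cast at h1 ⊢; linarith) (by rw [e]; push_cast at h2 ⊢; linarith)
    refine ⟨h3, ?_⟩
    rw [h4, cow_word hw h, h0, pow_succ]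
    ring

end Pool.Agent.Lib.MP_f6c41f_nt.RT
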