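import Pool.Agent.Lib.MP_f6c41f_nt.Defs

/-!
# MP_f6c41f_nt: definitions for the theorem on rates (RT)

`avg f F N` is the mean of the products of `f` over the shifts in `F`, `Hyp f B δ N` says that all
identities for at most eight shifts from `[0, B]` hold at `N` with error `δ`.
`Cod f L x s t`: the signs `f x, ..., f (x + L)` are those of `phi` at `t, t + s, ..., t + L s`, never
at a jump.  `ND Q θ s`: no multiple `q s`, `1 ≤ q ≤ Q`, is within `θ` of an integer.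
-/

set_option autoImplicit false

namespace Pool.Agent.Lib.MP_f6c41f_nt.RT

open Finset Pool.Agent.Lib.MP_f6c41f_nt
open scoped Classical

/-- A sequence of signs. -/
def Sg (f : ℕ → ℝ) : Prop := ∀ n, f n = 1 ∨ f n = -1

/-- Completely multiplicative on the positive integers. -/
def Mul (f : ℕ → ℝ) : Prop := ∀ m n : ℕ, 0 < m → 0 < n → f (m * n) = f m * f n

/-- The mean over `1 ≤ n ≤ N` of the product of `f (n + i)`, `i ∈ F`. -/
noncomputable def avg (f : ℕ → ℝ) (F : Finset ℕ) (N : ℕ) : ℝ :=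
  (1 / (N : ℝ)) * ∑ n ∈ Icc 1 N, ∏ i ∈ F, f (n + i)

/-- All identities for at most eight shifts from `[0, B]` hold at `N` with error at most `δ`. -/
def Hyp (f : ℕ → ℝ) (B : ℕ) (δ : ℝ) (N : ℕ) : Prop :=
  ∀ F : Finset ℕ, F.card ≤ 8 → (∀ i ∈ F, i ≤ B) → |avg f F N - torus F| ≤ δ

/-- `x` is not a jump of `phi`. -/
def Str (x : ℝ) : Prop := ∀ m : ℤ, 2 * x ≠ m

/-- The window of length `L` at `x` is coded by `(s, t)`. -/
def Cod (f : ℕ → ℝ) (L x : ℕ) (s t : ℝ) : Prop :=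
  ∀ h : ℕ, h ≤ L → Str (t + h * s) ∧ f (x + h) = phi (t + h * s)

/-- `s` is not close to a rational number with denominator at most `Q`. -/
def ND (Q : ℕ) (θ s : ℝ) : Prop := ∀ q : ℕ, 1 ≤ q → q ≤ Q → θ < nrm (q * s)

/-- A sign. -/
def Sgn (e : ℝ) : Prop := e = 1 ∨ e = -1

/-- The symmetry of the model: `(s, t) ↦ (-s, 1/2 - t)` for `e = -1`. -/
noncomputable def flp (e t : ℝ) : ℝ := e * t + (1 - e) / 4

/-- `x` is within `c` of `y` or of `-y` modulo one. -/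
def Near (c x y : ℝ) : Prop := ∃ e, Sgn e ∧ nrm (x - e * y) ≤ c

/-- The constants. -/
structure Par (L Q M : ℕ) (θ ρ c : ℝ) : Prop where
  hL : 100 ≤ L
  hc : c * L = 5
  hM1 : 1 ≤ M
  hM : 1 ≤ θ * (M + 1)
  hQ : 6 ≤ ρ * Q
  hMc : 4 * (M * c) ≤ ρ
  hθ : 30 * c ≤ θ
  hcρ : 100 * c ≤ ρ
  hρ : 100 * ρ ≤ 1

/-- A set `G` of good numbers with a choice of parameters. -/
structure Dat (f : ℕ → ℝ) (L Q : ℕ) (θ : ℝ) (G : Set ℕ) (s t : ℕ → ℝ) : Prop where
  sg : Sg f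
  mul : Mul f
  pos : ∀ x ∈ G, 0 < x
  cod : ∀ x ∈ G, Cod f L x (s x) (t x)
  nd : ∀ x ∈ G, ND Q θ (s x)

/-- All nodes `x / (2^i 3^j)` with `2^i 3^j ≤ Y` are good. -/
def SG (G : Set ℕ) (Y x : ℕ) : Prop := ∀ i j : ℕ, 2 ^ i * 3 ^ j ≤ Y → x / (2 ^ i * 3 ^ j) ∈ G

/-- Two blocks of length `k` whose numbers of sign changes differ by two (locally visible form). -/
def Vio (w : ℕ → ℝ) (k b b' : ℕ) : Prop :=
  w b = w (b + 1) ∧ w (b + k - 1) = w (b + k) ∧ w b' = -w (b' + 1) ∧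
    w (b' + k - 1) = -w (b' + k) ∧ w (b + 1) * w (b + k - 1) = w (b' + 1) * w (b' + k - 1)

/-- The sign change indicator. -/
noncomputable def chg (w : ℕ → ℝ) (i : ℕ) : ℕ := if w i = w (i + 1) then 0 else 1

/-- The number of divisors of `x` in `[D, 3 D)`. -/
def tau (D x : ℕ) : ℕ := ((Ico D (3 * D)).filter (· ∣ x)).card

end Pool.Agent.Lib.MP_f6c41f_nt.RT
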