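import Pool.Agent.Lib.MP_f6c41f_nt.RT.Dir

/-!
# MP_f6c41f_nt RT, row Den1: orbits of a nondegenerate rotation hit every arc of length `3/Q`

Proof.  `dir` gives `q > Q`, `q ≤ M`, `p` coprime to `q`, `|s - p/q| ≤ 1/(q (M+1))`.  Let `k` be the
integer with `t + k/q ∈ [x + 1/q, x + 2/q)` (`k = ⌈q (x - t)⌉ + 1`).  As `p` is a unit modulo `q` there is
`h ∈ {1, ..., q}` with `q ∣ h p - k`, say `h p = k + q m'`.  Then
`t + h s - m' = t + k/q + h (s - p/q)` and `|h (s - p/q)| ≤ 1/(M+1) < 1/q`, so it lies in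
`(x, x + 3/q) ⊆ (x, x + w)`, because `3 ≤ w Q` and `Q < q` give `3/q < w`.
-/

set_option autoImplicit false

namespace Pool.Agent.Lib.MP_f6c41f_nt.RT

open Finset Pool.Agent.Lib.MP_f6c41f_nt
open scoped Classical

theorem den1 (Q M : ℕ) (θ s : ℝ) (hnd : ND Q θ s) (hM1 : 1 ≤ M) (hM : 1 ≤ θ * (M + 1)) (w : ℝ)
    (hw : 3 ≤ w * Q) (t x : ℝ) :
    ∃ h : ℕ, 1 ≤ h ∧ h ≤ M ∧ ∃ m : ℤ, x < t + h * s + m ∧ t + h * s + m < x + w := by
  obtain ⟨q, p, hQq, hq1, hqM, hcop, hs⟩ := dir Q M θ s hnd hM1 hM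
  have hq0 : (0 : ℝ) < q := by exact_mod_cast hq1
  have hqz : (0 : ℤ) < (q : ℤ) := by exact_mod_cast hq1
  -- the target numerator
  obtain ⟨k, hk1, hk2⟩ : ∃ k : ℤ, (q : ℝ) * (x - t) + 1 ≤ k ∧ (k : ℝ) < q * (x - t) + 2 := by
    refine ⟨⌈(q : ℝ) * (x - t)⌉ + 1, ?_, ?_⟩
    · push_cast
      have := Int.le_ceil ((q : ℝ) * (x - t))
      linarith
    · push_cast
      have := Int.ceil_lt_add_one ((q : ℝ) * (x - t))
      linarith
  obtain ⟨u, v, huv⟩ := hcop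
  have hr0 : 0 ≤ (u * k - 1) % (q : ℤ) := Int.emod_nonneg _ hqz.ne'
  have hr1 : (u * k - 1) % (q : ℤ) < q := Int.emod_lt_of_pos _ hqz
  obtain ⟨r, hr⟩ : ∃ r : ℕ, (r : ℤ) = (u * k - 1) % (q : ℤ) :=
    ⟨((u * k - 1) % (q : ℤ)).toNat, Int.toNat_of_nonneg hr0⟩
  have hrq : r < q := by
    have : (r : ℤ) < q := by rw [hr]; exact hr1
    exact_mod_cast this
  have hdvd : ∃ m' : ℤ, ((r + 1 : ℕ) : ℤ) * p = k + q * m' := by
    have h1 := Int.emod_add_mul_ediv (u * k - 1) (q : ℤ)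
    rw [← hr] at h1
    refine ⟨-(p * ((u * k - 1) / (q : ℤ))) - v * k, ?_⟩
    push_cast
    linear_combination p * h1 + k * huv
  obtain ⟨m', hm'⟩ := hdvd
  refine ⟨r + 1, by omega, by omega, -m', ?_⟩
  have hm'' : (((r + 1 : ℕ) : ℝ)) * p = k + q * m' := by exact_mod_cast hm'
  have hE : t + ((r + 1 : ℕ) : ℝ) * s + ((-m' : ℤ) : ℝ) =
      t + k / q + ((r + 1 : ℕ) : ℝ) * (s - p / q) := by
    push_cast at hm'' ⊢
    field_simp
    linear_combination hm''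
  have hle : ((r + 1 : ℕ) : ℝ) ≤ q := by exact_mod_cast hrq
  have hMp : (0 : ℝ) < (M : ℝ) + 1 := by positivity
  have hqM' : (q : ℝ) ≤ M := by exact_mod_cast hqM
  have herr : |((r + 1 : ℕ) : ℝ) * (s - p / q)| ≤ 1 / (M + 1) := by
    rw [abs_mul, abs_of_nonneg (by positivity)]
    calc ((r + 1 : ℕ) : ℝ) * |s - p / q| ≤ q * (1 / (q * (M + 1))) := by
          apply mul_le_mul hle hs (abs_nonneg _) hq0.le
      _ = 1 / (M + 1) := by field_simp
  have hlt : 1 / ((M : ℝ) + 1) < 1 / q := by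
    apply one_div_lt_one_div_of_lt hq0
    linarith
  obtain ⟨e1, e2⟩ := abs_le.1 herr
  have hk1' : x - t + 1 / q ≤ k / q := by
    rw [le_div_iff₀ hq0]
    have : (x - t + 1 / q) * q = q * (x - t) + 1 := by field_simp
    linarith
  have hk2' : (k : ℝ) / q < x - t + 2 / q := by
    rw [div_lt_iff₀ hq0]
    have : (x - t + 2 / q) * q = q * (x - t) + 2 := by field_simp
    linarith
  have hQ0 : (0 : ℝ) ≤ Q := Nat.cast_nonneg Q
  have hQq' : (Q : ℝ) < q := by exact_mod_cast hQq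
  have hw0 : 0 < w := by
    by_contra hcon
    have : w ≤ 0 := not_lt.1 hcon
    nlinarith [mul_nonneg (neg_nonneg.2 this) hQ0]
  have h3 : 3 / (q : ℝ) < w := by
    rw [div_lt_iff₀ hq0]
    nlinarith [mul_lt_mul_of_pos_left hQq' hw0]
  have h32 : 3 / (q : ℝ) = 2 / q + 1 / q := by ring
  rw [hE]
  constructor
  · linarith
  · linarith

end Pool.Agent.Lib.MP_f6c41f_nt.RT
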