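import Pool.Agent.Lib.MP_f6c41f_nt.RT.Tool

/-!
# MP_f6c41f_nt RT: Dirichlet approximation of a nondegenerate number
-/

set_option autoImplicit false

namespace Pool.Agent.Lib.MP_f6c41f_nt.RT

open Finset Pool.Agent.Lib.MP_f6c41f_nt

theorem dir (Q M : ℕ) (θ s : ℝ) (hnd : ND Q θ s) (hM1 : 1 ≤ M) (hM : 1 ≤ θ * (M + 1)) :
    ∃ q : ℕ, ∃ p : ℤ, Q < q ∧ 1 ≤ q ∧ q ≤ M ∧ IsCoprime p (q : ℤ) ∧
      |s - p / q| ≤ 1 / (q * (M + 1)) := by
  obtain ⟨x, hx1, hx2⟩ := Real.exists_rat_abs_sub_le_and_den_le s (n := M) (by omega)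
  have hq : 1 ≤ x.den := x.den_pos
  have hq' : (0 : ℝ) < x.den := by exact_mod_cast hq
  have hcast : (x : ℝ) = (x.num : ℝ) / (x.den : ℝ) := by
    rw [Rat.cast_def]
  refine ⟨x.den, x.num, ?_, hq, hx2, ?_, ?_⟩
  · by_contra h
    push Not at h
    have h1 := hnd x.den hq h
    have h2 : nrm ((x.den : ℝ) * s) ≤ 1 / (M + 1) := by
      refine le_trans (nrm_le_sub_int _ x.num) ?_
      have e : (x.den : ℝ) * s - (x.num : ℤ) = x.den * (s - x) := by
        rw [hcast]; field_simp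
      rw [e, abs_mul, abs_of_pos hq']
      calc (x.den : ℝ) * |s - x| ≤ x.den * (1 / ((M + 1) * x.den)) := by
            apply mul_le_mul_of_nonneg_left hx1 hq'.le
        _ = 1 / (M + 1) := by field_simp
    have h3 : 1 / ((M : ℝ) + 1) ≤ θ := by
      rw [div_le_iff₀ (by positivity)]; exact hM
    linarith
  · rw [Int.isCoprime_iff_gcd_eq_one]
    have := x.reduced
    rw [Int.gcd_eq_natAbs]; simpa using this
  · rw [← hcast]
    calc |s - x| ≤ 1 / ((M + 1) * x.den) := hx1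
      _ = 1 / (x.den * (M + 1)) := by rw [mul_comm]

end Pool.Agent.Lib.MP_f6c41f_nt.RT
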