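import Pool.Agent.Lib.MP_f6c41f_nt.RT.Defs

/-!
# MP_f6c41f_nt RT, row Div: second moment of the divisor function of an interval

Proof.  `Σ_{x ≤ Z} tau(x)^2 = Σ_{d,d' ∈ [D,3D)} #{x ≤ Z : d ∣ x, d' ∣ x} ≤ Σ_{d,d'} Z / lcm(d,d')
= Z Σ gcd(d,d')/(d d') ≤ (Z/D^2) Σ_{d,d' < 3D} gcd(d,d')`, and
`Σ_{d,d' ∈ [D,3D)} gcd(d,d') ≤ Σ_{1 ≤ g < 3D} g #{d ∈ [1,3D) : g ∣ d}^2 ≤ Σ_{g < 3D} g (3D/g)^2 = 9 D^2 Σ_{g<3D} 1/g
≤ 9 D^2 (1 + log (3D))` (`harmonic_le_one_add_log`).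
-/

set_option autoImplicit false

namespace Pool.Agent.Lib.MP_f6c41f_nt.RT

open Finset Pool.Agent.Lib.MP_f6c41f_nt
open scoped Classical

/-- multiples of `m` up to `n` -/
theorem div_cnt (n m : ℕ) : ∑ x ∈ Icc 1 n, (if m ∣ x then (1 : ℝ) else 0) ≤ n / m := by
  have h1 : (Icc 1 n).filter (fun x => m ∣ x) = (Ioc 0 n).filter (fun x => m ∣ x) := by
    ext x
    simp only [mem_filter, mem_Icc, mem_Ioc]
    constructor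
    · rintro ⟨⟨h, h'⟩, h''⟩; exact ⟨⟨by omega, h'⟩, h''⟩
    · rintro ⟨⟨h, h'⟩, h''⟩; exact ⟨⟨by omega, h'⟩, h''⟩
  rw [← sum_filter, sum_const, nsmul_eq_mul, mul_one, h1]
  have h2 := Nat.Ioc_filter_dvd_card_eq_div n m
  have h3 : ((Ioc 0 n).filter (fun x => m ∣ x)).card = n / m := by
    rw [← h2]
  rw [h3]
  exact Nat.cast_div_le

theorem div_gcd (n : ℕ) :
    ∑ d ∈ Icc 1 n, ∑ d' ∈ Icc 1 n, ((Nat.gcd d d' : ℕ) : ℝ) ≤ (n : ℝ) ^ 2 * (1 + Real.log n) := by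
  have h1 : ∀ d ∈ Icc 1 n, ∀ d' ∈ Icc 1 n, ((Nat.gcd d d' : ℕ) : ℝ) ≤
      ∑ g ∈ Icc 1 n, (g : ℝ) * ((if g ∣ d then (1 : ℝ) else 0) * (if g ∣ d' then (1 : ℝ) else 0)) := by
    intro d hd d' hd'
    rw [mem_Icc] at hd hd'
    have hg : Nat.gcd d d' ∈ Icc 1 n := by
      rw [mem_Icc]
      exact ⟨Nat.gcd_pos_of_pos_left _ (by omega), (Nat.gcd_le_left _ (by omega)).trans hd.2⟩
    refine le_trans ?_ (single_le_sum (f := fun g : ℕ =>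
      (g : ℝ) * ((if g ∣ d then (1 : ℝ) else 0) * (if g ∣ d' then (1 : ℝ) else 0))) ?_ hg)
    · simp [Nat.gcd_dvd_left, Nat.gcd_dvd_right]
    · intro g _
      positivity
  have h2 : ∑ d ∈ Icc 1 n, ∑ d' ∈ Icc 1 n, ((Nat.gcd d d' : ℕ) : ℝ) ≤
      ∑ d ∈ Icc 1 n, ∑ d' ∈ Icc 1 n, ∑ g ∈ Icc 1 n,
        (g : ℝ) * ((if g ∣ d then (1 : ℝ) else 0) * (if g ∣ d' then (1 : ℝ) else 0)) :=
    sum_le_sum fun d hd => sum_le_sum fun d' hd' => h1 d hd d' hd'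
  refine h2.trans ?_
  have h3 : ∑ d ∈ Icc 1 n, ∑ d' ∈ Icc 1 n, ∑ g ∈ Icc 1 n,
        (g : ℝ) * ((if g ∣ d then (1 : ℝ) else 0) * (if g ∣ d' then (1 : ℝ) else 0)) =
      ∑ g ∈ Icc 1 n, (g : ℝ) * ((∑ d ∈ Icc 1 n, if g ∣ d then (1 : ℝ) else 0) *
        ∑ d ∈ Icc 1 n, if g ∣ d then (1 : ℝ) else 0) := by
    have h4 : ∀ g ∈ Icc 1 n, (g : ℝ) * ((∑ d ∈ Icc 1 n, if g ∣ d then (1 : ℝ) else 0) *
        ∑ d ∈ Icc 1 n, if g ∣ d then (1 : ℝ) else 0) = ∑ d ∈ Icc 1 n, ∑ d' ∈ Icc 1 n,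
        (g : ℝ) * ((if g ∣ d then (1 : ℝ) else 0) * (if g ∣ d' then (1 : ℝ) else 0)) := by
      intro g _
      rw [sum_mul_sum, mul_sum]
      exact sum_congr rfl fun d _ => mul_sum _ _ _
    rw [sum_congr rfl h4]
    exact (sum_congr rfl fun d _ => sum_comm).trans sum_comm
  rw [h3]
  have h5 : ∀ g ∈ Icc 1 n, (g : ℝ) * ((∑ d ∈ Icc 1 n, if g ∣ d then (1 : ℝ) else 0) *
        ∑ d ∈ Icc 1 n, if g ∣ d then (1 : ℝ) else 0) ≤ (n : ℝ) ^ 2 * (g : ℝ)⁻¹ := by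
    intro g hg
    rw [mem_Icc] at hg
    have hg0 : (0 : ℝ) < g := by exact_mod_cast hg.1
    have h6 := div_cnt n g
    have h7 : (0 : ℝ) ≤ ∑ d ∈ Icc 1 n, (if g ∣ d then (1 : ℝ) else 0) :=
      sum_nonneg fun _ _ => by positivity
    calc (g : ℝ) * ((∑ d ∈ Icc 1 n, if g ∣ d then (1 : ℝ) else 0) *
        ∑ d ∈ Icc 1 n, if g ∣ d then (1 : ℝ) else 0)
        ≤ g * ((n / g) * (n / g)) :=
          mul_le_mul_of_nonneg_left (mul_le_mul h6 h6 h7 (by positivity)) hg0.le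
      _ = (n : ℝ) ^ 2 * (g : ℝ)⁻¹ := by field_simp
  refine (sum_le_sum h5).trans ?_
  rw [← mul_sum]
  refine mul_le_mul_of_nonneg_left ?_ (by positivity)
  have h8 := harmonic_le_one_add_log n
  have h9 : ((harmonic n : ℚ) : ℝ) = ∑ g ∈ Icc 1 n, (g : ℝ)⁻¹ := by
    rw [harmonic_eq_sum_Icc]
    push_cast
    rfl
  rw [h9] at h8
  exact h8

theorem div2 (D Z : ℕ) (hD : 1 ≤ D) :
    ∑ x ∈ Icc 1 Z, ((tau D x : ℕ) : ℝ) ^ 2 ≤ 9 * Z * (1 + Real.log (3 * D)) := by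
  have hD0 : (0 : ℝ) < D := by exact_mod_cast hD
  have h1 : ∀ x, ((tau D x : ℕ) : ℝ) ^ 2 = ∑ d ∈ Ico D (3 * D), ∑ d' ∈ Ico D (3 * D),
      (if Nat.lcm d d' ∣ x then (1 : ℝ) else 0) := by
    intro x
    unfold tau
    rw [card_filter, sq]
    push_cast
    rw [sum_mul_sum]
    refine sum_congr rfl fun d _ => sum_congr rfl fun d' _ => ?_
    by_cases hd : d ∣ x
    · by_cases hd' : d' ∣ x
      · simp [hd, hd', Nat.lcm_dvd hd hd']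
      · have : ¬ Nat.lcm d d' ∣ x := fun h => hd' ((Nat.dvd_lcm_right d d').trans h)
        simp [hd, hd', this]
    · have : ¬ Nat.lcm d d' ∣ x := fun h => hd ((Nat.dvd_lcm_left d d').trans h)
      simp [hd, this]
  rw [sum_congr rfl fun x _ => h1 x, sum_comm]
  have h2 : ∀ d ∈ Ico D (3 * D), ∑ x ∈ Icc 1 Z, ∑ d' ∈ Ico D (3 * D),
      (if Nat.lcm d d' ∣ x then (1 : ℝ) else 0) ≤
      ∑ d' ∈ Ico D (3 * D), (Z : ℝ) / (D : ℝ) ^ 2 * ((Nat.gcd d d' : ℕ) : ℝ) := by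
    intro d hd
    rw [sum_comm]
    refine sum_le_sum fun d' hd' => ?_
    rw [mem_Ico] at hd hd'
    refine (div_cnt Z (Nat.lcm d d')).trans ?_
    have h3 : (Nat.gcd d d' : ℝ) * (Nat.lcm d d' : ℝ) = (d : ℝ) * d' := by
      exact_mod_cast Nat.gcd_mul_lcm d d'
    have hd1 : (D : ℝ) ≤ d := by exact_mod_cast hd.1
    have hd2 : (D : ℝ) ≤ d' := by exact_mod_cast hd'.1
    have hl : (0 : ℝ) < (Nat.lcm d d' : ℝ) := by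
      exact_mod_cast Nat.lcm_pos (by omega) (by omega)
    rw [div_mul_eq_mul_div, div_le_div_iff₀ hl (by positivity)]
    have h4 : (D : ℝ) ^ 2 ≤ (Nat.gcd d d' : ℝ) * (Nat.lcm d d' : ℝ) := by
      rw [h3, sq]
      exact mul_le_mul hd1 hd2 hD0.le (by positivity)
    calc (Z : ℝ) * (D : ℝ) ^ 2 ≤ Z * ((Nat.gcd d d' : ℝ) * (Nat.lcm d d' : ℝ)) :=
          mul_le_mul_of_nonneg_left h4 (by positivity)
      _ = Z * (Nat.gcd d d' : ℝ) * (Nat.lcm d d' : ℝ) := by ring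
  refine (sum_le_sum h2).trans ?_
  have h3 : ∑ d ∈ Ico D (3 * D), ∑ d' ∈ Ico D (3 * D), (Z : ℝ) / (D : ℝ) ^ 2 * ((Nat.gcd d d' : ℕ) : ℝ) =
      (Z : ℝ) / (D : ℝ) ^ 2 * ∑ d ∈ Ico D (3 * D), ∑ d' ∈ Ico D (3 * D), ((Nat.gcd d d' : ℕ) : ℝ) := by
    rw [mul_sum]
    exact sum_congr rfl fun d _ => (mul_sum _ _ _).symm
  rw [h3]
  have hsub : Ico D (3 * D) ⊆ Icc 1 (3 * D) := by
    intro x hx
    rw [mem_Ico] at hx
    rw [mem_Icc]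
    omega
  have h4 : ∑ d ∈ Ico D (3 * D), ∑ d' ∈ Ico D (3 * D), ((Nat.gcd d d' : ℕ) : ℝ) ≤
      ∑ d ∈ Icc 1 (3 * D), ∑ d' ∈ Icc 1 (3 * D), ((Nat.gcd d d' : ℕ) : ℝ) := by
    refine (sum_le_sum fun d _ => sum_le_sum_of_subset_of_nonneg hsub fun _ _ _ => by positivity).trans ?_
    exact sum_le_sum_of_subset_of_nonneg hsub fun _ _ _ => sum_nonneg fun _ _ => by positivity
  have h5 := div_gcd (3 * D)
  push_cast at h5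
  calc (Z : ℝ) / (D : ℝ) ^ 2 * ∑ d ∈ Ico D (3 * D), ∑ d' ∈ Ico D (3 * D), ((Nat.gcd d d' : ℕ) : ℝ)
      ≤ (Z : ℝ) / (D : ℝ) ^ 2 * ((3 * D : ℝ) ^ 2 * (1 + Real.log (3 * D))) :=
        mul_le_mul_of_nonneg_left (h4.trans h5) (by positivity)
    _ = 9 * Z * (1 + Real.log (3 * D)) := by
        field_simp
        ring

end Pool.Agent.Lib.MP_f6c41f_nt.RT
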