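import Pool.Agent.Lib.MP_f6c41f_nt.RT.Tool

/-!
# MP_f6c41f_nt RT, row RigS: the frequency is determined by the number of sign changes

Proof.  First the symmetry: by `nrm_rep` there are an integer `z` and a sign `e1` with
`s1 := e1 * s + z ∈ [0, 1/2]`; with `t1 := flp e1 t` one has `flp e1 (t + h s) + h z = t1 + h s1`, so by
`phi_flp`, `phi_int` (and `str_flp`, `str_int`) the word `phi (t1 + h s1)` is the same word.  Same for
`(s', t')`: `s1' = e2 * s' + z'`, `t1'`.  So assume `s1, s1' ∈ [0, 1/2]`.  By `phi_floor`,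
`phi x = 1` iff `⌊2x⌋` is even.  For `s1 ∈ [0, 1/2]` the floor `⌊2 (t1 + h s1)⌋` grows by `0` or `1` from `h`
to `h + 1`, so `phi (t1 + h s1) ≠ phi (t1 + (h+1) s1)` iff it grows by `1`.  Hence the number of `h`, `1 ≤ h < H`,
with a sign change is `⌊2 (t1 + H s1)⌋ - ⌊2 (t1 + s1)⌋` (induction on `H`), which differs from
`2 (H - 1) s1` by less than `1`.  The same number belongs to `s1'`; so `|2 (H - 1) (s1 - s1')| < 2` and
`|s1 - s1'| ≤ 1/(H - 1)`.  With `e = e2 * e1`: `nrm (s' - e s) = nrm (e2 s' - e1 s) ≤ |s1' - s1|`.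
-/

set_option autoImplicit false

namespace Pool.Agent.Lib.MP_f6c41f_nt.RT

open Finset Pool.Agent.Lib.MP_f6c41f_nt
open scoped Classical

/-- normalization of the frequency -/
private theorem rigS_norm (s t : ℝ) : ∃ (e : ℝ) (z : ℤ), Sgn e ∧ 0 ≤ e * s + z ∧ e * s + z ≤ 1 / 2 ∧
    ∀ h : ℕ, Str (t + h * s) → phi (flp e t + h * (e * s + z)) = phi (t + h * s) := by
  have hphi : ∀ (e : ℝ) (z : ℤ), Sgn e → ∀ h : ℕ, Str (t + h * s) →
      phi (flp e t + h * (e * s + z)) = phi (t + h * s) := by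
    intro e z he h hs
    have h1 : flp e t + h * (e * s + z) = flp e (t + h * s) + (((h : ℤ) * z : ℤ) : ℝ) := by
      rw [flp_add]
      push_cast
      ring
    rw [h1, phi_int, phi_flp he hs]
  obtain ⟨z, _, hz⟩ := nrm_rep s
  obtain ⟨hz1, hz2⟩ := abs_le.mp hz
  rcases le_total 0 (s - z) with h0 | h0
  · refine ⟨1, -z, Or.inl rfl, ?_, ?_, hphi 1 (-z) (Or.inl rfl)⟩
    · push_cast
      linarith
    · push_cast
      linarith
  · refine ⟨-1, z, Or.inr rfl, ?_, ?_, hphi (-1) z (Or.inr rfl)⟩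
    · linarith
    · linarith

/-- one step of the floor -/
private theorem rigS_step (a b a' b' : ℝ) (hab : a ≤ b) (hab1 : b ≤ a + 1 / 2) (hab' : a' ≤ b')
    (hab1' : b' ≤ a' + 1 / 2) (h1 : phi a = phi a') (h2 : phi b = phi b') :
    ⌊2 * b⌋ - ⌊2 * a⌋ = ⌊2 * b'⌋ - ⌊2 * a'⌋ := by
  have key : ∀ x y : ℝ, x ≤ y → y ≤ x + 1 / 2 → (⌊2 * y⌋ = ⌊2 * x⌋ ∨ ⌊2 * y⌋ = ⌊2 * x⌋ + 1) := by
    intro x y hx hy
    have h3 : ⌊2 * x⌋ ≤ ⌊2 * y⌋ := Int.floor_le_floor (by linarith)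
    have h4 : ⌊2 * y⌋ ≤ ⌊2 * x⌋ + 1 := by
      have : ⌊2 * y⌋ ≤ ⌊2 * x + 1⌋ := Int.floor_le_floor (by linarith)
      rwa [Int.floor_add_one] at this
    omega
  have hpar : ∀ x y : ℝ, phi x = phi y → (Even ⌊2 * x⌋ ↔ Even ⌊2 * y⌋) := by
    intro x y hxy
    rw [phi_floor x, phi_floor y] at hxy
    by_cases hx : Even ⌊2 * x⌋ <;> by_cases hy : Even ⌊2 * y⌋
    · exact ⟨fun _ => hy, fun _ => hx⟩
    · rw [if_pos hx, if_neg hy] at hxy
      norm_num at hxy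
    · rw [if_neg hx, if_pos hy] at hxy
      norm_num at hxy
    · exact ⟨fun h => absurd h hx, fun h => absurd h hy⟩
  have p1 := hpar _ _ h1
  have p2 := hpar _ _ h2
  have k1 := key a b hab hab1
  have k2 := key a' b' hab' hab1'
  rw [Int.even_iff, Int.even_iff] at p1 p2
  omega

theorem rigS (H : ℕ) (hH : 2 ≤ H) (s t s' t' : ℝ)
    (h : ∀ h : ℕ, 1 ≤ h → h ≤ H →
      Str (t + h * s) ∧ Str (t' + h * s') ∧ phi (t + h * s) = phi (t' + h * s')) :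
    ∃ e, Sgn e ∧ nrm (s' - e * s) ≤ 1 / ((H : ℝ) - 1) := by
  obtain ⟨e1, z1, he1, hs0, hs1, hw⟩ := rigS_norm s t
  obtain ⟨e2, z2, he2, hs0', hs1', hw'⟩ := rigS_norm s' t'
  set σ := e1 * s + z1 with hσ
  set σ' := e2 * s' + z2 with hσ'
  set τ := flp e1 t with hτ
  set τ' := flp e2 t' with hτ'
  have hsum : ∀ k : ℕ, k + 1 ≤ H →
      ⌊2 * (τ + ((k + 1 : ℕ) : ℝ) * σ)⌋ - ⌊2 * (τ + ((1 : ℕ) : ℝ) * σ)⌋ =
        ⌊2 * (τ' + ((k + 1 : ℕ) : ℝ) * σ')⌋ - ⌊2 * (τ' + ((1 : ℕ) : ℝ) * σ')⌋ := by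
    intro k
    induction k with
    | zero => intro _; simp
    | succ k ih =>
      intro hk
      have ih' := ih (by omega)
      have g1 := h (k + 1) (by omega) (by omega)
      have g2 := h (k + 1 + 1) (by omega) hk
      have st := rigS_step (τ + ((k + 1 : ℕ) : ℝ) * σ) (τ + ((k + 1 + 1 : ℕ) : ℝ) * σ)
        (τ' + ((k + 1 : ℕ) : ℝ) * σ') (τ' + ((k + 1 + 1 : ℕ) : ℝ) * σ')
        (by push_cast; nlinarith) (by push_cast; nlinarith) (by push_cast; nlinarith)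
        (by push_cast; nlinarith)
        (by rw [hw _ g1.1, hw' _ g1.2.1]; exact g1.2.2)
        (by rw [hw _ g2.1, hw' _ g2.2.1]; exact g2.2.2)
      linarith
  have hH1 : H - 1 + 1 = H := by omega
  have hfin := hsum (H - 1) (by omega)
  rw [hH1] at hfin
  have hHr : (2 : ℝ) ≤ H := by exact_mod_cast hH
  have hfinr : ((⌊2 * (τ + (H : ℝ) * σ)⌋ : ℤ) : ℝ) - ((⌊2 * (τ + ((1 : ℕ) : ℝ) * σ)⌋ : ℤ) : ℝ) =
      ((⌊2 * (τ' + (H : ℝ) * σ')⌋ : ℤ) : ℝ) - ((⌊2 * (τ' + ((1 : ℕ) : ℝ) * σ')⌋ : ℤ) : ℝ) := by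
    exact_mod_cast hfin
  have a1 := Int.floor_le (2 * (τ + (H : ℝ) * σ))
  have a2 := Int.lt_floor_add_one (2 * (τ + (H : ℝ) * σ))
  have b1 := Int.floor_le (2 * (τ + ((1 : ℕ) : ℝ) * σ))
  have b2 := Int.lt_floor_add_one (2 * (τ + ((1 : ℕ) : ℝ) * σ))
  have c1 := Int.floor_le (2 * (τ' + (H : ℝ) * σ'))
  have c2 := Int.lt_floor_add_one (2 * (τ' + (H : ℝ) * σ'))
  have d1 := Int.floor_le (2 * (τ' + ((1 : ℕ) : ℝ) * σ'))
  have d2 := Int.lt_floor_add_one (2 * (τ' + ((1 : ℕ) : ℝ) * σ'))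
  push_cast at hfinr a1 a2 b1 b2 c1 c2 d1 d2
  have habs : |σ' - σ| ≤ 1 / ((H : ℝ) - 1) := by
    rw [le_div_iff₀ (by linarith)]
    rcases abs_cases (σ' - σ) with ⟨hc, _⟩ | ⟨hc, _⟩ <;> rw [hc] <;> nlinarith
  refine ⟨e2 * e1, sgn_mul he2 he1, ?_⟩
  have h5 : nrm (s' - e2 * e1 * s) = nrm (σ' - σ) := by
    rw [← nrm_sgn_mul he2 (s' - e2 * e1 * s)]
    have h6 : e2 * (s' - e2 * e1 * s) = (σ' - σ) + ((z1 - z2 : ℤ) : ℝ) := by
      have := sgn_sq he2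
      rw [hσ, hσ']
      push_cast
      linear_combination (-(e1 * s)) * this
    rw [h6, nrm_int]
  rw [h5]
  exact (nrm_le_abs _).trans habs

end Pool.Agent.Lib.MP_f6c41f_nt.RT
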