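import Pool.Agent.Lib.MP_f6c41f_nt.RT.T4
import Pool.Agent.Lib.MP_f6c41f_nt.RT.RigS

/-!
# MP_f6c41f_nt RT, row Fin: the contradiction

Write `d_i = d + i`, `m_i = n/d_i + 1`, `a(i,h) = d_i (m_i + h)` (`i < 3`, `h ≤ K`), `η = (6 + 5 log2 Y) ρ`.
(1) All of `n`, `a(i,h)` lie in `[n, n + (K+1)(d+2)]`; so for `y ≤ Y < 4 y` the quotients by `y` differ by at most
`(K+1)(d+2)/y + 1 ≤ G0` (`hGt`).  `cls` (`i = j = 0`) for `(n, a)`: signs `e(a)` with `nrm (e(a) s(a) - s(n)) ≤ c`, so for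
two such points `nrm (e(a) s(a) - e(a') s(a')) ≤ 2 c`; by `cls` for the pair `(a, a')` and `ND` with `q = 2` (if
the sign were the other one then `nrm (2 s(a)) ≤ 3 c < θ`) it is `≤ c`: the hypothesis `hc` of `t4` holds for `e`.
Put `T(a) = flp e(a) (t(a))`, `α_i = T(a(i,0))`, `β_i = T(a(i,1)) - T(a(i,0))`.
(2) `t4` for `(a(i,h+1), a(i,h), a(i,1), a(i,0))`, `κ = 0`: `nrm (T(a(i,h+1)) - T(a(i,h)) - β_i) ≤ η`; so
`nrm (T(a(i,h)) - (α_i + h β_i)) ≤ h η ≤ K η ≤ w`.  `t4` for `(a(j,1), a(j,0), a(i,1), a(i,0))`, `κ = j - i`, `i < j ≤ 2`: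
`nrm (β_j - β_i - (j - i) e s(a)) ≤ η` with `e s(a)` within `c` of `s(n)`.
(3) `2 w < nrm (2 t(a)) = nrm (2 T(a))` (`nrm_sgn_two`), so by `phic` `phi (α_i + h β_i) = phi (T(a(i,h)))`, strict,
`= phi (t(a(i,h))) = f (a(i,h)) = f d_i * f (m_i + h)` (`phi_flp`, `Cod` at `h = 0`, `Mul`).  And
`f (m_i + h) = phi (t(m_i) + h s(m_i))`.  With `κ_i = (1 - f d_i)/4`: the words `α_i + κ_i + h β_i` and
`t(m_i) + h s(m_i)`, `1 ≤ h ≤ K`, agree; `rigS`: `nrm (β_i - e s(m_i)) ≤ 1/(K-1)` for a sign `e`.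
(4) `cls` for `(m_0, m_i)` with `Ym` (`hGm`): `Near c (s(m_i)) (s(m_0))`.  So `nrm (β_i - g_i s(m_0)) ≤ 1/(K-1) + c` with
signs `g_0, g_1, g_2`; two of them are equal, `g_i = g_j`, `i < j`: `nrm (β_j - β_i) ≤ 2/(K-1) + 2 c`, so
`nrm ((j - i) s(n)) ≤ 2/(K-1) + 2 c + η + 2 c`, and for `j - i ∈ {1, 2}`:
`nrm (2 s(n)) ≤ 2 (2/(K-1) + 4 c + η)`.  As `K ≥ 40`, `η ≤ w/K ≤ 1/K`, `c ≤ ρ/100 ≤ η/600`: this is
`≤ 4/(K-1) + 2/K + 8/(600 K) < 8/K`, contradiction to `hgen`.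
-/

set_option autoImplicit false

namespace Pool.Agent.Lib.MP_f6c41f_nt.RT

open Finset Pool.Agent.Lib.MP_f6c41f_nt
open scoped Classical

private theorem fin_div {x x' B G0 Y y : ℕ} (hx : x ≤ x' + B) (hB : 4 * B + Y ≤ G0 * Y)
    (hy : Y < 4 * y) : ((x / y : ℕ) : ℤ) - ((x' / y : ℕ) : ℤ) ≤ G0 := by
  have hy0 : 0 < y := by omega
  have h1 : 4 * B ≤ 4 * (G0 * y) := by
    calc 4 * B ≤ G0 * Y := by omega
      _ ≤ G0 * (4 * y) := Nat.mul_le_mul_left _ hy.le
      _ = 4 * (G0 * y) := by ring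
  have h2 : x / y ≤ x' / y + G0 := by
    calc x / y ≤ (x' + G0 * y) / y := Nat.div_le_div_right (by omega)
      _ = x' / y + G0 := Nat.add_mul_div_right _ _ hy0
  omega

private theorem fin_sgn {a b v e e' g c θ : ℝ} (he : Sgn e) (he' : Sgn e') (hg : Sgn g)
    (h1 : nrm (e * a - v) ≤ c) (h2 : nrm (e' * b - v) ≤ c) (h3 : nrm (a - g * b) ≤ c)
    (hθ : 30 * c ≤ θ) (hc : 0 < c) (hnd : θ < nrm (2 * b)) : nrm (e * a - e' * b) ≤ c := by
  have h4 : nrm (e * a - e * g * b) ≤ c := by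
    rw [← nrm_sgn_mul he] at h3
    rwa [show e * (a - g * b) = e * a - e * g * b by ring] at h3
  have h5 : nrm (e * a - e' * b) ≤ 2 * c := by
    have := nrm_tri (e * a) v (e' * b)
    rw [nrm_comm v] at this
    linarith
  by_cases hE : e * g = e'
  · rw [← hE]
    exact h4
  · exfalso
    have hE' : e * g = -e' := by
      rcases sgn_mul he hg with h | h <;> rcases he' with h' | h'
      · exact absurd (h.trans h'.symm) hE
      · rw [h, h']; norm_num
      · rw [h, h']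
      · exact absurd (h.trans h'.symm) hE
    rw [hE'] at h4
    have h6 : nrm (2 * b) ≤ 3 * c := by
      rw [← nrm_sgn_mul he' (2 * b)]
      have h7 := nrm_tri (e' * b) (e * a) (-(e' * b))
      rw [nrm_comm (e' * b) (e * a)] at h7
      rw [show e * a - -e' * b = e * a - -(e' * b) by ring] at h4
      rw [show e' * (2 * b) = e' * b - -(e' * b) by ring]
      linarith
    linarith

private theorem fin_cls {f : ℕ → ℝ} {L Q M : ℕ} {θ ρ c : ℝ} (P : Par L Q M θ ρ c) {G : Set ℕ}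
    {s t : ℕ → ℝ} (D : Dat f L Q θ G s t) (Y G0 B : ℕ) (hY : 1 ≤ Y) (hG0 : 2 * G0 ≤ L)
    (hB : 4 * B + Y ≤ G0 * Y) (x x' : ℕ) (hx : SG G Y x) (hx' : SG G Y x') (h1 : x ≤ x' + B)
    (h2 : x' ≤ x + B) : Near c (s x') (s x) := by
  have h := cls P D Y G0 hG0 x x' hx hx'
    (fun y _ hy => ⟨fin_div h1 hB hy, fin_div h2 hB hy⟩) 0 0 (by simpa using hY)
  simpa using h

private theorem fin_arith {K : ℕ} (hK : 40 ≤ K) {η c ρ w : ℝ} (hη : (K : ℝ) * η ≤ w)
    (hw : w ≤ 1) (hcρ : 100 * c ≤ ρ) (hρη : 6 * ρ ≤ η) :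
    2 * (2 * (1 / ((K : ℝ) - 1) + c) + η + 2 * c) < 8 / (K : ℝ) := by
  have hKr : (40 : ℝ) ≤ K := by exact_mod_cast hK
  have hK0 : (0 : ℝ) < K := by linarith
  have hu : (0 : ℝ) < 1 / (K : ℝ) := by positivity
  have h1 : 1 / ((K : ℝ) - 1) ≤ 40 / 39 * (1 / (K : ℝ)) := by
    rw [div_le_iff₀ (by linarith)]
    have : 40 / 39 * (1 / (K : ℝ)) * ((K : ℝ) - 1) = 40 / 39 - 40 / 39 * (1 / (K : ℝ)) := by
      field_simp
    rw [this]
    have h2 : 1 / (K : ℝ) ≤ 1 / 40 := by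
      apply one_div_le_one_div_of_le <;> linarith
    linarith
  have h2 : η ≤ 1 / (K : ℝ) := by
    rw [le_div_iff₀ hK0]
    linarith
  have h3 : 8 / (K : ℝ) = 8 * (1 / (K : ℝ)) := by ring
  rw [h3]
  linarith

theorem fin {f : ℕ → ℝ} {L Q M : ℕ} {θ ρ c : ℝ} (P : Par L Q M θ ρ c) {G : Set ℕ} {s t : ℕ → ℝ}
    (D : Dat f L Q θ G s t) (w : ℝ) (hw1 : w ≤ 1) (Y Ym G0 K n d : ℕ) (hY : 1 ≤ Y) (hYm : 1 ≤ Ym)
    (hG0 : 2 * G0 ≤ L) (hG0c : G0 * c ≤ ρ) (hK : 40 ≤ K) (hd0 : 0 < d)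
    (hKρ : (K : ℝ) * ((6 + 5 * (Nat.log 2 Y : ℝ)) * ρ) ≤ w)
    (hGt : 4 * ((K + 1) * (d + 2)) + Y ≤ G0 * Y)
    (hGm : 4 * (n / d - n / (d + 2)) + Ym ≤ G0 * Ym)
    (hn : SG G Y n)
    (ha : ∀ i < 3, ∀ h ≤ K, SG G Y ((d + i) * (n / (d + i) + 1 + h)))
    (hfar : ∀ i < 3, ∀ h ≤ K, 2 * w < nrm (2 * t ((d + i) * (n / (d + i) + 1 + h))))
    (hm : ∀ i < 3, SG G Ym (n / (d + i) + 1))
    (hgen : 8 / (K : ℝ) < nrm (2 * s n)) : False := by
  have hcpos := par_c_pos P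
  have hρpos := par_rho_pos P
  set η : ℝ := (6 + 5 * (Nat.log 2 Y : ℝ)) * ρ with hη
  have hη6 : 6 * ρ ≤ η := by
    have : (0 : ℝ) ≤ (Nat.log 2 Y : ℝ) := Nat.cast_nonneg _
    rw [hη]
    nlinarith
  have hKr : (40 : ℝ) ≤ K := by exact_mod_cast hK
  have hη0 : 0 ≤ η := by linarith
  have hKL : K ≤ L := by
    have h0 := P.hcρ
    have h1 : (K : ℝ) * (600 * c) ≤ 1 := by
      have : (K : ℝ) * (600 * c) ≤ K * η := by
        apply mul_le_mul_of_nonneg_left _ (by linarith)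
        linarith
      linarith
    have h2 := P.hc
    have h3 : (K : ℝ) ≤ L := by
      by_contra hcon
      push Not at hcon
      have : c * L ≤ c * K := mul_le_mul_of_nonneg_left hcon.le hcpos.le
      nlinarith
    exact_mod_cast h3
  have hQ2 : 2 ≤ Q := by
    by_contra hcon
    have h0 : (Q : ℝ) ≤ 1 := by exact_mod_cast (by omega : Q ≤ 1)
    have h1 := P.hQ
    have h2 := P.hρ
    have h3 : ρ * Q ≤ ρ * 1 := mul_le_mul_of_nonneg_left h0 hρpos.le
    linarith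
  obtain ⟨B, hB⟩ : ∃ B, B = (K + 1) * (d + 2) := ⟨_, rfl⟩
  rw [← hB] at hGt
  obtain ⟨A, hA⟩ : ∃ A : ℕ → ℕ → ℕ, ∀ i h, A i h = (d + i) * (n / (d + i) + 1 + h) :=
    ⟨fun i h => (d + i) * (n / (d + i) + 1 + h), fun _ _ => rfl⟩
  obtain ⟨S, hSdef⟩ : ∃ S : ℕ → Prop, ∀ x, S x ↔ (SG G Y x ∧ n ≤ x ∧ x ≤ n + B) :=
    ⟨fun x => SG G Y x ∧ n ≤ x ∧ x ≤ n + B, fun _ => Iff.rfl⟩
  have hS : ∀ i < 3, ∀ h ≤ K, S (A i h) := by
    intro i hi h hh
    rw [hSdef, hA]
    refine ⟨ha i hi h hh, ?_⟩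
    have h1 := Nat.div_add_mod n (d + i)
    have h2 := Nat.mod_lt n (show 0 < d + i by omega)
    have h3 : (d + i) * (n / (d + i) + 1 + h) = (d + i) * (n / (d + i)) + (d + i) * (h + 1) := by
      ring
    have h4 : (d + i) * (h + 1) ≤ (d + 2) * (K + 1) := Nat.mul_le_mul (by omega) (by omega)
    have h5 : d + i ≤ (d + i) * (h + 1) := Nat.le_mul_of_pos_right _ (by omega)
    have h6 : B = (d + 2) * (K + 1) := by
      rw [hB]
      ring
    rw [h3]
    constructor <;> omega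
  have hSn : S n := by
    rw [hSdef]
    exact ⟨hn, le_rfl, by omega⟩
  have hnear : ∀ x x' : ℕ, S x → S x' → Near c (s x') (s x) := by
    intro x x' hx hx'
    rw [hSdef] at hx hx'
    exact fin_cls P D Y G0 B hY hG0 hGt x x' hx.1 hx'.1 (by omega) (by omega)
  have hE0 : ∀ x : ℕ, S x → ∃ e, Sgn e ∧ nrm (e * s x - s n) ≤ c := by
    intro x hx
    obtain ⟨e, he, h⟩ := hnear n x hSn hx
    refine ⟨e, he, ?_⟩
    rw [← nrm_sgn_mul he] at h
    have h1 : e * (s x - e * s n) = e * s x - s n := by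
      have := sgn_sq he
      linear_combination (-(s n)) * this
    rwa [h1] at h
  choose! E hE using hE0
  have hpair : ∀ x x' : ℕ, S x → S x' → nrm (E x * s x - E x' * s x') ≤ c := by
    intro x x' hx hx'
    obtain ⟨g, hg, h⟩ := hnear x' x hx' hx
    have hG : x' ∈ G := by
      have := (hSdef x').1 hx'
      simpa using this.1 0 0 (by simpa using hY)
    have hnd := D.nd x' hG 2 (by norm_num) hQ2
    exact fin_sgn (hE x hx).1 (hE x' hx').1 hg (hE x hx).2 (hE x' hx').2 h P.hθ hcpos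
      (by simpa using hnd)
  obtain ⟨T, hT⟩ : ∃ T : ℕ → ℝ, ∀ x, T x = flp (E x) (t x) := ⟨fun x => flp (E x) (t x), fun _ => rfl⟩
  have hT4 : ∀ (x0 x1 x2 x3 : ℕ) (κ : ℤ), S x0 → S x1 → S x2 → S x3 →
      (x0 : ℤ) - x1 - x2 + x3 = κ → |κ| ≤ 2 →
      nrm (T x0 - T x1 - T x2 + T x3 - κ * (E x0 * s x0)) ≤ η := by
    intro x0 x1 x2 x3 κ h0 h1 h2 h3 hκ hκ2
    have hall : ∀ k : Fin 4, S ((![x0, x1, x2, x3] : Fin 4 → ℕ) k) := by
      intro k
      fin_cases k
      · exact h0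
      · exact h1
      · exact h2
      · exact h3
    have h := t4 P D Y G0 hY hG0 hG0c ![x0, x1, x2, x3] (fun k => ((hSdef _).1 (hall k)).1)
      (fun k k' y _ hy => fin_div (B := B)
        (by
          have g1 := (hSdef _).1 (hall k)
          have g2 := (hSdef _).1 (hall k')
          omega) hGt hy) κ hκ hκ2
      (fun k => E ((![x0, x1, x2, x3] : Fin 4 → ℕ) k)) (fun k => (hE _ (hall k)).1)
      (fun k => hpair _ _ (hall k) (hall 0))
    rw [hT, hT, hT, hT]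
    exact h
  have hlin : ∀ i < 3, ∀ h : ℕ, h ≤ K →
      nrm (T (A i h) - (T (A i 0) + h * (T (A i 1) - T (A i 0)))) ≤ h * η := by
    intro i hi h
    induction h with
    | zero => intro _; simp [nrm_zero]
    | succ h ih =>
      intro hh
      have h1 := ih (by omega)
      have h2 := hT4 (A i (h + 1)) (A i h) (A i 1) (A i 0) 0 (hS i hi _ hh)
        (hS i hi _ (by omega)) (hS i hi 1 (by omega)) (hS i hi 0 (by omega))
        (by
          rw [hA, hA, hA, hA]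
          push_cast
          ring) (by norm_num)
      have h3 := nrm_add (T (A i h) - (T (A i 0) + h * (T (A i 1) - T (A i 0))))
        (T (A i (h + 1)) - T (A i h) - T (A i 1) + T (A i 0) -
          ((0 : ℤ) : ℝ) * (E (A i (h + 1)) * s (A i (h + 1))))
      have h4 : (T (A i h) - (T (A i 0) + h * (T (A i 1) - T (A i 0)))) +
          (T (A i (h + 1)) - T (A i h) - T (A i 1) + T (A i 0) -
          ((0 : ℤ) : ℝ) * (E (A i (h + 1)) * s (A i (h + 1)))) =
          T (A i (h + 1)) - (T (A i 0) + ((h + 1 : ℕ) : ℝ) * (T (A i 1) - T (A i 0))) := by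
        push_cast
        ring
      rw [h4] at h3
      have h5 : ((h + 1 : ℕ) : ℝ) * η = h * η + η := by
        push_cast
        ring
      rw [h5]
      linarith
  have hbeta : ∀ i < 3, ∃ e, Sgn e ∧
      nrm ((T (A i 1) - T (A i 0)) - e * s (n / (d + i) + 1)) ≤ 1 / ((K : ℝ) - 1) := by
    intro i hi
    have hmG : n / (d + i) + 1 ∈ G := by
      simpa using hm i hi 0 0 (by simpa using hYm)
    have hcod := D.cod _ hmG
    refine rigS K (by omega) (s (n / (d + i) + 1)) (t (n / (d + i) + 1))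
      (T (A i 1) - T (A i 0)) (T (A i 0) + (1 - f (d + i)) / 4) ?_
    intro h h1 h2
    have hc1 := hcod h (by omega)
    have hSA := hS i hi h h2
    have hAG : A i h ∈ G := by
      have := (hSdef _).1 hSA
      simpa using this.1 0 0 (by simpa using hY)
    have hAcod := D.cod _ hAG 0 (by omega)
    simp only [Nat.cast_zero, zero_mul, add_zero] at hAcod
    have hw' : nrm ((T (A i 0) + h * (T (A i 1) - T (A i 0))) - T (A i h)) ≤ w := by
      rw [nrm_comm]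
      refine (hlin i hi h h2).trans ?_
      have : (h : ℝ) * η ≤ K * η := by
        apply mul_le_mul_of_nonneg_right _ hη0
        exact_mod_cast h2
      linarith
    have hfar' : 2 * w < nrm (2 * T (A i h)) := by
      rw [hT, nrm_sgn_two _ (hE _ hSA).1, hA]
      exact hfar i hi h h2
    obtain ⟨hp, hstr⟩ := phic _ _ w hw' hfar'
    have hfa : phi (T (A i h)) = f (d + i) * f (n / (d + i) + 1 + h) := by
      rw [hT, phi_flp (hE _ hSA).1 hAcod.1, ← hAcod.2, hA]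
      exact D.mul _ _ (by omega) (by positivity)
    rw [hfa] at hp
    refine ⟨hc1.1, ?_, ?_⟩
    · rcases D.sg (d + i) with hf1 | hf1
      · rw [hf1, show T (A i 0) + (1 - 1) / 4 + (h : ℝ) * (T (A i 1) - T (A i 0)) =
          T (A i 0) + (h : ℝ) * (T (A i 1) - T (A i 0)) by ring]
        exact hstr
      · rw [hf1, show T (A i 0) + (1 - -1) / 4 + (h : ℝ) * (T (A i 1) - T (A i 0)) =
          T (A i 0) + (h : ℝ) * (T (A i 1) - T (A i 0)) + 1 / 2 by ring]
        exact str_half hstr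
    · rw [← hc1.2]
      rcases D.sg (d + i) with hf1 | hf1
      · rw [hf1] at hp ⊢
        rw [show T (A i 0) + (1 - 1) / 4 + (h : ℝ) * (T (A i 1) - T (A i 0)) =
          T (A i 0) + (h : ℝ) * (T (A i 1) - T (A i 0)) by ring, hp]
        ring
      · rw [hf1] at hp ⊢
        rw [show T (A i 0) + (1 - -1) / 4 + (h : ℝ) * (T (A i 1) - T (A i 0)) =
          T (A i 0) + (h : ℝ) * (T (A i 1) - T (A i 0)) + 1 / 2 by ring, phi_half, hp]
        ring
  have hg : ∀ i < 3, ∃ g, Sgn g ∧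
      nrm ((T (A i 1) - T (A i 0)) - g * s (n / d + 1)) ≤ 1 / ((K : ℝ) - 1) + c := by
    intro i hi
    obtain ⟨e, he, h1⟩ := hbeta i hi
    have hm0 := hm 0 (by norm_num)
    rw [add_zero] at hm0
    have hle1 : n / (d + i) ≤ n / d := Nat.div_le_div_left (by omega) hd0
    have hle2 : n / (d + 2) ≤ n / (d + i) := Nat.div_le_div_left (by omega) (by omega)
    obtain ⟨e', he', h2⟩ := fin_cls P D Ym G0 (n / d - n / (d + 2)) hYm hG0 hGm (n / d + 1)
      (n / (d + i) + 1) hm0 (hm i hi) (by omega) (by omega)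
    refine ⟨e * e', sgn_mul he he', ?_⟩
    rw [← nrm_sgn_mul he] at h2
    have h3 := nrm_tri (T (A i 1) - T (A i 0)) (e * s (n / (d + i) + 1)) (e * e' * s (n / d + 1))
    rw [show e * s (n / (d + i) + 1) - e * e' * s (n / d + 1) =
      e * (s (n / (d + i) + 1) - e' * s (n / d + 1)) by ring] at h3
    linarith
  have key : ∀ i k : ℕ, 1 ≤ k → k ≤ 2 → i + k < 3 → ∀ g, 
      nrm ((T (A i 1) - T (A i 0)) - g * s (n / d + 1)) ≤ 1 / ((K : ℝ) - 1) + c →
      nrm ((T (A (i + k) 1) - T (A (i + k) 0)) - g * s (n / d + 1)) ≤ 1 / ((K : ℝ) - 1) + c →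
      False := by
    intro i k hk1 hk2 hik g h1 h2
    have h3 := nrm_tri (T (A (i + k) 1) - T (A (i + k) 0)) (g * s (n / d + 1))
      (T (A i 1) - T (A i 0))
    rw [nrm_comm (g * s (n / d + 1))] at h3
    have h4 := hT4 (A (i + k) 1) (A (i + k) 0) (A i 1) (A i 0) k (hS _ hik 1 (by omega))
      (hS _ hik 0 (by omega)) (hS i (by omega) 1 (by omega)) (hS i (by omega) 0 (by omega))
      (by
        rw [hA, hA, hA, hA]
        push_cast
        ring) (by rw [abs_of_nonneg (by positivity)]; exact_mod_cast hk2)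
    have h5 := (hE _ (hS _ hik 1 (by omega))).2
    have h6 : nrm ((k : ℝ) * (E (A (i + k) 1) * s (A (i + k) 1) - s n)) ≤ 2 * c := by
      refine (nrm_nat_mul_le _ _).trans ?_
      have hk2r : (k : ℝ) ≤ 2 := by exact_mod_cast hk2
      exact mul_le_mul hk2r h5 (nrm_nonneg _) (by norm_num)
    have h7 : nrm ((k : ℝ) * s n) ≤ 2 * (1 / ((K : ℝ) - 1) + c) + η + 2 * c := by
      have h8 : (k : ℝ) * s n = (((T (A (i + k) 1) - T (A (i + k) 0)) - (T (A i 1) - T (A i 0))) -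
          (T (A (i + k) 1) - T (A (i + k) 0) - T (A i 1) + T (A i 0) -
            ((k : ℤ) : ℝ) * (E (A (i + k) 1) * s (A (i + k) 1)))) -
          (k : ℝ) * (E (A (i + k) 1) * s (A (i + k) 1) - s n) := by
        push_cast
        ring
      rw [h8]
      have h9 := nrm_sub (((T (A (i + k) 1) - T (A (i + k) 0)) - (T (A i 1) - T (A i 0))) -
          (T (A (i + k) 1) - T (A (i + k) 0) - T (A i 1) + T (A i 0) -
            ((k : ℤ) : ℝ) * (E (A (i + k) 1) * s (A (i + k) 1))))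
          ((k : ℝ) * (E (A (i + k) 1) * s (A (i + k) 1) - s n))
      have h10 := nrm_sub ((T (A (i + k) 1) - T (A (i + k) 0)) - (T (A i 1) - T (A i 0)))
          (T (A (i + k) 1) - T (A (i + k) 0) - T (A i 1) + T (A i 0) -
            ((k : ℤ) : ℝ) * (E (A (i + k) 1) * s (A (i + k) 1)))
      linarith
    have h11 : nrm (2 * s n) ≤ 2 * nrm ((k : ℝ) * s n) := by
      have hk : k = 1 ∨ k = 2 := by omega
      rcases hk with rfl | rfl
      · have := nrm_nat_mul_le 2 (s n)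
        push_cast at this ⊢
        rw [one_mul]
        exact this
      · have := nrm_nonneg (2 * s n)
        push_cast
        linarith
    have h12 := fin_arith hK hKρ hw1 P.hcρ hη6
    linarith
  obtain ⟨g0, hg0, h0⟩ := hg 0 (by norm_num)
  obtain ⟨g1, hg1, h1⟩ := hg 1 (by norm_num)
  obtain ⟨g2, hg2, h2⟩ := hg 2 (by norm_num)
  by_cases h01 : g0 = g1
  · subst h01
    exact key 0 1 (by norm_num) (by norm_num) (by norm_num) g0 h0 h1
  by_cases h02 : g0 = g2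
  · subst h02
    exact key 0 2 (by norm_num) (by norm_num) (by norm_num) g0 h0 h2
  have h12 : g1 = g2 := by
    rcases hg0 with a0 | a0 <;> rcases hg1 with a1 | a1 <;> rcases hg2 with a2 | a2 <;>
      simp_all
  subst h12
  exact key 1 1 (by norm_num) (by norm_num) (by norm_num) g1 h1 h2

end Pool.Agent.Lib.MP_f6c41f_nt.RT
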