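import Pool.Agent.Lib.MP_f6c41f_nt.RT.Main

/-!
# MP_f6c41f_nt RT, row Final: the theorem for all large `X`

Proof.  Take `r0` from `core` (and `r0 ≥ 8`); for large `X` let `r` be the natural number with
`4 * 32^r ≤ X < 4 * 32^(r+1)` (`r = Nat.log 32 ⌊X/4⌋₊`), `r ≥ r0`.  Suppose all inequalities `≤` hold for
`N ∈ [X^(1/3), X]`.  For `4^r ≤ N ≤ 4 * 32^r`: `N ≤ X`, and `X < 128 * 32^r ≤ 64^r = (4^r)^3` (`2^r ≥ 128`), so
`X^(1/3) ≤ 4^r ≤ N`.  `r ≤ log X` (`X ≥ 4 * 32^r ≥ e^r`), so shifts `≤ r^30` are `≤ (log X)^30` and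
`1/(log X)^100 ≤ 1/r^100`: `Hyp f (r^30) (1/r^100) N`.  Contradiction to `core`.
-/

set_option autoImplicit false

namespace Pool.Agent.Lib.MP_f6c41f_nt.RT

open Finset Pool.Agent.Lib.MP_f6c41f_nt

theorem final : ∃ X0 : ℝ, ∀ X : ℝ, X0 ≤ X → ∀ f : ℕ → ℝ, Sg f → Mul f →
    ∃ N : ℕ, X ^ (1 / 3 : ℝ) ≤ N ∧ (N : ℝ) ≤ X ∧ ∃ F : Finset ℕ, F.card ≤ 8 ∧
      (∀ i ∈ F, (i : ℝ) ≤ Real.log X ^ 30) ∧
      1 / Real.log X ^ 100 < |avg f F N - torus F| := by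
  obtain ⟨r0, hcore⟩ := core
  refine ⟨4 * 32 ^ (max r0 8), fun X hX f hf hm => ?_⟩
  by_contra hcon
  push Not at hcon
  set m : ℕ := ⌊X / 4⌋₊ with hmdef
  set r : ℕ := Nat.log 32 m with hr
  have hX4 : (32 : ℝ) ^ (max r0 8) ≤ X / 4 := by linarith
  have hm1 : 32 ^ (max r0 8) ≤ m := by
    refine Nat.le_floor ?_
    push_cast
    exact hX4
  have hm0 : m ≠ 0 := by
    have : 0 < 32 ^ (max r0 8) := by positivity
    omega
  have hr0 : max r0 8 ≤ r := Nat.le_log_of_pow_le (by norm_num) hm1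
  have hr8 : 8 ≤ r := (le_max_right _ _).trans hr0
  have h32 : (0 : ℝ) < 32 ^ (max r0 8) := by positivity
  have hX0 : 0 < X := by linarith
  have h1 : (32 : ℝ) ^ r ≤ X / 4 := by
    have h2 : 32 ^ r ≤ m := Nat.pow_log_le_self 32 hm0
    have h3 : ((32 ^ r : ℕ) : ℝ) ≤ m := by exact_mod_cast h2
    push_cast at h3
    exact h3.trans (Nat.floor_le (by positivity))
  have h2 : X / 4 < (32 : ℝ) ^ (r + 1) := by
    have h3 : m < 32 ^ (r + 1) := Nat.lt_pow_succ_log_self (by norm_num) m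
    have h4 : ((m : ℕ) : ℝ) + 1 ≤ 32 ^ (r + 1) := by exact_mod_cast h3
    exact (Nat.lt_floor_add_one (X / 4)).trans_le h4
  have hrpos : (0 : ℝ) < r := by
    have : 0 < r := by omega
    exact_mod_cast this
  have hrlog : (r : ℝ) ≤ Real.log X := by
    rw [Real.le_log_iff_exp_le hX0]
    have h3 : Real.exp r = Real.exp 1 ^ r := by
      rw [← Real.exp_nat_mul, mul_one]
    have h4 : Real.exp 1 ≤ 32 := by
      have := Real.exp_one_lt_d9
      linarith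
    rw [h3]
    have h5 : Real.exp 1 ^ r ≤ 32 ^ r := pow_le_pow_left₀ (Real.exp_pos 1).le h4 r
    have h6 : (0 : ℝ) < 32 ^ r := by positivity
    linarith
  refine hcore r ((le_max_left _ _).trans hr0) f hf hm fun N hN1 hN2 F hF hFi => ?_
  have hN1' : (4 : ℝ) ^ r ≤ N := by exact_mod_cast hN1
  have hN2' : (N : ℝ) ≤ 4 * 32 ^ r := by exact_mod_cast hN2
  have hNX : (N : ℝ) ≤ X := by linarith
  have hXN : X ^ (1 / 3 : ℝ) ≤ N := by
    have h3 : X ≤ (N : ℝ) ^ 3 := by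
      have h4 : (128 : ℝ) ≤ 2 ^ r := by
        calc (128 : ℝ) ≤ 2 ^ 8 := by norm_num
          _ ≤ 2 ^ r := pow_le_pow_right₀ (by norm_num) hr8
      have h5 : (64 : ℝ) ^ r = 2 ^ r * 32 ^ r := by
        rw [← mul_pow]
        norm_num
      have h6 : (64 : ℝ) ^ r = (4 ^ r) ^ 3 := by
        rw [← pow_mul, mul_comm r 3, pow_mul]
        norm_num
      have h7 : (0 : ℝ) < 32 ^ r := by positivity
      have h8 : (128 : ℝ) * 32 ^ r ≤ 2 ^ r * 32 ^ r := mul_le_mul_of_nonneg_right h4 h7.le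
      have h9 : ((4 : ℝ) ^ r) ^ 3 ≤ (N : ℝ) ^ 3 := pow_le_pow_left₀ (by positivity) hN1' 3
      rw [pow_succ] at h2
      linarith
    calc X ^ (1 / 3 : ℝ) ≤ ((N : ℝ) ^ 3) ^ (1 / 3 : ℝ) :=
          Real.rpow_le_rpow hX0.le h3 (by norm_num)
      _ = N := by
          rw [← Real.rpow_natCast, ← Real.rpow_mul (Nat.cast_nonneg N)]
          norm_num
  refine (hcon N hXN hNX F hF fun i hi => ?_).trans ?_
  · have h3 : (i : ℝ) ≤ (r : ℝ) ^ 30 := by exact_mod_cast hFi i hi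
    exact h3.trans (pow_le_pow_left₀ hrpos.le hrlog 30)
  · exact one_div_le_one_div_of_le (by positivity) (pow_le_pow_left₀ hrpos.le hrlog 100)

end Pool.Agent.Lib.MP_f6c41f_nt.RT
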