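import Pool.Agent.Lib.MP_f6c41f_nt.RT.Main

/-!
# MP_f6c41f_nt RT: the theorem for all large `X`, with `log N`, and its form for the Liouville function
-/

set_option autoImplicit false

namespace Pool.Agent.Lib.MP_f6c41f_nt.RT

open Finset Pool.Agent.Lib.MP_f6c41f_nt

theorem final2 : ∃ X0 : ℝ, ∀ X : ℝ, X0 ≤ X → ∀ f : ℕ → ℝ, Sg f → Mul f →
    ∃ N : ℕ, X ^ (1 / 3 : ℝ) ≤ N ∧ (N : ℝ) ≤ X ∧ ∃ F : Finset ℕ, F.card ≤ 8 ∧
      (∀ i ∈ F, (i : ℝ) ≤ Real.log N ^ 30) ∧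
      1 / Real.log N ^ 100 < |avg f F N - torus F| := by
  obtain ⟨r0, hcore⟩ := core
  refine ⟨4 * 32 ^ (max r0 8), fun X hX f hf hm => ?_⟩
  by_contra hcon
  push Not at hcon
  set m : ℕ := ⌊X / 4⌋₊ with hmdef
  set r : ℕ := Nat.log 32 m with hr
  have hX4 : (32 : ℝ) ^ (max r0 8) ≤ X / 4 := by linarith
  have hm1 : 32 ^ (max r0 8) ≤ m := by
    refine Nat.le_floor ?_
    push_cast
    exact hX4
  have hm0 : m ≠ 0 := by
    have : 0 < 32 ^ (max r0 8) := by positivity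
    omega
  have hr0 : max r0 8 ≤ r := Nat.le_log_of_pow_le (by norm_num) hm1
  have hr8 : 8 ≤ r := (le_max_right _ _).trans hr0
  have h32 : (0 : ℝ) < 32 ^ (max r0 8) := by positivity
  have hX0 : 0 < X := by linarith
  have h1 : (32 : ℝ) ^ r ≤ X / 4 := by
    have h2 : 32 ^ r ≤ m := Nat.pow_log_le_self 32 hm0
    have h3 : ((32 ^ r : ℕ) : ℝ) ≤ m := by exact_mod_cast h2
    push_cast at h3
    exact h3.trans (Nat.floor_le (by positivity))
  have h2 : X / 4 < (32 : ℝ) ^ (r + 1) := by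
    have h3 : m < 32 ^ (r + 1) := Nat.lt_pow_succ_log_self (by norm_num) m
    have h4 : ((m : ℕ) : ℝ) + 1 ≤ 32 ^ (r + 1) := by exact_mod_cast h3
    exact (Nat.lt_floor_add_one (X / 4)).trans_le h4
  have hrpos : (0 : ℝ) < r := by
    have : 0 < r := by omega
    exact_mod_cast this
  refine hcore r ((le_max_left _ _).trans hr0) f hf hm fun N hN1 hN2 F hF hFi => ?_
  have hN1' : (4 : ℝ) ^ r ≤ N := by exact_mod_cast hN1
  have hN2' : (N : ℝ) ≤ 4 * 32 ^ r := by exact_mod_cast hN2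
  have hN0 : (0 : ℝ) < N := lt_of_lt_of_le (by positivity) hN1'
  have hrlog : (r : ℝ) ≤ Real.log N := by
    rw [Real.le_log_iff_exp_le hN0]
    have h3 : Real.exp r = Real.exp 1 ^ r := by
      rw [← Real.exp_nat_mul, mul_one]
    have h4 : Real.exp 1 ≤ 4 := by
      have := Real.exp_one_lt_d9
      linarith
    rw [h3]
    exact (pow_le_pow_left₀ (Real.exp_pos 1).le h4 r).trans hN1'
  have hNX : (N : ℝ) ≤ X := by linarith
  have hXN : X ^ (1 / 3 : ℝ) ≤ N := by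
    have h3 : X ≤ (N : ℝ) ^ 3 := by
      have h4 : (128 : ℝ) ≤ 2 ^ r := by
        calc (128 : ℝ) ≤ 2 ^ 8 := by norm_num
          _ ≤ 2 ^ r := pow_le_pow_right₀ (by norm_num) hr8
      have h5 : (64 : ℝ) ^ r = 2 ^ r * 32 ^ r := by
        rw [← mul_pow]
        norm_num
      have h6 : (64 : ℝ) ^ r = (4 ^ r) ^ 3 := by
        rw [← pow_mul, mul_comm r 3, pow_mul]
        norm_num
      have h7 : (0 : ℝ) < 32 ^ r := by positivity
      have h8 : (128 : ℝ) * 32 ^ r ≤ 2 ^ r * 32 ^ r := mul_le_mul_of_nonneg_right h4 h7.le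
      have h9 : ((4 : ℝ) ^ r) ^ 3 ≤ (N : ℝ) ^ 3 := pow_le_pow_left₀ (by positivity) hN1' 3
      rw [pow_succ] at h2
      linarith
    calc X ^ (1 / 3 : ℝ) ≤ ((N : ℝ) ^ 3) ^ (1 / 3 : ℝ) :=
          Real.rpow_le_rpow hX0.le h3 (by norm_num)
      _ = N := by
          rw [← Real.rpow_natCast, ← Real.rpow_mul (Nat.cast_nonneg N)]
          norm_num
  refine (hcon N hXN hNX F hF fun i hi => ?_).trans ?_
  · have h3 : (i : ℝ) ≤ (r : ℝ) ^ 30 := by exact_mod_cast hFi i hi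
    exact h3.trans (pow_le_pow_left₀ hrpos.le hrlog 30)
  · exact one_div_le_one_div_of_le (by positivity) (pow_le_pow_left₀ hrpos.le hrlog 100)

/-- a finite set of natural numbers as a tuple of integers -/
theorem exists_tuple (F : Finset ℕ) (hF : F.card ≤ 8) : ∃ (l : ℕ) (h : Fin l → ℤ), l ≤ 8 ∧
    (∀ j, ∃ i ∈ F, h j = (i : ℕ)) ∧
    (∀ g : ℤ → ℝ, ∏ j, g (h j) = ∏ i ∈ F, g i) := by
  refine ⟨F.card, fun j => ((F.orderIsoOfFin rfl j : ℕ) : ℤ), hF, fun j => ?_, fun g => ?_⟩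
  · exact ⟨(F.orderIsoOfFin rfl j : ℕ), (F.orderIsoOfFin rfl j).2, rfl⟩
  · rw [← Finset.prod_coe_sort F (fun i => g i)]
    exact Fintype.prod_equiv (F.orderIsoOfFin rfl).toEquiv _ _ (fun j => rfl)

/-- the form for the Liouville function and tuples of integers, as in the problem -/
theorem final_lam : ¬ ∃ N0 : ℕ, ∀ N : ℕ, N0 ≤ N → ∀ (l : ℕ) (h : Fin l → ℤ), l ≤ 8 →
    (∀ j, (|h j| : ℝ) ≤ Real.log N ^ 30) →
    |(1 / (N : ℝ)) * ∑ n ∈ Icc 1 N, ∏ j : Fin l, lam ((n : ℤ) + h j) -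
      ∫ t in (0:ℝ)..1, ∫ s in (0:ℝ)..1, ∏ j : Fin l, phi (t + (h j : ℝ) * s)| ≤
      1 / Real.log N ^ 100 := by
  rintro ⟨N0, h⟩
  obtain ⟨X0, hX0⟩ := final2
  set X : ℝ := max X0 (((N0 : ℝ) + 1) ^ 3) with hX
  set f : ℕ → ℝ := fun n => lam (n : ℤ) with hf
  have hsg : Sg f := by
    intro n
    simp only [hf, lam]
    exact neg_one_pow_eq_or ℝ _
  have hmul : Mul f := by
    intro m n hm hn
    simp only [hf, lam]
    have e : ((m * n : ℕ) : ℤ).natAbs = m * n := Int.natAbs_natCast _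
    rw [e, Int.natAbs_natCast, Int.natAbs_natCast, ArithmeticFunction.cardFactors_mul (by omega) (by omega),
      pow_add]
  obtain ⟨N, h1, h2, F, hF, hFi, hlt⟩ := hX0 X (le_max_left _ _) f hsg hmul
  have hN : N0 ≤ N := by
    have h3 : ((N0 : ℝ) + 1) ^ 3 ≤ X := le_max_right _ _
    have h4 : ((N0 : ℝ) + 1) ≤ X ^ (1 / 3 : ℝ) := by
      calc ((N0 : ℝ) + 1) = (((N0 : ℝ) + 1) ^ 3) ^ (1 / 3 : ℝ) := by
            rw [← Real.rpow_natCast, ← Real.rpow_mul (by positivity)]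
            norm_num
        _ ≤ X ^ (1 / 3 : ℝ) := Real.rpow_le_rpow (by positivity) h3 (by norm_num)
    have h5 : (N0 : ℝ) ≤ N := by linarith
    exact_mod_cast h5
  obtain ⟨l, k, hl, hk, hg⟩ := exists_tuple F hF
  have h6 := h N hN l k hl (fun j => by
    obtain ⟨i, hi, e⟩ := hk j
    have := hFi i hi
    rw [e]
    push_cast
    rw [abs_of_nonneg (Nat.cast_nonneg i)]
    exact this)
  have e1 : ∀ n : ℕ, ∏ j : Fin l, lam ((n : ℤ) + k j) = ∏ i ∈ F, f (n + i) := by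
    intro n
    rw [hg (fun z => lam ((n : ℤ) + z))]
    apply prod_congr rfl
    intro i _
    simp only [hf]
    push_cast; rfl
  have e2 : ∀ s t : ℝ, ∏ j : Fin l, phi (t + (k j : ℝ) * s) = ∏ i ∈ F, phi (t + (i : ℝ) * s) := by
    intro s t
    rw [hg (fun z => phi (t + (z : ℝ) * s))]
    apply prod_congr rfl
    intro i _
    push_cast; rfl
  simp only [e1, e2] at h6
  unfold avg torus at hlt
  linarith

end Pool.Agent.Lib.MP_f6c41f_nt.RT
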