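import Pool.Agent.Lib.MP_f6c41f_nt.RT.Tool
import Pool.Agent.Lib.MP_f6c41f_nt.T3

/-!
# MP_f6c41f_nt RT, row Smb: `q s` is rarely close to an integer

Proof.  If `Cod f L n s t` and `nrm (q s) ≤ θ`: with `z` from `nrm_rep (q s)`, `phi (t + (j q) s) = phi (t + j (q s - z))`
and for `0 ≤ j < 2 k` the points `t + j (q s - z)` move monotonically by at most `2 k θ ≤ 1/4 < 1/2` in total, so
`⌊2 (t + j (q s - z))⌋` takes at most two consecutive values, monotone in `j`: `f (n + j q)` changes sign at most once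
on `0 ≤ j < 2 k` (`2 k q ≤ L`), so it is constant on `[0, k)` or on `[k, 2k)`: `|Σ_{j<k} f (n + j q)| = k` or
`|Σ_{j<k} f (n + k q + j q)| = k`.  For each fixed start `m ∈ {0, k q}`:
`Σ_{n ≤ N} (Σ_{j<k} f (n + m + j q))^2 = Σ_{i,j<k} Σ_n f (n + m + i q) f (n + m + j q) ≤ k N + k^2 δ N`: the terms
`i = j` give `N` each; for `i ≠ j` it is `N * avg f {m + i q, m + j q} N` with `avg ≤ torus + δ = δ` (`Hyp`), where
`torus {a, b} = 0` for `a ≠ b` (`torus_pair` in `Lib/MP_f6c41f_nt/T3` for `{0, a}`, shift invariance: `rot_stat`,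
`shift_n` / `pair_eq` in C2, `rot_int` in C7).  So the number of `n ≤ N` with `|Σ| = k` is at most
`(k N + k^2 δ N)/k^2 = (1/k + δ) N`.  Two starts: factor 2.
-/

set_option autoImplicit false

namespace Pool.Agent.Lib.MP_f6c41f_nt.RT

open Finset Pool.Agent.Lib.MP_f6c41f_nt
open scoped Classical

private theorem smb_torus (a b : ℕ) (hab : a < b) : torus {a, b} = 0 := by
  rw [← rot_int]
  obtain ⟨d, hd⟩ : ∃ d, b = a + d := ⟨b - a, by omega⟩
  have hd0 : 0 < d := by omega
  have e : ∀ s : ℝ, rot s {a, b} = 1 - 4 * nrm (d * s) := by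
    intro s
    rw [← T3_trans s a d]
    unfold rot
    congr 1
    ext t
    rw [Finset.prod_pair (by omega), hd]
  simp_rw [e]
  have h1 := T3_sub (fun s => 1 - 4 * nrm s) (by have := T3_nrm_cont; fun_prop)
    (fun x => by rw [T3_nrm_per]) d hd0
  rw [h1, T3_int1]

private theorem smb_torus' (a b : ℕ) (hab : a ≠ b) : torus {a, b} = 0 := by
  rcases Nat.lt_or_gt_of_ne hab with h | h
  · exact smb_torus a b h
  · rw [Finset.pair_comm]; exact smb_torus b a h

private theorem smb_mono (k : ℕ) (hk : 1 ≤ k) (u : ℕ → ℤ)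
    (hm : ∀ i j, i ≤ j → u i ≤ u j) (hb : ∀ j, j < 2 * k → u j ≤ u 0 + 1) :
    (∀ j, j < k → u j = u 0) ∨ (∀ j, j < k → u (k + j) = u k) := by
  by_cases h : u (k - 1) ≤ u 0
  · left
    intro j hj
    have h1 := hm 0 j (by omega)
    have h2 := hm j (k - 1) (by omega)
    omega
  · right
    intro j hj
    have h1 := hm (k - 1) (k + j) (by omega)
    have h2 := hm (k - 1) k (by omega)
    have h3 := hb (k + j) (by omega)
    have h4 := hb k (by omega)
    omega

private theorem smb_block (k : ℕ) (hk : 1 ≤ k) (t d θ : ℝ) (hd : |d| ≤ θ)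
    (hkθ : 8 * (k * θ) ≤ 1) :
    (∀ j, j < k → phi (t + (j : ℝ) * d) = phi (t + ((0 : ℕ) : ℝ) * d)) ∨
    (∀ j, j < k → phi (t + ((k + j : ℕ) : ℝ) * d) = phi (t + (k : ℝ) * d)) := by
  set u : ℕ → ℤ := fun j => ⌊2 * (t + (j : ℝ) * d)⌋ with hu
  have hk0 : (0 : ℝ) ≤ k := Nat.cast_nonneg _
  have hθ0 : 0 ≤ θ := le_trans (abs_nonneg _) hd
  have hsmall : ∀ j : ℕ, j < 2 * k → |2 * ((j : ℝ) * d)| ≤ 1 / 2 := by
    intro j hj
    have h1 : (j : ℝ) ≤ 2 * k := by exact_mod_cast hj.le
    rw [abs_mul, abs_mul, abs_of_pos (by norm_num : (0 : ℝ) < 2), Nat.abs_cast]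
    have h2 : (j : ℝ) * |d| ≤ 2 * k * θ := by
      apply mul_le_mul h1 hd (abs_nonneg _) (by positivity)
    linarith
  have hphi : ∀ j : ℕ, phi (t + (j : ℝ) * d) = if Even (u j) then 1 else -1 := by
    intro j
    rw [phi_floor]
  have key : (∀ j, j < k → u j = u 0) ∨ (∀ j, j < k → u (k + j) = u k) := by
    rcases le_total 0 d with h0 | h0
    · apply smb_mono k hk u
      · intro i j hij
        apply Int.floor_le_floor
        have : (i : ℝ) ≤ j := by exact_mod_cast hij
        nlinarith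
      · intro j hj
        have h1 := (abs_le.1 (hsmall j hj)).2
        have h2 : u j ≤ ⌊2 * (t + ((0 : ℕ) : ℝ) * d) + 1⌋ := by
          apply Int.floor_le_floor
          push_cast
          linarith
        rw [Int.floor_add_one] at h2
        exact h2
    · have := smb_mono k hk (fun j => -(u j)) ?_ ?_
      · rcases this with h | h
        · left; intro j hj; have := h j hj; omega
        · right; intro j hj; have := h j hj; omega
      · intro i j hij
        have : u j ≤ u i := by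
          apply Int.floor_le_floor
          have : (i : ℝ) ≤ j := by exact_mod_cast hij
          nlinarith
        omega
      · intro j hj
        have h1 := (abs_le.1 (hsmall j hj)).1
        have h2 : ⌊2 * (t + ((0 : ℕ) : ℝ) * d) - 1⌋ ≤ u j := by
          apply Int.floor_le_floor
          push_cast
          linarith
        rw [Int.floor_sub_one] at h2
        have h3 : ⌊2 * (t + ((0 : ℕ) : ℝ) * d)⌋ = u 0 := rfl
        omega
  rcases key with h | h
  · left
    intro j hj
    rw [hphi j, hphi 0, h j hj]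
  · right
    intro j hj
    rw [hphi (k + j), hphi k, h j hj]

private theorem smb_sumsq {f : ℕ → ℝ} (hf : Sg f) (B : ℕ) (δ : ℝ) (N : ℕ) (hN : 1 ≤ N)
    (hH : Hyp f B δ N) (q k m : ℕ) (hq : 1 ≤ q) (hmB : m + k * q ≤ B) :
    ∑ n ∈ Icc 1 N, (∑ j ∈ range k, f (n + m + j * q)) ^ 2 ≤ k * N + (k : ℝ) ^ 2 * (δ * N) := by
  have hN' : (0 : ℝ) < N := by exact_mod_cast hN
  have hδ : 0 ≤ δ := le_trans (abs_nonneg _) (hH ∅ (by simp) (by simp))
  have e1 : ∀ n, (∑ j ∈ range k, f (n + m + j * q)) ^ 2 =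
      ∑ i ∈ range k, ∑ j ∈ range k, f (n + m + i * q) * f (n + m + j * q) := by
    intro n
    rw [sq, Finset.sum_mul_sum]
  simp_rw [e1]
  rw [Finset.sum_comm]
  have h2 : ∀ i ∈ range k, ∑ n ∈ Icc 1 N, ∑ j ∈ range k, f (n + m + i * q) * f (n + m + j * q) ≤
      N + k * (δ * N) := by
    intro i hi
    rw [Finset.sum_comm]
    have h3 : ∀ j ∈ range k, ∑ n ∈ Icc 1 N, f (n + m + i * q) * f (n + m + j * q) ≤
        (if j = i then (N : ℝ) else 0) + δ * N := by
      intro j hj
      rw [mem_range] at hi hj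
      by_cases hij : j = i
      · rw [if_pos hij, hij]
        have : ∀ n ∈ Icc 1 N, f (n + m + i * q) * f (n + m + i * q) = 1 := by
          intro n _
          rcases hf (n + m + i * q) with h | h <;> rw [h] <;> norm_num
        rw [Finset.sum_congr rfl this, Finset.sum_const, Nat.card_Icc]
        simp only [Nat.add_sub_cancel, nsmul_eq_mul, mul_one]
        have : 0 ≤ δ * N := mul_nonneg hδ hN'.le
        linarith
      · rw [if_neg hij]
        have hne : m + i * q ≠ m + j * q := by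
          intro h
          have : i * q = j * q := by omega
          exact hij (Nat.eq_of_mul_eq_mul_right (by omega) this).symm
        have hiq : i * q ≤ k * q := Nat.mul_le_mul_right q hi.le
        have hjq : j * q ≤ k * q := Nat.mul_le_mul_right q hj.le
        have h4 := hH {m + i * q, m + j * q} (le_trans Finset.card_le_two (by norm_num)) (by
          intro a ha
          simp only [mem_insert, mem_singleton] at ha
          rcases ha with h | h <;> omega)
        rw [smb_torus' _ _ hne, sub_zero] at h4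
        have h5 := (abs_le.1 h4).2
        unfold avg at h5
        have h6 : ∑ n ∈ Icc 1 N, f (n + m + i * q) * f (n + m + j * q) =
            ∑ n ∈ Icc 1 N, ∏ a ∈ ({m + i * q, m + j * q} : Finset ℕ), f (n + a) := by
          apply Finset.sum_congr rfl
          intro n _
          rw [Finset.prod_pair hne, ← add_assoc, ← add_assoc]
        rw [h6, zero_add]
        rw [one_div, inv_mul_le_iff₀ hN'] at h5
        linarith
    refine (Finset.sum_le_sum h3).trans ?_
    rw [Finset.sum_add_distrib, Finset.sum_ite_eq' (range k) i, if_pos hi, Finset.sum_const,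
      card_range, nsmul_eq_mul]
  refine (Finset.sum_le_sum h2).trans ?_
  rw [Finset.sum_const, card_range, nsmul_eq_mul]
  apply le_of_eq
  ring

private theorem smb_card {f : ℕ → ℝ} (hf : Sg f) (B : ℕ) (δ : ℝ) (N : ℕ) (hN : 1 ≤ N)
    (hH : Hyp f B δ N) (q k m : ℕ) (hq : 1 ≤ q) (hk : 1 ≤ k) (hmB : m + k * q ≤ B) :
    (((Icc 1 N).filter (fun n => (∑ j ∈ range k, f (n + m + j * q)) ^ 2 = (k : ℝ) ^ 2)).card : ℝ)
      ≤ (1 / k + δ) * N := by
  have h1 := smb_sumsq hf B δ N hN hH q k m hq hmB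
  have hk0 : (0 : ℝ) < k := by exact_mod_cast hk
  set S := (Icc 1 N).filter (fun n => (∑ j ∈ range k, f (n + m + j * q)) ^ 2 = (k : ℝ) ^ 2)
    with hS
  have h2 : (S.card : ℝ) * (k : ℝ) ^ 2 ≤
      ∑ n ∈ Icc 1 N, (∑ j ∈ range k, f (n + m + j * q)) ^ 2 := by
    calc (S.card : ℝ) * (k : ℝ) ^ 2 = ∑ _n ∈ S, (k : ℝ) ^ 2 := by
          rw [Finset.sum_const, nsmul_eq_mul]
      _ = ∑ n ∈ S, (∑ j ∈ range k, f (n + m + j * q)) ^ 2 := by
          apply Finset.sum_congr rfl
          intro n hn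
          exact ((mem_filter.1 hn).2).symm
      _ ≤ _ := Finset.sum_le_sum_of_subset_of_nonneg (filter_subset _ _)
          (fun n _ _ => sq_nonneg _)
  have h3 : (S.card : ℝ) * (k : ℝ) ^ 2 ≤ ((1 / k + δ) * N) * (k : ℝ) ^ 2 := by
    refine h2.trans (h1.trans (le_of_eq ?_))
    field_simp
  exact le_of_mul_le_mul_right h3 (by positivity)

theorem smb {f : ℕ → ℝ} (hf : Sg f) (B : ℕ) (δ : ℝ) (N : ℕ) (hN : 1 ≤ N) (hH : Hyp f B δ N)
    (L q k : ℕ) (θ : ℝ) (hLB : L ≤ B) (hq : 1 ≤ q) (hk : 1 ≤ k) (hkθ : 8 * (k * θ) ≤ 1)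
    (hkL : 2 * k * q ≤ L) :
    (((Icc 1 N).filter (fun n => ∃ s t, Cod f L n s t ∧ nrm (q * s) ≤ θ)).card : ℝ)
      ≤ 2 * (1 / k + δ) * N := by
  have hk0 : (0 : ℝ) < k := by exact_mod_cast hk
  have hkq : k * q + k * q ≤ L := by
    have : 2 * k * q = k * q + k * q := by ring
    omega
  have c0 := smb_card hf B δ N hN hH q k 0 hq hk (by omega)
  have c1 := smb_card hf B δ N hN hH q k (k * q) hq hk (by omega)
  have hsub : (Icc 1 N).filter (fun n => ∃ s t, Cod f L n s t ∧ nrm (q * s) ≤ θ) ⊆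
      ((Icc 1 N).filter (fun n => (∑ j ∈ range k, f (n + 0 + j * q)) ^ 2 = (k : ℝ) ^ 2)) ∪
      ((Icc 1 N).filter (fun n => (∑ j ∈ range k, f (n + k * q + j * q)) ^ 2 = (k : ℝ) ^ 2)) := by
    intro n hn
    rw [mem_filter] at hn
    obtain ⟨hnN, s, t, hc, hs⟩ := hn
    obtain ⟨z, hz, _⟩ := nrm_rep (q * s)
    rw [hz] at hs
    have hval : ∀ j : ℕ, j < 2 * k → f (n + j * q) = phi (t + (j : ℝ) * (q * s - z)) := by
      intro j hj
      have hjL : j * q ≤ L := by
        have : j * q ≤ 2 * k * q := Nat.mul_le_mul_right q hj.le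
        omega
      rw [(hc (j * q) hjL).2]
      have e : t + ((j * q : ℕ) : ℝ) * s = (t + (j : ℝ) * (q * s - z)) + (((j : ℤ) * z : ℤ) : ℝ) := by
        push_cast; ring
      rw [e, phi_int]
    have hcst : ∀ (a : ℕ) (v : ℝ), (∀ j, j < k → f (n + a + j * q) = v) → (v = 1 ∨ v = -1) →
        (∑ j ∈ range k, f (n + a + j * q)) ^ 2 = (k : ℝ) ^ 2 := by
      intro a v h1 h2
      rw [Finset.sum_congr rfl (fun j hj => h1 j (mem_range.1 hj)), Finset.sum_const, card_range,
        nsmul_eq_mul]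
      rcases h2 with h | h <;> rw [h] <;> ring
    rw [mem_union, mem_filter, mem_filter]
    rcases smb_block k hk t (q * s - z) θ hs hkθ with h | h
    · left
      refine ⟨hnN, hcst 0 (phi (t + ((0 : ℕ) : ℝ) * (q * s - z))) (fun j hj => ?_) (phi_cases' _)⟩
      rw [add_zero, hval j (by omega)]
      exact h j hj
    · right
      refine ⟨hnN, hcst (k * q) (phi (t + (k : ℝ) * (q * s - z))) (fun j hj => ?_) (phi_cases' _)⟩
      have e : n + k * q + j * q = n + (k + j) * q := by ring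
      rw [e, hval (k + j) (by omega)]
      exact h j hj
  have h1 := Finset.card_le_card hsub
  have h2 := h1.trans (Finset.card_union_le _ _)
  have h3 : (((Icc 1 N).filter (fun n => ∃ s t, Cod f L n s t ∧ nrm (q * s) ≤ θ)).card : ℝ) ≤
      (((Icc 1 N).filter (fun n => (∑ j ∈ range k, f (n + 0 + j * q)) ^ 2 = (k : ℝ) ^ 2)).card : ℝ)
      + (((Icc 1 N).filter (fun n => (∑ j ∈ range k, f (n + k * q + j * q)) ^ 2 =
        (k : ℝ) ^ 2)).card : ℝ) := by
    exact_mod_cast h2
  linarith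

end Pool.Agent.Lib.MP_f6c41f_nt.RT
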