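import Pool.Agent.Lib.MP_f6c41f_nt.RT.VioC
import Pool.Agent.Lib.MP_f6c41f_nt.RT.Cow
import Pool.Agent.Lib.MP_f6c41f_nt.RT.Smb

/-!
# MP_f6c41f_nt RT, row Gdd: most numbers are good

Proof.  If `n` has no `(s, t)` with `Cod` and `ND`, then either `w i = f (n + i)` has a violation `Vio w k b b'` with
`2 ≤ k`, `b + k ≤ L`, `b' + k ≤ L` (else `cow` gives `(s, t)` with `Cod`): at most `(L+1)^3` triples `(k, b, b')`, each has
at most `256 δ N` numbers (`vioC`, `L ≤ B`); or `Cod f L n s t` and not `ND`: some `1 ≤ q ≤ Q` with `nrm (q s) ≤ θ`: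
`smb` for each `q ≤ Q` (`2 k q ≤ 2 k Q ≤ L`).
-/

set_option autoImplicit false

namespace Pool.Agent.Lib.MP_f6c41f_nt.RT

open Finset Pool.Agent.Lib.MP_f6c41f_nt
open scoped Classical

theorem gdd {f : ℕ → ℝ} (hf : Sg f) (B : ℕ) (δ : ℝ) (N : ℕ) (hN : 1 ≤ N) (hH : Hyp f B δ N)
    (L Q k : ℕ) (θ : ℝ) (hLB : L ≤ B) (hk : 1 ≤ k) (hkθ : 8 * (k * θ) ≤ 1) (hkL : 2 * k * Q ≤ L) :
    (((Icc 1 N).filter (fun n => ¬ ∃ s t, Cod f L n s t ∧ ND Q θ s)).card : ℝ)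
      ≤ (256 * ((L : ℝ) + 1) ^ 3 * δ + 2 * Q * (1 / k + δ)) * N := by
  have hδ : 0 ≤ δ := (abs_nonneg _).trans (hH ∅ (by simp) (by simp))
  obtain ⟨T, hT⟩ : ∃ T, T = ((range (L + 1)) ×ˢ (range (L + 1)) ×ˢ (range (L + 1))).filter
      (fun p => 2 ≤ p.1 ∧ p.2.1 + p.1 ≤ L ∧ p.2.2 + p.1 ≤ L) := ⟨_, rfl⟩
  have hTc : (T.card : ℝ) ≤ ((L : ℝ) + 1) ^ 3 := by
    have h1 : T.card ≤ (L + 1) * ((L + 1) * (L + 1)) := by
      rw [hT]
      refine (card_filter_le _ _).trans ?_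
      rw [card_product, card_product, card_range]
    have h2 : (T.card : ℝ) ≤ ((L + 1) * ((L + 1) * (L + 1)) : ℕ) := by exact_mod_cast h1
    refine h2.trans (le_of_eq ?_)
    push_cast
    ring
  have hsub : (Icc 1 N).filter (fun n => ¬ ∃ s t, Cod f L n s t ∧ ND Q θ s) ⊆
      (T.biUnion fun p =>
        (Icc 1 N).filter (fun n => Vio (fun i => f (n + i)) p.1 p.2.1 p.2.2)) ∪
      ((Icc 1 Q).biUnion fun q =>
        (Icc 1 N).filter (fun n => ∃ s t, Cod f L n s t ∧ nrm (q * s) ≤ θ)) := by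
    intro n hn
    rw [mem_filter] at hn
    obtain ⟨hn1, hn2⟩ := hn
    rw [mem_union]
    by_cases hv : ∃ k' b b', 2 ≤ k' ∧ b + k' ≤ L ∧ b' + k' ≤ L ∧
        Vio (fun i => f (n + i)) k' b b'
    · left
      obtain ⟨k', b, b', h1, h2, h3, h4⟩ := hv
      rw [mem_biUnion]
      refine ⟨(k', b, b'), ?_, mem_filter.2 ⟨hn1, h4⟩⟩
      simp only [hT, mem_filter, mem_product, mem_range]
      omega
    · right
      push Not at hv
      obtain ⟨s, t, hst⟩ := cow (fun i => f (n + i)) (fun i => hf _) L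
        (fun k' b b' h1 h2 h3 => hv k' b b' h1 h2 h3)
      have hnd : ¬ ND Q θ s := fun h => hn2 ⟨s, t, hst, h⟩
      unfold ND at hnd
      push Not at hnd
      obtain ⟨q, hq1, hq2, hq3⟩ := hnd
      exact mem_biUnion.2 ⟨q, mem_Icc.2 ⟨hq1, hq2⟩, mem_filter.2 ⟨hn1, s, t, hst, hq3⟩⟩
  have hN0 : (0 : ℝ) ≤ N := Nat.cast_nonneg _
  have hA : ((T.biUnion fun p =>
      (Icc 1 N).filter (fun n => Vio (fun i => f (n + i)) p.1 p.2.1 p.2.2)).card : ℝ) ≤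
      ((L : ℝ) + 1) ^ 3 * (256 * δ * N) := by
    have h1 : ((T.biUnion fun p =>
        (Icc 1 N).filter (fun n => Vio (fun i => f (n + i)) p.1 p.2.1 p.2.2)).card : ℝ) ≤
        ∑ p ∈ T, (((Icc 1 N).filter
          (fun n => Vio (fun i => f (n + i)) p.1 p.2.1 p.2.2)).card : ℝ) := by
      exact_mod_cast card_biUnion_le
    have h2 : ∑ p ∈ T, (((Icc 1 N).filter
          (fun n => Vio (fun i => f (n + i)) p.1 p.2.1 p.2.2)).card : ℝ) ≤
        ∑ _p ∈ T, 256 * δ * (N : ℝ) := by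
      refine Finset.sum_le_sum fun p hp => ?_
      rw [hT, mem_filter] at hp
      obtain ⟨-, h3, h4, h5⟩ := hp
      exact vioC hf B δ N hN hH p.1 p.2.1 p.2.2 h3 (by omega) (by omega)
    rw [Finset.sum_const, nsmul_eq_mul] at h2
    refine h1.trans (h2.trans (mul_le_mul_of_nonneg_right hTc ?_))
    positivity
  have hB : (((Icc 1 Q).biUnion fun q =>
      (Icc 1 N).filter (fun n => ∃ s t, Cod f L n s t ∧ nrm (q * s) ≤ θ)).card : ℝ) ≤
      Q * (2 * (1 / k + δ) * N) := by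
    have h1 : (((Icc 1 Q).biUnion fun q =>
        (Icc 1 N).filter (fun n => ∃ s t, Cod f L n s t ∧ nrm (q * s) ≤ θ)).card : ℝ) ≤
        ∑ q ∈ Icc 1 Q, (((Icc 1 N).filter
          (fun n => ∃ s t, Cod f L n s t ∧ nrm (q * s) ≤ θ)).card : ℝ) := by
      exact_mod_cast card_biUnion_le
    have h2 : ∑ q ∈ Icc 1 Q, (((Icc 1 N).filter
          (fun n => ∃ s t, Cod f L n s t ∧ nrm (q * s) ≤ θ)).card : ℝ) ≤
        ∑ _q ∈ Icc 1 Q, 2 * (1 / (k : ℝ) + δ) * (N : ℝ) := by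
      refine Finset.sum_le_sum fun q hq => ?_
      obtain ⟨h3, h4⟩ := mem_Icc.1 hq
      exact smb hf B δ N hN hH L q k θ hLB h3 hk hkθ
        ((Nat.mul_le_mul_left (2 * k) h4).trans hkL)
    rw [Finset.sum_const, nsmul_eq_mul, Nat.card_Icc, Nat.add_sub_cancel] at h2
    exact h1.trans h2
  calc (((Icc 1 N).filter (fun n => ¬ ∃ s t, Cod f L n s t ∧ ND Q θ s)).card : ℝ)
      ≤ (((T.biUnion fun p =>
        (Icc 1 N).filter (fun n => Vio (fun i => f (n + i)) p.1 p.2.1 p.2.2)) ∪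
      ((Icc 1 Q).biUnion fun q =>
        (Icc 1 N).filter (fun n => ∃ s t, Cod f L n s t ∧ nrm (q * s) ≤ θ))).card : ℝ) := by
        exact_mod_cast card_le_card hsub
    _ ≤ ((T.biUnion fun p =>
        (Icc 1 N).filter (fun n => Vio (fun i => f (n + i)) p.1 p.2.1 p.2.2)).card : ℝ) +
      (((Icc 1 Q).biUnion fun q =>
        (Icc 1 N).filter (fun n => ∃ s t, Cod f L n s t ∧ nrm (q * s) ≤ θ)).card : ℝ) := by
        exact_mod_cast card_union_le _ _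
    _ ≤ ((L : ℝ) + 1) ^ 3 * (256 * δ * N) + Q * (2 * (1 / k + δ) * N) := add_le_add hA hB
    _ = (256 * ((L : ℝ) + 1) ^ 3 * δ + 2 * Q * (1 / k + δ)) * N := by ring

end Pool.Agent.Lib.MP_f6c41f_nt.RT
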