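import Pool.Agent.Lib.MP_f6c41f_nt.RT.Rig

/-!
# MP_f6c41f_nt RT, row Ovl: overlapping windows

Proof.  Case `x ≤ x'`, `k = x' - x ≤ G0 ≤ L/2`: for `1 ≤ h ≤ H := L - k` both windows see `f (x' + h) = f (x + (k + h))`:
`phi (t' + h s') = phi ((t + k s) + h s)`, strict on both sides; `H - 1 ≥ L/2 - 1 ≥ L/5`.  `rig` (base `(s, t + k s)`)
gives `e` with `nrm (s' - e s) ≤ c`, `nrm (t' - flp e (t + k s)) ≤ ρ`.
Case `x' < x`, `k = x - x'`: `rig` with base `(s', t' + k s')` and `(s, t)`: `nrm (s - e s') ≤ c`,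
`nrm (t - flp e (t' + k s')) ≤ ρ`.  Multiply by `e` / apply `flp e` (`nrm_flp_sub`, `flp_self`):
`nrm (s' - e s) ≤ c` and `nrm (t' + k s' - flp e t) ≤ ρ`, so
`nrm (t' - flp e (t - k s)) = nrm (t' - flp e t + k e s) ≤ ρ + nrm (k (s' - e s)) ≤ ρ + k c ≤ ρ + G0 c`
(`nrm_nat_mul_le`).
-/

set_option autoImplicit false

namespace Pool.Agent.Lib.MP_f6c41f_nt.RT

open Finset Pool.Agent.Lib.MP_f6c41f_nt
open scoped Classical

theorem ovl {f : ℕ → ℝ} {L Q M : ℕ} {θ ρ c : ℝ} (P : Par L Q M θ ρ c) (x x' : ℕ) (s t s' t' : ℝ)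
    (hx : Cod f L x s t) (hx' : Cod f L x' s' t') (hs : ND Q θ s) (hs' : ND Q θ s')
    (G0 : ℕ) (hG0 : 2 * G0 ≤ L) (h1 : (x : ℤ) - x' ≤ G0) (h2 : (x' : ℤ) - x ≤ G0) :
    ∃ e, Sgn e ∧ nrm (s' - e * s) ≤ c ∧
      nrm (t' - flp e (t + ((x' : ℝ) - x) * s)) ≤ ρ + G0 * c := by
  have hc := par_c_pos P
  have hL := P.hL
  have hG0c : 0 ≤ (G0 : ℝ) * c := by positivity
  rcases le_or_gt x x' with hle | hlt
  · obtain ⟨k, rfl⟩ := Nat.exists_eq_add_of_le hle
    have hk : k ≤ G0 := by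
      have : ((x + k : ℕ) : ℤ) - x = k := by push_cast; ring
      rw [this] at h2
      exact_mod_cast h2
    obtain ⟨e, he, e1, e2⟩ := rig P (L - k) (by omega) s (t + k * s) s' t' hs (by
      intro h _ hh
      obtain ⟨a1, a2⟩ := hx (k + h) (by omega)
      obtain ⟨b1, b2⟩ := hx' h (by omega)
      have a3 : t + ((k + h : ℕ) : ℝ) * s = t + k * s + h * s := by push_cast; ring
      rw [a3] at a1 a2
      refine ⟨a1, b1, ?_⟩
      rw [← a2, ← b2, add_assoc])
    refine ⟨e, he, e1, ?_⟩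
    have e3 : (((x + k : ℕ) : ℝ) - x) = k := by push_cast; ring
    rw [e3]
    linarith
  · obtain ⟨k, rfl⟩ := Nat.exists_eq_add_of_le hlt.le
    have hk : k ≤ G0 := by
      have : ((x' + k : ℕ) : ℤ) - x' = k := by push_cast; ring
      rw [this] at h1
      exact_mod_cast h1
    obtain ⟨e, he, e1, e2⟩ := rig P (L - k) (by omega) s' (t' + k * s') s t hs' (by
      intro h _ hh
      obtain ⟨a1, a2⟩ := hx' (k + h) (by omega)
      obtain ⟨b1, b2⟩ := hx h (by omega)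
      have a3 : t' + ((k + h : ℕ) : ℝ) * s' = t' + k * s' + h * s' := by push_cast; ring
      rw [a3] at a1 a2
      refine ⟨a1, b1, ?_⟩
      rw [← a2, ← b2, add_assoc])
    have e3 : nrm (s' - e * s) ≤ c := by
      have h3 : e * (s - e * s') = -(s' - e * s) := by
        have := sgn_sq he
        linear_combination (-s') * this
      rw [← nrm_neg (s' - e * s), ← h3, nrm_sgn_mul he]
      exact e1
    have e4 : nrm (t' + k * s' - flp e t) ≤ ρ := by
      rw [← nrm_flp_sub he, flp_self he, nrm_comm]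
      exact e2
    refine ⟨e, he, e3, ?_⟩
    have e5 : t' - flp e (t + ((x' : ℝ) - ((x' + k : ℕ) : ℝ)) * s) =
        (t' + k * s' - flp e t) - k * (s' - e * s) := by
      rw [flp_add]
      push_cast
      ring
    rw [e5]
    refine (nrm_sub _ _).trans ?_
    have e6 := nrm_nat_mul_le k (s' - e * s)
    have e7 : (k : ℝ) * nrm (s' - e * s) ≤ G0 * c := by
      refine mul_le_mul (by exact_mod_cast hk) e3 (nrm_nonneg _) (Nat.cast_nonneg _)
    linarith

end Pool.Agent.Lib.MP_f6c41f_nt.RT
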