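import Pool.Agent.Lib.MP_f6c41f_nt.RT.Rig
import Pool.Agent.Lib.MP_f6c41f_nt.RT.Tool

/-!
# MP_f6c41f_nt RT, row Rel2: frequency and phase at `x / 2`

Proof.  Put `m = x / 2 > 0`, `b = x % 2`, `κ = (1 - f 2)/4 ∈ {0, 1/2}`, `T = t - b s + κ`, `H = L / 2`.  As in
row Rel34: for `1 ≤ h ≤ H`, `f (m + h) = phi (T + h (2 s))`, strict, and `= phi (t' + h s')`, strict.
`rig` with base `(s', t')` (nondegenerate by `hs'`) and second word `(2 s, T)` gives a sign `e` with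
`nrm (2 s - e s') ≤ c`, `nrm (T - flp e t') ≤ ρ`; multiply by `e` and apply `flp e` (`nrm_sgn_mul`, `nrm_flp_sub`,
`flp_self`, `nrm_comm`).
-/

set_option autoImplicit false

namespace Pool.Agent.Lib.MP_f6c41f_nt.RT

open Finset Pool.Agent.Lib.MP_f6c41f_nt
open scoped Classical

theorem rel2 {f : ℕ → ℝ} {L Q M : ℕ} {θ ρ c : ℝ} (P : Par L Q M θ ρ c) (hf : Sg f) (hm : Mul f)
    (x : ℕ) (hx0 : 0 < x / 2) (s t s' t' : ℝ)
    (hx : Cod f L x s t) (hx' : Cod f L (x / 2) s' t') (hs' : ND Q θ s') :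
    ∃ e, Sgn e ∧ nrm (s' - e * (2 * s)) ≤ c ∧
      nrm (t' - flp e (t - ((x % 2 : ℕ) : ℝ) * s + (1 - f 2) / 4)) ≤ ρ := by
  have hL := P.hL
  have key : ∀ h : ℕ, 1 ≤ h → h ≤ L / 2 →
      Str (t - ((x % 2 : ℕ) : ℝ) * s + (1 - f 2) / 4 + h * (2 * s)) ∧
      f (x / 2 + h) = phi (t - ((x % 2 : ℕ) : ℝ) * s + (1 - f 2) / 4 + h * (2 * s)) := by
    intro h h1 h2
    have hb : x % 2 ≤ 1 := by omega
    have hk : 2 * h - x % 2 ≤ L := by omega
    obtain ⟨c1, c2⟩ := hx (2 * h - x % 2) hk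
    have e1 : 2 * (x / 2 + h) = x + (2 * h - x % 2) := by omega
    have e2 := hm 2 (x / 2 + h) (by norm_num) (by omega)
    rw [e1, c2] at e2
    have e3 : (((2 * h - x % 2 : ℕ)) : ℝ) = 2 * h - ((x % 2 : ℕ) : ℝ) := by
      rw [Nat.cast_sub (by omega)]
      push_cast
      ring
    rw [e3] at c1 e2
    rcases hf 2 with h3 | h3
    · rw [h3] at e2 ⊢
      have e4 : t - ((x % 2 : ℕ) : ℝ) * s + (1 - 1) / 4 + h * (2 * s) =
          t + (2 * h - ((x % 2 : ℕ) : ℝ)) * s := by ring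
      rw [e4]
      exact ⟨c1, by rw [e2, one_mul]⟩
    · rw [h3] at e2 ⊢
      have e4 : t - ((x % 2 : ℕ) : ℝ) * s + (1 - -1) / 4 + h * (2 * s) =
          t + (2 * h - ((x % 2 : ℕ) : ℝ)) * s + 1 / 2 := by ring
      rw [e4]
      refine ⟨str_half c1, ?_⟩
      rw [phi_half, e2]
      ring
  obtain ⟨e, he, h1, h2⟩ := rig P (L / 2) (by omega) s' t' (2 * s)
    (t - ((x % 2 : ℕ) : ℝ) * s + (1 - f 2) / 4) hs' (by
      intro h h1 h2
      obtain ⟨a1, a2⟩ := hx' h (by omega)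
      obtain ⟨b1, b2⟩ := key h h1 h2
      exact ⟨a1, b1, by rw [← a2, ← b2]⟩)
  refine ⟨e, he, ?_, ?_⟩
  · have h3 : s' - e * (2 * s) = e * (e * s' - 2 * s) := by
      have := sgn_sq he
      linear_combination (-s') * this
    rw [h3, nrm_sgn_mul he, nrm_comm]
    exact h1
  · rw [← flp_self he t', nrm_flp_sub he, nrm_comm]
    exact h2

end Pool.Agent.Lib.MP_f6c41f_nt.RT
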