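import Pool.Agent.Lib.MP_f6c41f_nt.RT.RigS
import Pool.Agent.Lib.MP_f6c41f_nt.RT.Den1

/-!
# MP_f6c41f_nt RT, row Rig: rigidity of coded words

Proof.  `rigS` gives `e` with `nrm (s' - e s) ≤ 1/(H-1) ≤ 5/L = c` (`hH`: `L ≤ 5 (H-1)`, `P.hc`).  Replace
`(s, t)` by `(s1, t1) = (e s, flp e t)`: `flp e (t + h s) = t1 + h s1` (`flp_add`), same word (`phi_flp`),
`ND Q θ s1` (`nd_sgn`).  Claim `nrm (t' - t1) ≤ ρ`.  Write (`nrm_rep`) `t' = t1 + τ + z`, `|τ| = nrm (t' - t1) ≤ 1/2`,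
`s' = s1 + σ + z'`, `|σ| ≤ c`.  Suppose `|τ| > ρ`.  For `1 ≤ h ≤ M` (`M ≤ H`: `M c ≤ ρ/4 ≤ 1/400`, so `M ≤ L/2000`)
`t' + h s' = (t1 + h s1) + (τ + h σ) + integer` and `|h σ| ≤ M c ≤ ρ/4`.  Apply `den1` with arcs of length
`ρ/2` (`3 ≤ (ρ/2) Q`) to the orbit `t1 + h s1`:
* `ρ < τ ≤ 1/4`: arc `(1/2 - ρ/2, 1/2)`: there `phi (t1 + h s1) = 1` and `t' + h s'` is modulo one in
  `(1/2 - ρ/2 + 3ρ/4, 1/2 + 1/4 + ρ/4) ⊂ (1/2, 1)`, so `phi = -1`: contradiction.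
* `1/4 < τ ≤ 1/2`: arc `(1/4 + ρ/4, 1/4 + 3ρ/4)`: `phi (t1 + h s1) = 1`, and `t' + h s'` is in
  `(1/2, 3/4 + ρ)`, `phi = -1`.
* `τ < 0`: symmetric: `-1/4 ≤ τ < -ρ`: arc `(0, ρ/2)` (`phi = 1`), image in `(-1/4 - ρ/4, -ρ/4) ⊂ (-1/2, 0)`,
  `phi = -1`; `-1/2 ≤ τ < -1/4`: arc `(1/4 - 3ρ/4, 1/4 - ρ/4)`, image in `(-1/4 - ρ, 0)`, `phi = -1`.
(`C6_phi_one`, `C6_phi_neg` in `Lib/MP_f6c41f_nt/C6` give the values of `phi` on `[0,1/2)` and `[1/2,1)`,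
`phi_int` the period.)
-/

set_option autoImplicit false

namespace Pool.Agent.Lib.MP_f6c41f_nt.RT

open Finset Pool.Agent.Lib.MP_f6c41f_nt
open scoped Classical

theorem rig {L Q M : ℕ} {θ ρ c : ℝ} (P : Par L Q M θ ρ c) (H : ℕ) (hH : L ≤ 5 * (H - 1))
    (s t s' t' : ℝ) (hs : ND Q θ s)
    (h : ∀ h : ℕ, 1 ≤ h → h ≤ H →
      Str (t + h * s) ∧ Str (t' + h * s') ∧ phi (t + h * s) = phi (t' + h * s')) :
    ∃ e, Sgn e ∧ nrm (s' - e * s) ≤ c ∧ nrm (t' - flp e t) ≤ ρ := by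
  have hcpos := par_c_pos P
  have hρpos := par_rho_pos P
  have hρ1 := P.hρ
  have hLr : (100 : ℝ) ≤ L := by exact_mod_cast P.hL
  have hH2 : 2 ≤ H := by
    have := P.hL
    omega
  have hHr : (L : ℝ) ≤ 5 * ((H : ℝ) - 1) := by
    have h1 : (L : ℝ) ≤ ((5 * (H - 1) : ℕ) : ℝ) := by exact_mod_cast hH
    have h2 : (((H - 1 : ℕ)) : ℝ) = (H : ℝ) - 1 := by
      rw [Nat.cast_sub (by omega)]
      norm_num
    push_cast [h2] at h1
    linarith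
  obtain ⟨e, he, hes⟩ := rigS H hH2 s t s' t' h
  have hH1 : (0 : ℝ) < (H : ℝ) - 1 := by linarith
  have hc1 : 1 / ((H : ℝ) - 1) ≤ c := by
    rw [div_le_iff₀ hH1]
    have := P.hc
    nlinarith
  have hsc : nrm (s' - e * s) ≤ c := hes.trans hc1
  refine ⟨e, he, hsc, ?_⟩
  have hMH : M ≤ H := by
    have h1 := P.hMc
    have h2 := P.hc
    have h3 : (M : ℝ) * c ≤ 1 / 400 := by linarith
    have h4 : (M : ℝ) ≤ H := by
      by_contra hcon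
      push Not at hcon
      have h5 : (H : ℝ) * c ≤ 1 / 400 := by nlinarith
      nlinarith
    exact_mod_cast h4
  obtain ⟨z, hz, hz2⟩ := nrm_rep (t' - flp e t)
  obtain ⟨z', hz', _⟩ := nrm_rep (s' - e * s)
  set τ := t' - flp e t - z with hτ
  set σ := s' - e * s - z' with hσ
  rw [hz'] at hsc
  rw [hz]
  by_contra hcon
  push Not at hcon
  have hmain : ∃ x : ℝ, ∀ y δ : ℝ, x < y → y < x + ρ / 2 → |δ| ≤ ρ / 4 →
      phi y = 1 ∧ phi (y + τ + δ) = -1 := by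
    obtain ⟨hz3, hz4⟩ := abs_le.mp hz2
    rcases le_total 0 τ with h0 | h0
    · rw [abs_of_nonneg h0] at hcon
      rcases le_or_gt τ (1 / 4) with h1 | h1
      · refine ⟨1 / 2 - ρ / 2, fun y δ hy1 hy2 hδ => ?_⟩
        obtain ⟨hd1, hd2⟩ := abs_le.mp hδ
        exact ⟨C6_phi_one _ (by linarith) (by linarith),
          C6_phi_neg _ (by linarith) (by linarith)⟩
      · refine ⟨1 / 4 + ρ / 4, fun y δ hy1 hy2 hδ => ?_⟩
        obtain ⟨hd1, hd2⟩ := abs_le.mp hδ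
        exact ⟨C6_phi_one _ (by linarith) (by linarith),
          C6_phi_neg _ (by linarith) (by linarith)⟩
    · rw [abs_of_nonpos h0] at hcon
      rcases le_or_gt (-1 / 4) τ with h1 | h1
      · refine ⟨0, fun y δ hy1 hy2 hδ => ?_⟩
        obtain ⟨hd1, hd2⟩ := abs_le.mp hδ
        refine ⟨C6_phi_one _ (by linarith) (by linarith), ?_⟩
        rw [← phi_int (y + τ + δ) 1]
        push_cast
        exact C6_phi_neg _ (by linarith) (by linarith)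
      · refine ⟨1 / 4 - 3 * ρ / 4, fun y δ hy1 hy2 hδ => ?_⟩
        obtain ⟨hd1, hd2⟩ := abs_le.mp hδ
        refine ⟨C6_phi_one _ (by linarith) (by linarith), ?_⟩
        rw [← phi_int (y + τ + δ) 1]
        push_cast
        exact C6_phi_neg _ (by linarith) (by linarith)
  obtain ⟨x, hx⟩ := hmain
  obtain ⟨k, hk1, hkM, m, hm1, hm2⟩ := den1 Q M θ (e * s) (nd_sgn he hs) P.hM1 P.hM (ρ / 2)
    (by have := P.hQ; linarith) (flp e t) x
  have hkσ : |(k : ℝ) * σ| ≤ ρ / 4 := by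
    rw [abs_mul, Nat.abs_cast]
    have h1 : (k : ℝ) ≤ M := by exact_mod_cast hkM
    have h2 := P.hMc
    have h3 := abs_nonneg σ
    calc (k : ℝ) * |σ| ≤ M * c := by
          apply mul_le_mul h1 hsc h3
          exact Nat.cast_nonneg _
      _ ≤ ρ / 4 := by linarith
  obtain ⟨p1, p2⟩ := hx _ _ hm1 hm2 hkσ
  obtain ⟨q1, _, q3⟩ := h k hk1 (hkM.trans hMH)
  rw [phi_int] at p1
  have e1 : flp e t + (k : ℝ) * (e * s) = flp e (t + k * s) := by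
    rw [flp_add]
    ring
  rw [e1, phi_flp he q1, q3] at p1
  have e2 : flp e t + (k : ℝ) * (e * s) + m + τ + k * σ =
      t' + k * s' + ((m - z - k * z' : ℤ) : ℝ) := by
    rw [hτ, hσ]
    push_cast
    ring
  rw [e2, phi_int, p1] at p2
  norm_num at p2

end Pool.Agent.Lib.MP_f6c41f_nt.RT
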