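import Pool.Agent.Lib.MP_f6c41f_nt.RT.Cls
import Pool.Agent.Lib.MP_f6c41f_nt.RT.Rel2

/-!
# MP_f6c41f_nt RT, row T4: the parallelogram relation for the phases

Write `X_k = x k`, `σ = (1, -1, -1, 1)`.  For `i` with `2^i ≤ Y` let `x_k = X_k / 2^i`, `κ_i = Σ σ_k x_k` (integer).
Claim(i): for all signs `e` with `nrm (e_k s(x_k) - e_0 s(x_0)) ≤ c` for all `k`:
`nrm (Σ σ_k flp e_k (t(x_k)) - κ_i e_0 s(x_0)) ≤ (6 + 5 (I - i)) ρ`, `I = Nat.log 2 Y`; downward induction on `i`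
from `I` to `0` (as `2^I ≤ Y < 2^(I+1)`), the theorem is Claim(0).
`|κ_i| ≤ 2`: with `b_k = x_k % 2`, `B = Σ σ_k b_k`, `|B| ≤ 2`: `κ_i = 2 κ_(i+1) + B`.
Base `i = I`: `ovl` for `(x_0, x_k)` (distance `≤ G0`, `G0 c ≤ ρ`): signs `g_k` (`g_0 = 1`) with
`nrm (s(x_k) - g_k s(x_0)) ≤ c`, `nrm (t(x_k) - flp g_k (t(x_0) + (x_k - x_0) s(x_0))) ≤ 2 ρ`.  Uniqueness: if
`e_k ≠ g_k e_0` then `nrm (2 s(x_0)) ≤ 2 c < θ`, contradiction to `ND` (`q = 2`).  So `e_k = g_k e_0`, and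
`flp e_k (t(x_k)) ≈ flp e_0 (t(x_0) + (x_k - x_0) s(x_0)) = flp e_0 (t(x_0)) + e_0 (x_k - x_0) s(x_0)` within `2 ρ`
(`nrm_flp_sub`, `flp_mul`), for `k = 1, 2, 3`; sum with `σ`: the terms `flp e_0 (t(x_0))` cancel (`Σ σ_k = 0`) and
`Σ σ_k (x_k - x_0) = κ_I`.  Total error `≤ 6 ρ`.
Step: assume Claim(i+1), let `e` be as in Claim(i).  `rel2` at `x_k`: signs `ε_k` with
`nrm (s(x_k/2) - ε_k 2 s(x_k)) ≤ c`, `nrm (t(x_k/2) - flp ε_k (t(x_k) - b_k s(x_k) + κ)) ≤ ρ`, `κ = (1 - f 2)/4`.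
Put `e'_k = e_k ε_k`.  Then `e'_k s(x_k/2) ≈ 2 e_k s(x_k) ≈ 2 e_0 s(x_0) ≈ e'_0 s(x_0/2)` within `4 c`.  By `cls` at
`2^(i+1)` there is a sign `g` with `nrm (s(x_k/2) - g s(x_0/2)) ≤ c`; if `g ≠ e'_k e'_0` then
`nrm (2 s(x_0/2)) ≤ 5 c < θ`, contradiction; so `nrm (e'_k s(x_k/2) - e'_0 s(x_0/2)) ≤ c` and Claim(i+1) applies to
`e'`.  Moreover `flp e'_k (t(x_k/2)) ≈ flp e_k (t(x_k) - b_k s(x_k) + κ) = flp e_k (t(x_k)) - b_k e_k s(x_k) + e_k κ`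
within `ρ`, and `e_k κ ≡ κ` modulo one (`κ ∈ {0, 1/2}`), so these cancel in the sum.  So
`Σ σ_k flp e'_k (t(x_k/2)) - κ_(i+1) e'_0 s(x_0/2) ≈ Σ σ_k flp e_k (t(x_k)) - (B + 2 κ_(i+1)) e_0 s(x_0)` within
`4 ρ + 3 c + 2 c ≤ 5 ρ`, and `B + 2 κ_(i+1) = κ_i`.
-/

set_option autoImplicit false

namespace Pool.Agent.Lib.MP_f6c41f_nt.RT

open Finset Pool.Agent.Lib.MP_f6c41f_nt
open scoped Classical

private theorem t4_int_mul (k : ℤ) (x : ℝ) : nrm (k * x) ≤ |(k : ℝ)| * nrm x := by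
  rcases Int.natAbs_eq k with h | h
  · have e : (k : ℝ) = ((k.natAbs : ℕ) : ℝ) := by rw [h]; simp
    rw [e, Nat.abs_cast]
    exact nrm_nat_mul_le _ _
  · have e : (k : ℝ) = -((k.natAbs : ℕ) : ℝ) := by rw [h]; simp
    rw [e, abs_neg, Nat.abs_cast, neg_mul, nrm_neg]
    exact nrm_nat_mul_le _ _

private theorem t4_four (a b c d : ℝ) : nrm (a - b - c + d) ≤ nrm a + nrm b + nrm c + nrm d := by
  have h1 := nrm_add (a - b - c) d
  have h2 := nrm_sub (a - b) c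
  have h3 := nrm_sub a b
  linarith

private theorem t4_uniq {Q : ℕ} {θ s0 s' a g c1 c2 : ℝ} (hQ : 2 ≤ Q) (hnd : ND Q θ s0)
    (ha : Sgn a) (hg : Sgn g) (h1 : nrm (s' - a * s0) ≤ c1) (h2 : nrm (s' - g * s0) ≤ c2)
    (hθ : c1 + c2 < θ) : a = g := by
  by_contra hne
  have hag : g = -a := by
    rcases ha with h | h <;> rcases hg with h' | h'
    · exact absurd (h.trans h'.symm) hne
    · rw [h, h']
    · rw [h, h']; norm_num
    · exact absurd (h.trans h'.symm) hne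
  have h3 := nrm_sub (s' - g * s0) (s' - a * s0)
  have e : s' - g * s0 - (s' - a * s0) = a * (((2 : ℕ) : ℝ) * s0) := by
    rw [hag]; push_cast; ring
  rw [e, nrm_sgn_mul ha] at h3
  have h4 := hnd 2 (by norm_num) hQ
  linarith

private theorem t4_mulsgn {a b s s' c : ℝ} (ha : Sgn a) (h : nrm (s' - a * b * s) ≤ c) :
    nrm (a * s' - b * s) ≤ c := by
  have : a * s' - b * s = a * (s' - a * b * s) := by
    have := sgn_sq ha
    linear_combination (b * s) * this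
  rw [this, nrm_sgn_mul ha]; exact h

private theorem t4_mulsgn' {a b s s' c : ℝ} (ha : Sgn a) (h : nrm (a * s' - b * s) ≤ c) :
    nrm (s' - a * b * s) ≤ c := by
  have : a * s' - b * s = a * (s' - a * b * s) := by
    have := sgn_sq ha
    linear_combination (b * s) * this
  rw [this, nrm_sgn_mul ha] at h; exact h

private theorem t4_flp {e g T t r : ℝ} (he : Sgn e) (hg : Sgn g) (h : nrm (t - flp g T) ≤ r) :
    nrm (flp e t - flp (e * g) T) ≤ r := by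
  have h1 := nrm_tri (flp e t) (flp e (flp g T)) (flp (e * g) T)
  rw [nrm_flp_sub he, flp_mul he hg] at h1
  linarith

private theorem t4_kap (x : Fin 4 → ℕ) (κ : ℤ) (hκ : (x 0 : ℤ) - x 1 - x 2 + x 3 = κ)
    (hκ2 : |κ| ≤ 2) (i : ℕ) :
    |((x 0 / 2 ^ i : ℕ) : ℤ) - ((x 1 / 2 ^ i : ℕ) : ℤ) - ((x 2 / 2 ^ i : ℕ) : ℤ)
      + ((x 3 / 2 ^ i : ℕ) : ℤ)| ≤ 2 := by
  induction i with
  | zero => simp only [pow_zero, Nat.div_one]; rw [hκ]; exact hκ2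
  | succ i ih =>
    have e : ∀ k, x k / 2 ^ (i + 1) = (x k / 2 ^ i) / 2 := by
      intro k
      rw [Nat.div_div_eq_div_mul, pow_succ]
    rw [e 0, e 1, e 2, e 3]
    rw [abs_le] at ih ⊢
    omega

/-- The claim at the level `i`, by downward induction. -/
private theorem t4_claim {f : ℕ → ℝ} {L Q M : ℕ} {θ ρ c : ℝ} (P : Par L Q M θ ρ c) {G : Set ℕ}
    {s t : ℕ → ℝ}
    (D : Dat f L Q θ G s t) (Y G0 : ℕ) (hY : 1 ≤ Y) (hG0 : 2 * G0 ≤ L) (hG0c : G0 * c ≤ ρ)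
    (x : Fin 4 → ℕ) (hx : ∀ k, SG G Y (x k))
    (hd : ∀ (k k' : Fin 4) (y : ℕ), y ≤ Y → Y < 4 * y →
      ((x k / y : ℕ) : ℤ) - ((x k' / y : ℕ) : ℤ) ≤ G0)
    (κ : ℤ) (hκ : (x 0 : ℤ) - x 1 - x 2 + x 3 = κ) (hκ2 : |κ| ≤ 2) (dd : ℕ) :
    ∀ i : ℕ, i + dd = Nat.log 2 Y → ∀ e : Fin 4 → ℝ, (∀ k, Sgn (e k)) →
    (∀ k, nrm (e k * s (x k / 2 ^ i) - e 0 * s (x 0 / 2 ^ i)) ≤ c) →
    nrm (flp (e 0) (t (x 0 / 2 ^ i)) - flp (e 1) (t (x 1 / 2 ^ i)) - flp (e 2) (t (x 2 / 2 ^ i))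
      + flp (e 3) (t (x 3 / 2 ^ i))
      - ((((x 0 / 2 ^ i : ℕ) : ℤ) - ((x 1 / 2 ^ i : ℕ) : ℤ) - ((x 2 / 2 ^ i : ℕ) : ℤ)
        + ((x 3 / 2 ^ i : ℕ) : ℤ) : ℤ) : ℝ) * (e 0 * s (x 0 / 2 ^ i)))
      ≤ (6 + 5 * (dd : ℝ)) * ρ := by
  have hc0 := par_c_pos P
  have hρ0 := par_rho_pos P
  have hQ2 : 2 ≤ Q := by
    have h1 := P.hQ
    have h2 := P.hρ
    have : (2 : ℝ) ≤ Q := by nlinarith [(Nat.cast_nonneg Q : (0 : ℝ) ≤ Q)]
    exact_mod_cast this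
  have hθ := P.hθ
  have hcρ := P.hcρ
  have hYpos : Y ≠ 0 := by omega
  have hG : ∀ (k : Fin 4) (i : ℕ), 2 ^ i ≤ Y → x k / 2 ^ i ∈ G := by
    intro k i hi
    have := hx k i 0 (by simpa using hi)
    simpa using this
  induction dd with
  | zero =>
    intro i hi e he hc
    have hi' : i = Nat.log 2 Y := by omega
    have h1 : 2 ^ i ≤ Y := by rw [hi']; exact Nat.pow_log_le_self 2 hYpos
    have h2 : Y < 2 ^ (i + 1) := by rw [hi']; exact Nat.lt_pow_succ_log_self (by norm_num) Y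
    have h3 : Y < 4 * 2 ^ i := by rw [pow_succ] at h2; omega
    have key : ∀ k : Fin 4, nrm (flp (e k) (t (x k / 2 ^ i)) - (flp (e 0) (t (x 0 / 2 ^ i)) +
        e 0 * ((((x k / 2 ^ i : ℕ) : ℝ) - ((x 0 / 2 ^ i : ℕ) : ℝ)) * s (x 0 / 2 ^ i)))) ≤
        2 * ρ := by
      intro k
      obtain ⟨g, hg, hg1, hg2⟩ := ovl P (x 0 / 2 ^ i) (x k / 2 ^ i) _ _ _ _
        (D.cod _ (hG 0 i h1)) (D.cod _ (hG k i h1)) (D.nd _ (hG 0 i h1)) (D.nd _ (hG k i h1))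
        G0 hG0 (hd 0 k _ h1 h3) (hd k 0 _ h1 h3)
      have hu : e k * e 0 = g := t4_uniq hQ2 (D.nd _ (hG 0 i h1)) (sgn_mul (he k) (he 0)) hg
        (t4_mulsgn' (he k) (hc k)) hg1 (by linarith)
      have h4 := t4_flp (he k) hg hg2
      have h5 : e k * g = e 0 := by
        rw [← hu, ← mul_assoc, sgn_sq (he k), one_mul]
      rw [h5, flp_add] at h4
      linarith
    have k1 := key 1
    have k2 := key 2
    have k3 := key 3
    set A0 := flp (e 0) (t (x 0 / 2 ^ i))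
    set A1 := flp (e 1) (t (x 1 / 2 ^ i))
    set A2 := flp (e 2) (t (x 2 / 2 ^ i))
    set A3 := flp (e 3) (t (x 3 / 2 ^ i))
    set σ0 := s (x 0 / 2 ^ i)
    have e1 : A0 - A1 - A2 + A3
      - ((((x 0 / 2 ^ i : ℕ) : ℤ) - ((x 1 / 2 ^ i : ℕ) : ℤ) - ((x 2 / 2 ^ i : ℕ) : ℤ)
        + ((x 3 / 2 ^ i : ℕ) : ℤ) : ℤ) : ℝ) * (e 0 * σ0) =
      0 - (A1 - (A0 + e 0 * ((((x 1 / 2 ^ i : ℕ) : ℝ) - ((x 0 / 2 ^ i : ℕ) : ℝ)) * σ0)))
        - (A2 - (A0 + e 0 * ((((x 2 / 2 ^ i : ℕ) : ℝ) - ((x 0 / 2 ^ i : ℕ) : ℝ)) * σ0)))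
        + (A3 - (A0 + e 0 * ((((x 3 / 2 ^ i : ℕ) : ℝ) - ((x 0 / 2 ^ i : ℕ) : ℝ)) * σ0))) := by
      simp only [Int.cast_sub, Int.cast_add, Int.cast_natCast]
      ring
    rw [e1]
    refine (t4_four _ _ _ _).trans ?_
    rw [nrm_zero]
    push_cast
    linarith
  | succ dd ih =>
    intro i hi e he hc
    have h1' : i + 1 ≤ Nat.log 2 Y := by omega
    have h2 : 2 ^ (i + 1) ≤ Y := le_trans (Nat.pow_le_pow_right (by norm_num) h1')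
      (Nat.pow_log_le_self 2 hYpos)
    have h1 : 2 ^ i ≤ Y := le_trans (Nat.pow_le_pow_right (by norm_num) (by omega)) h2
    have ed : ∀ k, x k / 2 ^ (i + 1) = (x k / 2 ^ i) / 2 := by
      intro k
      rw [Nat.div_div_eq_div_mul, pow_succ]
    -- the relations at the halves
    have hrel : ∀ k, ∃ ε, Sgn ε ∧ nrm (s (x k / 2 ^ (i + 1)) - ε * (2 * s (x k / 2 ^ i))) ≤ c ∧
        nrm (t (x k / 2 ^ (i + 1)) - flp ε (t (x k / 2 ^ i) -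
          (((x k / 2 ^ i) % 2 : ℕ) : ℝ) * s (x k / 2 ^ i) + (1 - f 2) / 4)) ≤ ρ := by
      intro k
      have hk' := hG k (i + 1) h2
      have := rel2 P D.sg D.mul (x k / 2 ^ i) (by rw [← ed k]; exact D.pos _ hk')
        (s (x k / 2 ^ i)) (t (x k / 2 ^ i)) (s (x k / 2 ^ (i + 1))) (t (x k / 2 ^ (i + 1)))
        (D.cod _ (hG k i h1)) (by rw [← ed k]; exact D.cod _ hk') (D.nd _ hk')
      exact this
    choose ε hε hεs hεt using hrel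
    set e' : Fin 4 → ℝ := fun k => e k * ε k with he'
    have hse' : ∀ k, Sgn (e' k) := fun k => sgn_mul (he k) (hε k)
    -- frequencies
    have hA : ∀ k, nrm (e' k * s (x k / 2 ^ (i + 1)) - 2 * (e k * s (x k / 2 ^ i))) ≤ c := by
      intro k
      have e1 : e' k * s (x k / 2 ^ (i + 1)) - 2 * (e k * s (x k / 2 ^ i)) =
          (e k * ε k) * (s (x k / 2 ^ (i + 1)) - ε k * (2 * s (x k / 2 ^ i))) := by
        simp only [he']
        linear_combination (2 * (e k * s (x k / 2 ^ i))) * (sgn_sq (hε k))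
      rw [e1, nrm_sgn_mul (hse' k)]
      exact hεs k
    have hB : ∀ k, nrm (2 * (e k * s (x k / 2 ^ i)) - 2 * (e 0 * s (x 0 / 2 ^ i))) ≤ 2 * c := by
      intro k
      have := nrm_nat_mul_le 2 (e k * s (x k / 2 ^ i) - e 0 * s (x 0 / 2 ^ i))
      rw [← mul_sub]
      push_cast at this
      linarith [hc k]
    have hC : ∀ k, nrm (e' k * s (x k / 2 ^ (i + 1)) - e' 0 * s (x 0 / 2 ^ (i + 1))) ≤ 4 * c := by
      intro k
      have a1 := nrm_tri (e' k * s (x k / 2 ^ (i + 1))) (2 * (e k * s (x k / 2 ^ i)))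
        (e' 0 * s (x 0 / 2 ^ (i + 1)))
      have a2 := nrm_tri (2 * (e k * s (x k / 2 ^ i))) (2 * (e 0 * s (x 0 / 2 ^ i)))
        (e' 0 * s (x 0 / 2 ^ (i + 1)))
      have a3 := hA 0
      rw [nrm_comm] at a3
      linarith [hA k, hB k]
    have hCc : ∀ k, nrm (e' k * s (x k / 2 ^ (i + 1)) - e' 0 * s (x 0 / 2 ^ (i + 1))) ≤ c := by
      intro k
      have hcl := cls P D Y G0 hG0 (x 0) (x k) (hx 0) (hx k)
        (fun y hy1 hy2 => ⟨hd 0 k y hy1 hy2, hd k 0 y hy1 hy2⟩) (i + 1) 0 (by simpa using h2)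
      simp only [pow_zero, mul_one] at hcl
      obtain ⟨g, hg, hg1⟩ := hcl
      have hnd0 := D.nd _ (hG 0 (i + 1) h2)
      have hu : e' k * e' 0 = g := t4_uniq hQ2 hnd0 (sgn_mul (hse' k) (hse' 0)) hg
        (t4_mulsgn' (hse' k) (hC k)) hg1 (by linarith)
      apply t4_mulsgn (hse' k)
      rw [hu]; exact hg1
    have hIH := ih (i + 1) (by omega) e' hse' hCc
    -- phases
    have hκf : ∀ k, ∃ z : ℤ, e k * ((1 - f 2) / 4) = (1 - f 2) / 4 + z := by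
      intro k
      rcases D.sg 2 with h | h <;> rw [h]
      · exact ⟨0, by simp⟩
      · rcases he k with h' | h' <;> rw [h']
        · exact ⟨0, by norm_num⟩
        · exact ⟨-1, by norm_num⟩
    have hD : ∀ k, nrm (flp (e' k) (t (x k / 2 ^ (i + 1))) - (flp (e k) (t (x k / 2 ^ i)) -
        (((x k / 2 ^ i) % 2 : ℕ) : ℝ) * (e k * s (x k / 2 ^ i)) + (1 - f 2) / 4)) ≤ ρ := by
      intro k
      have a1 := t4_flp (hse' k) (hε k) (hεt k)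
      have a2 : e' k * ε k = e k := by
        simp only [he']
        rw [mul_assoc, sgn_sq (hε k), mul_one]
      rw [a2] at a1
      obtain ⟨z, hz⟩ := hκf k
      have a3 : flp (e k) (t (x k / 2 ^ i) - (((x k / 2 ^ i) % 2 : ℕ) : ℝ) * s (x k / 2 ^ i) +
          (1 - f 2) / 4) = (flp (e k) (t (x k / 2 ^ i)) -
        (((x k / 2 ^ i) % 2 : ℕ) : ℝ) * (e k * s (x k / 2 ^ i)) + (1 - f 2) / 4) + z := by
        unfold flp
        linear_combination hz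
      rw [a3] at a1
      rw [← nrm_sub_int _ z]
      refine le_of_eq_of_le ?_ a1
      congr 1
      ring
    have hE : ∀ k, nrm ((((x k / 2 ^ i) % 2 : ℕ) : ℝ) *
        (e k * s (x k / 2 ^ i) - e 0 * s (x 0 / 2 ^ i))) ≤ c := by
      intro k
      refine (nrm_nat_mul_le _ _).trans ?_
      have b1 : ((((x k / 2 ^ i) % 2 : ℕ) : ℝ)) ≤ 1 := by
        have : (x k / 2 ^ i) % 2 ≤ 1 := by omega
        exact_mod_cast this
      have b0 : (0 : ℝ) ≤ ((((x k / 2 ^ i) % 2 : ℕ) : ℝ)) := Nat.cast_nonneg _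
      nlinarith [hc k, nrm_nonneg (e k * s (x k / 2 ^ i) - e 0 * s (x 0 / 2 ^ i))]
    -- the integers
    set κ' : ℤ := ((x 0 / 2 ^ (i + 1) : ℕ) : ℤ) - ((x 1 / 2 ^ (i + 1) : ℕ) : ℤ)
      - ((x 2 / 2 ^ (i + 1) : ℕ) : ℤ) + ((x 3 / 2 ^ (i + 1) : ℕ) : ℤ) with hκ'
    have hκ'2 : |κ'| ≤ 2 := t4_kap x κ hκ hκ2 (i + 1)
    have hF : nrm ((κ' : ℝ) * (e' 0 * s (x 0 / 2 ^ (i + 1)) - 2 * (e 0 * s (x 0 / 2 ^ i)))) ≤
        2 * c := by
      refine (t4_int_mul _ _).trans ?_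
      have b1 : |(κ' : ℝ)| ≤ 2 := by exact_mod_cast hκ'2
      have b2 := hA 0
      have b3 := nrm_nonneg (e' 0 * s (x 0 / 2 ^ (i + 1)) - 2 * (e 0 * s (x 0 / 2 ^ i)))
      nlinarith [abs_nonneg (κ' : ℝ)]
    have hdm : ∀ k, ((x k / 2 ^ i : ℕ) : ℝ) = 2 * ((x k / 2 ^ (i + 1) : ℕ) : ℝ) +
        (((x k / 2 ^ i) % 2 : ℕ) : ℝ) := by
      intro k
      rw [ed k]
      have := Nat.div_add_mod (x k / 2 ^ i) 2
      exact_mod_cast this.symm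
    have hD0 := hD 0
    have hD1 := hD 1
    have hD2 := hD 2
    have hD3 := hD 3
    have hE1 := hE 1
    have hE2 := hE 2
    have hE3 := hE 3
    have g1 := t4_four _ _ _ _ |>.trans (add_le_add (add_le_add (add_le_add hD0 hD1) hD2) hD3)
    have g2 := t4_four 0 _ _ _ |>.trans (add_le_add (add_le_add (add_le_add (le_of_eq nrm_zero)
      hE1) hE2) hE3)
    have g3 := t4_four _ _ _ _ |>.trans (add_le_add (add_le_add (add_le_add hIH g1)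
      (le_of_eq nrm_zero)) (le_trans (nrm_add _ _) (add_le_add g2 hF)))
    refine le_trans (le_of_eq ?_) (g3.trans ?_)
    · congr 1
      rw [hκ']
      simp only [Int.cast_sub, Int.cast_add, Int.cast_natCast]
      rw [hdm 0, hdm 1, hdm 2, hdm 3]
      ring
    · push_cast
      linarith

theorem t4 {f : ℕ → ℝ} {L Q M : ℕ} {θ ρ c : ℝ} (P : Par L Q M θ ρ c) {G : Set ℕ} {s t : ℕ → ℝ}
    (D : Dat f L Q θ G s t) (Y G0 : ℕ) (hY : 1 ≤ Y) (hG0 : 2 * G0 ≤ L) (hG0c : G0 * c ≤ ρ)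
    (x : Fin 4 → ℕ) (hx : ∀ k, SG G Y (x k))
    (hd : ∀ (k k' : Fin 4) (y : ℕ), y ≤ Y → Y < 4 * y →
      ((x k / y : ℕ) : ℤ) - ((x k' / y : ℕ) : ℤ) ≤ G0)
    (κ : ℤ) (hκ : (x 0 : ℤ) - x 1 - x 2 + x 3 = κ) (hκ2 : |κ| ≤ 2)
    (e : Fin 4 → ℝ) (he : ∀ k, Sgn (e k)) (hc : ∀ k, nrm (e k * s (x k) - e 0 * s (x 0)) ≤ c) :
    nrm (flp (e 0) (t (x 0)) - flp (e 1) (t (x 1)) - flp (e 2) (t (x 2)) + flp (e 3) (t (x 3))
      - κ * (e 0 * s (x 0))) ≤ (6 + 5 * (Nat.log 2 Y : ℝ)) * ρ := by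
  have hYpos : Y ≠ 0 := by omega
  have := t4_claim P D Y G0 hY hG0 hG0c x hx hd κ hκ hκ2 (Nat.log 2 Y) 0 (by omega) e he
    (by simpa using hc)
  simp only [pow_zero, Nat.div_one] at this
  rw [hκ] at this
  exact this

end Pool.Agent.Lib.MP_f6c41f_nt.RT
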