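import Pool.Agent.Lib.MP_f6c41f_nt.RT.Pat
import Pool.Agent.Lib.MP_f6c41f_nt.RT.Bal

/-!
# MP_f6c41f_nt RT, row VioC: violations are rare

Proof.  Let `F0 = {b, b+1, b+k-1, b+k, b', b'+1, b'+k-1, b'+k}` (at most 8 elements, all `≤ B`).  Whether `Vio w k b b'`
holds depends only on `w` on `F0`.  For each `S ⊆ F0` such that the word `w_S` (`-1` on `S`, `1` off `S`) has
`Vio w_S k b b'`, the pattern `S` does not occur in the model (`bal`), so `pat` bounds the number of `n ≤ N` with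
this pattern by `δ N`.  Every `n` with `Vio (f (n + .))` has one of the at most `2^8` patterns
(`S = {i ∈ F0 : f (n + i) = -1}`, `hf`).  (`δ ≥ 0`: `Hyp` with `F = ∅`, or from `pat` itself.)
-/

set_option autoImplicit false

namespace Pool.Agent.Lib.MP_f6c41f_nt.RT

open Finset Pool.Agent.Lib.MP_f6c41f_nt
open scoped Classical

theorem vioC {f : ℕ → ℝ} (hf : Sg f) (B : ℕ) (δ : ℝ) (N : ℕ) (hN : 1 ≤ N) (hH : Hyp f B δ N)
    (k b b' : ℕ) (hk : 2 ≤ k) (hb : b + k ≤ B) (hb' : b' + k ≤ B) :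
    (((Icc 1 N).filter (fun n => Vio (fun i => f (n + i)) k b b')).card : ℝ) ≤ 256 * δ * N := by
  have hδ : 0 ≤ δ := le_trans (abs_nonneg _) (hH ∅ (by simp) (by simp))
  have hN0 : (0 : ℝ) ≤ N := Nat.cast_nonneg N
  have hδN : 0 ≤ δ * N := mul_nonneg hδ hN0
  obtain ⟨F0, hcard, hmemB, m0, m1, m2, m3, m4, m5, m6, m7⟩ : ∃ F0 : Finset ℕ, F0.card ≤ 8 ∧
      (∀ i ∈ F0, i ≤ B) ∧ b ∈ F0 ∧ b + 1 ∈ F0 ∧ b + k - 1 ∈ F0 ∧ b + k ∈ F0 ∧ b' ∈ F0 ∧
      b' + 1 ∈ F0 ∧ b' + k - 1 ∈ F0 ∧ b' + k ∈ F0 := by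
    refine ⟨[b, b + 1, b + k - 1, b + k, b', b' + 1, b' + k - 1, b' + k].toFinset,
      List.toFinset_card_le _, ?_, ?_⟩
    · intro i hi
      rw [List.mem_toFinset] at hi
      simp only [List.mem_cons, List.not_mem_nil, or_false] at hi
      omega
    · simp only [List.mem_toFinset, List.mem_cons, true_or, or_true, and_self]
  -- the patterns
  set T : Finset (Finset ℕ) := F0.powerset.filter (fun S =>
    ∀ s t : ℝ, ¬ ∀ i ∈ F0, phi (t + (i : ℝ) * s) = if i ∈ S then -1 else 1) with hT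
  have hsub : (Icc 1 N).filter (fun n => Vio (fun i => f (n + i)) k b b') ⊆
      T.biUnion (fun S => (Icc 1 N).filter (fun n => ∀ i ∈ F0, f (n + i) = if i ∈ S then -1 else 1)) := by
    intro n hn
    obtain ⟨hn1, hn2⟩ := mem_filter.1 hn
    have hS : ∀ i ∈ F0, f (n + i) = if i ∈ F0.filter (fun i => f (n + i) = -1) then -1 else 1 := by
      intro i hi
      by_cases h1 : f (n + i) = -1
      · rw [if_pos (mem_filter.2 ⟨hi, h1⟩)]
        exact h1
      · have h3 : i ∉ F0.filter (fun i => f (n + i) = -1) := fun h => h1 (mem_filter.1 h).2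
        rw [if_neg h3]
        rcases hf (n + i) with h2 | h2
        · exact h2
        · exact absurd h2 h1
    refine mem_biUnion.2 ⟨F0.filter (fun i => f (n + i) = -1), ?_, mem_filter.2 ⟨hn1, hS⟩⟩
    refine mem_filter.2 ⟨mem_powerset.2 (filter_subset _ _), ?_⟩
    intro s t hst
    have heq : ∀ i ∈ F0, f (n + i) = phi (t + (i : ℝ) * s) := fun i hi => by
      rw [hst i hi, ← hS i hi]
    apply bal s t k b b' hk
    have h0 := heq b m0
    have h1 := heq (b + 1) m1
    have h2 := heq (b + k - 1) m2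
    have h3 := heq (b + k) m3
    have h4 := heq b' m4
    have h5 := heq (b' + 1) m5
    have h6 := heq (b' + k - 1) m6
    have h7 := heq (b' + k) m7
    unfold Vio at hn2 ⊢
    simp only at hn2 ⊢
    rw [← h0, ← h1, ← h2, ← h3, ← h4, ← h5, ← h6, ← h7]
    exact hn2
  have hTc : (T.card : ℝ) ≤ 256 := by
    have h1 : T.card ≤ F0.powerset.card := card_filter_le _ _
    rw [card_powerset] at h1
    have h2 : 2 ^ F0.card ≤ 2 ^ 8 := Nat.pow_le_pow_right (by norm_num) hcard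
    have h3 : T.card ≤ 256 := le_trans h1 (le_trans h2 (by norm_num))
    exact_mod_cast h3
  calc (((Icc 1 N).filter (fun n => Vio (fun i => f (n + i)) k b b')).card : ℝ) ≤
        ((T.biUnion (fun S => (Icc 1 N).filter
          (fun n => ∀ i ∈ F0, f (n + i) = if i ∈ S then -1 else 1))).card : ℝ) :=
        Nat.cast_le.2 (card_le_card hsub)
    _ ≤ ((∑ S ∈ T, ((Icc 1 N).filter
          (fun n => ∀ i ∈ F0, f (n + i) = if i ∈ S then -1 else 1)).card : ℕ) : ℝ) :=
        Nat.cast_le.2 card_biUnion_le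
    _ ≤ ∑ S ∈ T, δ * N := by
        push_cast
        refine sum_le_sum fun S hS => ?_
        exact pat hf B δ N hN hH F0 hcard hmemB S (mem_filter.1 hS).2
    _ = T.card * (δ * N) := by rw [sum_const, nsmul_eq_mul]
    _ ≤ 256 * (δ * N) := mul_le_mul_of_nonneg_right hTc hδN
    _ = 256 * δ * N := by ring

end Pool.Agent.Lib.MP_f6c41f_nt.RT
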